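import Pool.Agent.H78.Tie.W.Phi

/-! # B1

Row h is inside (Bt).  The event: bottom of row h, HB beta h 0 (HB_B with i = h: beta + q h - q h), arc (-w, 0], i.e. columns (beta, beta + W1].
bmin: nov1 for row s in [1,h] with lift x in (0,D) and x > D - W1: x - D in (-qw, 0) (p | x, D, W1 so x - D >= -W1 + p), x - D + q s in (-qh, qh):
 p | s - sig so s = sig and pkt 1: x = D - W1.  contradiction.
ble: bmin for s = h.
B1: let x be the lift of row k in [-q w.., ..+N) (Pt.ex with z := -(q w)).  Suppose c := right wall, first D + q w <= c < N: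
 free (p < ix k + t): c = x + q w, wFR, chi = aR k; merged (ix k + t < p): ixM' : row k - sig has lift x + W1 = c, class ix k + t > t, wM for the row
 k - sig (merged with (k - sig) + sig = k): chi = aL (k-sig) - aR k.  (ix k + t = p is impossible: then ix k = ix sig by pkt 1, so k = sig mod p.)
 The levels: aR k 0 = 0, aR k (k-w) = 1 (arc (k-w-h, k-w]); aL (k-sig) 0 = 0, aL (k-sig) (k-w) = 0 (arc (k-sig-h, k-sig], sig > w): chi 0 = 0, chi (k-w) = +-1.
 Take r (lev_ex beta c).  Both Y = 0 and Y = k - w are in (-w,0], in the arc of beta; r is not (r in (-p,-w] as beta - c in (-N, -q w)); so for one of the two Y chi r <> chi Y: OUT. False.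
 (wFR, wM need h not= k, k - sig mod p: ok.)
 So the right wall is not in [D + q w, N): as x in [-qw, N - qw): x + q w in [0, D + q w) so x in [-q w, D).
 x in (-q w, 0]: nov0: x + q k in (-qh, qh): p | k + sig: impossible; x = -q w is not a multiple of p (unless p | w); x <> 0 (ne0).  So 0 < x < D; bmin: x <= D - W1.
-/

namespace Pool.Agent.H78.Tie

open Finset
open Pool.Agent.H98.Flat
open Pool.Agent.H67.Flat

set_option linter.dupNamespace false
set_option linter.unusedVariables false

namespace TAp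

variable {A : TAp}

theorem B1_W (A : TAp) : A.W1 = A.q * A.w + 1 ∨ A.W1 = A.q * A.w - 1 := by
  rcases A.hsg with h | h
  · left; unfold W1; omega
  · right; unfold W1; omega

/-- rows `1..h` inside are at distance `W1` from the place of class `p` -/
theorem WR.bmin {T : A.Tie} (h : WR A T) {s x : ℤ} (s0 : 0 < s) (s1 : s ≤ A.h) (hx : A.Pt x s)
    (x0 : 0 < x) (x1 : x < A.D) : x ≤ A.D - A.W1 := by
  by_contra hc
  obtain ⟨w2, wh, wp, hp, pq, q6, p5, ws, sh, t0, tp⟩ := h.sz
  have hg : A.D - A.W1 + A.p ≤ x := by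
    by_contra hlt
    have := dvd_gap hx.dvd (dvd_sub A.p_D A.p_W1) (by omega)
    omega
  have e1 := ql1 (A := A) (a := 0) (b := s) (by omega)
  have e2 := ql (A := A) (a := s) (b := A.h) (by omega)
  have e3 := ql1 (A := A) (a := A.w) (b := A.h) (by omega)
  rw [mul_zero] at e1
  have hW := B1_W A
  have hd := h.nov1 hx (ndp (by omega) (by omega) (by omega)) (by omega) (by omega) (by omega)
    (by omega)
  have hs : s = T.sig := by
    apply eq_of_dvd hd <;> omega
  subst hs
  obtain ⟨hp1, -⟩ := h.pkt (n := 1) (by omega) (by omega)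
  rw [one_mul, one_mul] at hp1
  have hD := A.D_W'
  have := hx.eq hp1 (by omega) (by omega)
  omega

namespace Bt

variable {T : A.Tie} {β : ℤ}

theorem ble (h : Bt A T β) : β ≤ A.D - A.W1 := by
  obtain ⟨w2, wh, wp, hp, pq, q6, p5, ws, sh, t0, tp⟩ := h.wr.sz
  exact h.wr.bmin (by omega) le_rfl h.pb h.b0 h.b1

theorem hb (h : Bt A T β) : A.HB β A.h 0 := by
  obtain ⟨w2, wh, wp, hp, pq, q6, p5, ws, sh, t0, tp⟩ := h.wr.sz
  have := HB_B h.pb (ndp (by omega) (by omega) (by omega))
  rwa [show β + A.q * A.h - A.q * A.h = β by ring, sub_self] at this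

/-- the two levels `0` and `k - w` -/
theorem B1_two (h : Bt A T β) {c : ℤ} {χ : ℤ → ℤ} (hW : A.Wal c χ A.h) {k : ℤ} (k0 : 0 < k)
    (k1 : k < A.w) (c0 : A.D + A.q * A.w ≤ c) (c1 : c < A.NN) (hχ : χ 0 ≠ χ (k - A.w)) :
    False := by
  obtain ⟨w2, wh, wp, hp, pq, q6, p5, ws, sh, t0, tp⟩ := h.wr.sz
  obtain ⟨r, r1, r2⟩ := A.lev_ex β c
  have hb0 := h.b0
  have hb1 := h.b1
  have hble := h.ble
  -- levels of `r`
  have hr1 : -(A.p : ℤ) < r := by
    apply qlt (A := A)
    have := A.NNqp
    rw [mul_neg]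
    omega
  have hr2 : r ≤ -(A.w : ℤ) := by
    apply qle (A := A)
    rw [mul_neg]
    omega
  have key : ∀ Y : ℤ, -(A.w : ℤ) < Y → Y ≤ 0 →
      (InA A.p Y (0 - A.w) A.w ↔ ¬ InA A.p r (0 - A.w) A.w) := by
    intro Y Y0 Y1
    rw [InA_iff (by omega) (by omega) (by omega), InA_iff (by omega) (by omega) (by omega)]
    constructor
    · intro _ hh; omega
    · intro _; left; omega
  by_cases hc : χ r ≠ χ 0
  · exact h.wr.OUT hW h.hb c0 c1 hb0 hb1 (by omega) (by omega) r1 r2 hc
      (key 0 (by omega) (by omega))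
  · rw [not_not] at hc
    refine h.wr.OUT (Y := k - A.w) hW h.hb c0 c1 hb0 hb1 (by omega) (by omega) r1 r2 ?_
      (key (k - A.w) (by omega) (by omega))
    rw [hc]; exact hχ

/-- rows `k ∈ [1,w)` are inside -/
theorem B1 (h : Bt A T β) {k : ℤ} (k0 : 0 < k) (k1 : k < A.w) :
    ∃ x, A.Pt x k ∧ 0 < x ∧ x ≤ A.D - A.W1 := by
  obtain ⟨w2, wh, wp, hp, pq, q6, p5, ws, sh, t0, tp⟩ := h.wr.sz
  obtain ⟨x, hx, x0, x1⟩ := Pt.ex A k (-(A.q * (A.w : ℤ)))
  have hkp : ¬ (A.p : ℤ) ∣ k := ndp (by omega) (by omega) (by omega)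
  have hD := A.D_W'
  -- levels
  have hR0 : A.aR k 0 = 0 := by
    unfold aR
    rw [if_neg]
    rw [InA_iff (by omega) (by omega) (by omega)]
    omega
  have hRk : A.aR k (k - A.w) = 1 := by
    unfold aR
    rw [if_pos]
    rw [InA_iff (by omega) (by omega) (by omega)]
    left; omega
  have hL0 : A.aL (k - T.sig) 0 = 0 := by
    unfold aL
    rw [if_neg]
    rw [InA_iff (by omega) (by omega) (by omega)]
    omega
  have hLk : A.aL (k - T.sig) (k - A.w) = 0 := by
    unfold aL
    rw [if_neg]
    rw [InA_iff (by omega) (by omega) (by omega)]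
    omega
  have hnot : ¬ (A.D + A.q * A.w ≤ x + A.q * A.w ∧ x + A.q * A.w < A.NN) := by
    rintro ⟨c0, c1⟩
    rcases lt_trichotomy (A.ix k + T.t) A.p with hlt | heq | hgt
    · -- merged
      obtain ⟨hm, hi⟩ := h.wr.ixM' hx hlt
      have hi0 := ix_pos (A := A) hkp
      have hw := h.wr.wM (i := A.h) hm (by omega)
        (ndp (by omega) (by omega) (by omega)) (ndp (by omega) (by omega) (by omega))
      rw [sub_add_cancel] at hw
      have hxD : A.D + A.p ≤ x := by
        by_contra hlt'
        have := dvd_gap hx.dvd A.p_D (by omega)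
        have he : x = A.D := by omega
        exact hx.neD (by rw [he, sub_self]; exact dvd_zero _)
      have hW := B1_W A
      have hN := hm.ne0 (ndp (by omega) (by omega) (by omega))
      have hle := dvd_gap hm.dvd A.p_NN (by omega)
      have hne : x + A.W1 ≠ A.NN := fun he => hN (by rw [he])
      refine h.B1_two hw k0 k1 (by omega) (by omega) ?_
      simp only [hL0, hLk, hR0, hRk]
      norm_num
    · obtain ⟨-, hi⟩ := h.wr.pkt (n := 1) (by omega) (by omega)
      rw [one_mul, one_mul] at hi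
      have := ix_inj (A := A) (k := k) (j := T.sig) (by omega)
      exact ndp (A := A) (s := k - T.sig) (by omega) (by omega) (by omega) this
    · have hw := h.wr.wFR (c := x + A.q * A.w) (i := A.h)
        (by rwa [add_sub_cancel_right]) hkp hgt (ndp (by omega) (by omega) (by omega))
      exact h.B1_two hw k0 k1 c0 c1 (by rw [hR0, hRk]; norm_num)
  have hxD : x < A.D := by
    by_contra hge
    exact hnot ⟨by omega, by omega⟩
  have hx0 : 0 < x := by
    by_contra hle
    have e1 := ql1 (A := A) (a := 0) (b := k) (by omega)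
    have e2 := ql1 (A := A) (a := k) (b := A.h) (by omega)
    have e3 := ql1 (A := A) (a := A.w) (b := A.h) (by omega)
    rw [mul_zero] at e1
    have hne : x ≠ -(A.q * (A.w : ℤ)) := by
      intro he
      have h1 := dvd_add hx.dvd A.p_W1
      have hW := B1_W A
      have h2 : x + A.W1 = 1 ∨ x + A.W1 = -1 := by omega
      rcases h2 with h2 | h2
      · rw [h2] at h1
        have := Int.le_of_dvd (by omega) h1
        omega
      · rw [h2] at h1
        have := Int.le_of_dvd (by omega) ((dvd_neg).2 h1)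
        omega
    have := h.wr.nov0 hx hkp (by omega) (by omega) (by omega) (by omega)
    exact ndp (A := A) (s := k + T.sig) (by omega) (by omega) (by omega) this
  exact ⟨x, hx, hx0, h.wr.bmin k0 (by omega) hx hx0 hxD⟩

end Bt

end TAp

end Pool.Agent.H78.Tie
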