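import Pool.Agent.H78.Tie.W.Win
import Pool.Agent.H67.NP.Count

/-! # Pack -/

namespace Pool.Agent.H78.Tie

open Finset
open Pool.Agent.H98.Flat
open Pool.Agent.H67.Flat

set_option linter.dupNamespace false
set_option linter.unusedVariables false

namespace TAp

variable {A : TAp}

/-- a row arc has `q h` rows -/
theorem Pack_ver (A : TAp) (k : ℤ) :
    ∑ v ∈ range (A.p * A.q), (A.cfg 0).ver k (v : ℤ) = A.q * A.h := by
  have hH := A.Col_H
  have h0 : 0 < A.p * A.q := Nat.mul_pos A.hp A.hq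
  have e := sum_ph (A.p * A.q) h0 (A.V k - A.q * A.h) (A.q * A.h) hH.1.le (by
    have := hH.2
    unfold NN at this
    push_cast
    omega)
  rw [← e]
  refine Finset.sum_congr rfl fun v _ => ?_
  unfold Cfg.ver
  have hN : (A.cfg 0).N = ((A.p * A.q : ℕ) : ℤ) := by
    show A.NN = _
    unfold NN
    push_cast
    ring
  rw [hN]
  rfl

/-- three rows over a visible column -/
theorem Pack_three {T : A.Tie} (h : WR A T) (w3 : 3 ≤ (A.w : ℤ)) :
    ∃ x, (A.p : ℤ) ∣ x ∧ ∃ s : Finset ℕ, s ⊆ range A.p ∧ s.card = 3 ∧ ∀ k ∈ s, A.Cx (k : ℤ) x := by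
  by_contra hcon
  push Not at hcon
  have hp : (0 : ℤ) < A.p := by exact_mod_cast A.hp
  have hW1 := A.W1_bd
  have q6 := A.q6
  have hle : ∀ j ∈ range A.q, ∑ k ∈ range A.p, (A.cfg 0).hor (k : ℤ) (A.p * (j : ℤ) - A.k0) ≤ 2 := by
    intro j _
    set x : ℤ := A.p * (j : ℤ) with hx
    have px : (A.p : ℤ) ∣ x := dvd_mul_right _ _
    set s := (range A.p).filter (fun k : ℕ => (A.cfg 0).hor (k : ℤ) (x - A.k0) = 1) with hs
    have hcard : (∑ k ∈ range A.p, (A.cfg 0).hor (k : ℤ) (x - A.k0)) = s.card := by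
      rw [hs, Finset.card_filter]
      push_cast
      refine Finset.sum_congr rfl fun k _ => ?_
      unfold Cfg.hor ph
      split_ifs <;> simp_all
    rw [hcard]
    by_contra hc
    have hc3 : 3 ≤ s.card := by
      push Not at hc
      exact_mod_cast hc
    obtain ⟨s', hs', hc'⟩ := Finset.exists_subset_card_eq hc3
    obtain ⟨k, hk, hk'⟩ := hcon x px s' (hs'.trans (Finset.filter_subset _ _)) hc'
    exact hk' (Finset.mem_filter.1 (hs' hk)).2
  have tot : A.p * ∑ j ∈ range A.q, ∑ k ∈ range A.p, (A.cfg 0).hor (k : ℤ) (A.p * (j : ℤ) - A.k0)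
      = A.p * A.W1 := by
    rw [Finset.sum_comm, Finset.mul_sum]
    have e : ∀ k ∈ range A.p, A.p * ∑ j ∈ range A.q, (A.cfg 0).hor (k : ℤ) (A.p * (j : ℤ) - A.k0)
        = A.W1 := by
      intro k _
      have c := Count_sum' A ((A.cfg 0).U (k : ℤ)) (-A.p) A.W1 A.p_W1 (by omega) (by omega)
      rw [← c]
      congr 1
      refine Finset.sum_congr rfl fun j _ => ?_
      rw [Count_hor A (k : ℤ) (A.p * (j : ℤ)) (dvd_mul_right _ _), sub_eq_add_neg]
    rw [Finset.sum_congr rfl e]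
    simp
  have up := Finset.sum_le_sum hle
  rw [Finset.sum_const, Finset.card_range, nsmul_eq_mul] at up
  have up2 := mul_le_mul_of_nonneg_left up hp.le
  rw [tot] at up2
  have up3 : A.W1 ≤ (A.q : ℤ) * 2 := le_of_mul_le_mul_left (by exact_mod_cast up2) hp
  have hsg := A.hsg
  have : (A.q : ℤ) * 3 ≤ A.q * A.w := mul_le_mul_of_nonneg_left w3 (by omega)
  unfold W1 at up3
  rcases hsg with hs | hs <;> omega

theorem WR.pk {T : A.Tie} (h : WR A T) : 2 * (A.h : ℤ) + A.w ≤ A.p + 1 := by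
  obtain ⟨z1, z2, z3, z4, z5, z6, z7, z8, z9, z10, z11⟩ := h.sz
  rcases (show (A.w : ℤ) = 2 ∨ 3 ≤ (A.w : ℤ) by omega) with hw | hw
  · omega
  · suffices hs : 3 * (A.h : ℤ) < A.p by omega
    obtain ⟨x, px, s, hsr, hc, hs⟩ := Pack_three h hw
    by_contra hcon
    push Not at hcon
    have hq : (0 : ℤ) < A.q := by omega
    have disj : ∀ v : ℤ, ∑ k ∈ s, (A.cfg 0).ver (k : ℤ) v ≤ 1 := by
      intro v
      by_contra hc1
      push Not at hc1
      set t := s.filter (fun k : ℕ => (A.cfg 0).ver (k : ℤ) v = 1) with ht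
      have hcard : (∑ k ∈ s, (A.cfg 0).ver (k : ℤ) v) = t.card := by
        rw [ht, Finset.card_filter]
        push_cast
        refine Finset.sum_congr rfl fun k _ => ?_
        unfold Cfg.ver ph
        split_ifs <;> simp_all
      rw [hcard] at hc1
      have hc2 : 1 < t.card := by exact_mod_cast hc1
      obtain ⟨a, ha, b, hb, hab⟩ := Finset.one_lt_card.1 hc2
      have ha' := Finset.mem_filter.1 ha
      have hb' := Finset.mem_filter.1 hb
      have hd := h.uniq px (hs a ha'.1) ha'.2 (hs b hb'.1) hb'.2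
      have ra := Finset.mem_range.1 (hsr ha'.1)
      have rb := Finset.mem_range.1 (hsr hb'.1)
      obtain ⟨c, hc⟩ := hd
      apply hab
      have hpp : (0 : ℤ) < A.p := by omega
      have c0 : c = 0 := by
        have h1 : (A.p : ℤ) * c < A.p * 1 := by omega
        have h2 : (A.p : ℤ) * (-1) < A.p * c := by omega
        have := lt_of_mul_lt_mul_left h1 hpp.le
        have := lt_of_mul_lt_mul_left h2 hpp.le
        omega
      rw [c0] at hc
      omega
    have tot : ∑ v ∈ range (A.p * A.q), ∑ k ∈ s, (A.cfg 0).ver (k : ℤ) (v : ℤ)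
        = 3 * (A.q * A.h) := by
      rw [Finset.sum_comm]
      have e : ∀ k ∈ s, ∑ v ∈ range (A.p * A.q), (A.cfg 0).ver (k : ℤ) (v : ℤ) = A.q * A.h :=
        fun k _ => Pack_ver A (k : ℤ)
      rw [Finset.sum_congr rfl e, Finset.sum_const, hc]
      simp
    have hcov : ∀ v ∈ range (A.p * A.q), ∑ k ∈ s, (A.cfg 0).ver (k : ℤ) (v : ℤ) = 1 := by
      have h1 : ∑ v ∈ range (A.p * A.q), (1 : ℤ) ≤
          ∑ v ∈ range (A.p * A.q), ∑ k ∈ s, (A.cfg 0).ver (k : ℤ) (v : ℤ) := by
        rw [tot, Finset.sum_const, Finset.card_range]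
        have : (A.q : ℤ) * A.p ≤ A.q * (3 * A.h) := mul_le_mul_of_nonneg_left hcon hq.le
        simp only [mul_one, nsmul_eq_mul]
        push_cast
        nlinarith
      have h2 : ∑ v ∈ range (A.p * A.q), ∑ k ∈ s, (A.cfg 0).ver (k : ℤ) (v : ℤ) =
          ∑ v ∈ range (A.p * A.q), (1 : ℤ) :=
        le_antisymm (Finset.sum_le_sum fun v _ => disj v) h1
      intro v hv
      by_contra hne
      have hlt : ∑ k ∈ s, (A.cfg 0).ver (k : ℤ) (v : ℤ) < 1 := lt_of_le_of_ne (disj v) hne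
      have := Finset.sum_lt_sum (s := range (A.p * A.q))
        (f := fun v : ℕ => ∑ k ∈ s, (A.cfg 0).ver (k : ℤ) (v : ℤ)) (g := fun _ => (1 : ℤ))
        (fun i _ => disj (i : ℤ)) ⟨v, hv, hlt⟩
      omega
    -- a row
    obtain ⟨k, hk⟩ : s.Nonempty := by rw [← Finset.card_pos, hc]; norm_num
    have hN := A.NN_pos
    set v := A.V (k : ℤ) % A.NN with hv
    have v0 := Int.emod_nonneg (A.V (k : ℤ)) hN.ne'
    have v1 := Int.emod_lt_of_pos (A.V (k : ℤ)) hN
    obtain ⟨m, hm⟩ := Int.eq_ofNat_of_zero_le v0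
    have hm1 : m < A.p * A.q := by
      have : (m : ℤ) < A.p * A.q := by
        have h3 : A.NN = (A.p : ℤ) * A.q := rfl
        omega
      exact_mod_cast this
    have hcv := hcov m (Finset.mem_range.2 hm1)
    have hex : ∃ j ∈ s, A.Rw (j : ℤ) (m : ℤ) := by
      by_contra hno
      push Not at hno
      have : ∑ k ∈ s, (A.cfg 0).ver (k : ℤ) (m : ℤ) = 0 := by
        refine Finset.sum_eq_zero fun j hj => ?_
        have h1 := hno j hj
        unfold Rw at h1
        unfold Cfg.ver ph at h1 ⊢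
        split_ifs at h1 ⊢ with h2
        · exact absurd rfl h1
        · rfl
      omega
    obtain ⟨j, hj, hjv⟩ := hex
    have hd : A.NN ∣ A.V (k : ℤ) - (m : ℤ) := by
      rw [← hm]
      exact Int.dvd_self_sub_emod
    have hRj : A.Rw (j : ℤ) (A.V (k : ℤ)) := Rw_congr (by simp) (by
      have := hd
      rw [← dvd_neg] at this
      simpa using this) hjv
    have hRk : A.Rw (k : ℤ) (A.V (k : ℤ) - 1) := Rw_of (δ := 1) (by simp) (by norm_num) (by
      have := A.Col_H.1
      omega)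
    have hab := h.abut px (hs k hk) hRk (hs j hj) hRj
    have hRk' : A.Rw (k : ℤ) (A.V (k : ℤ)) := Rw_congr (by
      have := hab
      rw [← dvd_neg] at this
      simpa using this) (by simp) hRj
    exact not_Rw (δ := A.NN) (by
      rw [show A.V (k : ℤ) - (A.V (k : ℤ) - A.NN) = A.NN by ring]) A.Col_H.2 le_rfl hRk'

end TAp

end Pool.Agent.H78.Tie
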