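import Pool.Agent.H78.Tie.W.B1
import Pool.Agent.H78.Tie.W.Pack

/-! # B2

Rows h + k, k in [1,w).  Let x be a lift in [-q w, N - q w).
1. The right wall c of row h + k (c = x + q w free, c = x + W1 merged with row h + k - sig; ix (h+k) + t = p impossible: h + k = sig mod p no) is not in [D + q w, N):
 levels: aR (h+k) y: arc (k - w, h + k - w]; aL (h+k-sig) y: arc (k - sig, h + k - sig].  Y = k - w: aR = 0, aL = 1 (as k - sig < k - w <= h + k - sig);
 Y = k - w + 1 (<= 0): aR = 1, aL = 1.  So chi(k-w) <> chi(k-w+1) in both cases (chi = aR, resp. aL - aR); beta against this wall: OUT as in B1.  So x in [-q w, D).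
2. nov0: if -q w < x <= -q k (x <> -q k since p does not divide q k): x + q (h+k) in (-qh, qh]: p | h + k + sig: then Pt W1 (h+k) (Pt1: row -sig), x = W1 mod N: no.  So x > -q k.
3. nov1: x - D in (-q w, -q k) impossible similarly (p | h + k - sig: no, 0 < h + k - sig < p).  So x <= D - W1 (done) or x = D - z, 0 < z < q k.
4. Second case.  c := right wall = D - z + q w (or + W1) is in (D, D + q w).  If beta + q h < D: OUT2 with the same Y's: False.  Otherwise D < beta + q h (VHne-like: beta + q h <> D since p does not divide q h).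
5. Row k: by B1 lift y in (0, D - W1].  ix (h+k) versus ix h: Pt.sub / sub': row k = (h+k) - h has lift x - beta (if ix h <= ix (h+k)) or x - beta + D.
 In the second case y = 2D - z - beta mod N; 2D - z - beta is > D - z + W1 > D - W1 so y = 2D - z - beta - N < q (D2: 2D < N + q), y >= 1:
  then y < q and row k: nov0: y + q k < q h: False.  So y = x - beta = D - z - beta, i.e. beta + z = D - y in [W1, D).
6. Row -k has lift c' := beta + z = D - y (Pt.neg).  Its left wall line: free (ix (-k) < t): chi = aL (-k); merged (ix (-k) > t) with row -k + sig: chi = aL (-k) - aR (-k + sig) (arc (-k + xi - h, -k + xi], xi = -x); ix(-k) = t impossible.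
 c' > q w: if sg = 1, W1 > q w; if sg = -1: y = D - W1 only possible if ... use bmin/nov1 strictly: D - y >= q w since y - D in (-q w, 0) is excluded by nov1; and <> q w.
 I := top of row h: b = beta + q h in [D, N), HB_T: k-label h, arc (h - w, h].  r: q (r-1) < q h - z <= q r, 0 < z < q k: r in [h-k+1.., h].
 chi r = 0: r not in (-k-h,-k] mod p (needs p >= 2h + k: WR.pk), not in (-k+xi-h, -k+xi] mod p.
 free: Y = -k: chi Y = 1.  merged: Y = -k+1 (in (-w,0]): aL = 0, aR-part = 1: chi Y = -1.  The arc of b contains r, not Y: INN: False.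
-/

namespace Pool.Agent.H78.Tie

open Finset
open Pool.Agent.H98.Flat
open Pool.Agent.H67.Flat

set_option linter.dupNamespace false
set_option linter.unusedVariables false

namespace TAp

variable {A : TAp}

namespace Bt

variable {T : A.Tie} {β : ℤ}

theorem B2_pq (A : TAp) {k : ℤ} (h : (A.p : ℤ) ∣ A.q * k) : (A.p : ℤ) ∣ k :=
  (A.hqa.of_isCoprime_of_dvd_right A.hpa).symm.dvd_of_dvd_mul_left h

/-- two levels in `(-w, 0]` are not separated by a wall in `[D + q w, N)` -/
theorem B2_two (h : Bt A T β) {c : ℤ} {χ : ℤ → ℤ} (hW : A.Wal c χ A.h) {Y Y' : ℤ}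
    (y0 : -(A.w : ℤ) < Y) (y1 : Y ≤ 0) (z0 : -(A.w : ℤ) < Y') (z1 : Y' ≤ 0)
    (c0 : A.D + A.q * A.w ≤ c) (c1 : c < A.NN) (hχ : χ Y ≠ χ Y') : False := by
  obtain ⟨w2, wh, wp, hp, pq, q6, p5, ws, sh, t0, tp⟩ := h.wr.sz
  obtain ⟨r, r1, r2⟩ := A.lev_ex β c
  have hb0 := h.b0
  have hb1 := h.b1
  have hr1 : -(A.p : ℤ) < r := by
    apply qlt (A := A)
    have := A.NNqp
    rw [mul_neg]
    omega
  have hr2 : r ≤ -(A.w : ℤ) := by
    apply qle (A := A)
    rw [mul_neg]
    omega
  have key : ∀ Y : ℤ, -(A.w : ℤ) < Y → Y ≤ 0 →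
      (InA A.p Y (0 - A.w) A.w ↔ ¬ InA A.p r (0 - A.w) A.w) := by
    intro Y Y0 Y1
    rw [InA_iff (by omega) (by omega) (by omega), InA_iff (by omega) (by omega) (by omega)]
    constructor
    · intro _ hh; omega
    · intro _; left; omega
  by_cases hc : χ r ≠ χ Y
  · exact h.wr.OUT hW h.hb c0 c1 hb0 hb1 y0 y1 r1 r2 hc (key Y y0 y1)
  · rw [not_not] at hc
    refine h.wr.OUT (Y := Y') hW h.hb c0 c1 hb0 hb1 z0 z1 r1 r2 ?_ (key Y' z0 z1)
    rw [hc]; exact hχ

/-- same in `(D, D + q w)` -/
theorem B2_two' (h : Bt A T β) {c : ℤ} {χ : ℤ → ℤ} (hW : A.Wal c χ A.h) {Y Y' : ℤ}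
    (y0 : -(A.w : ℤ) < Y) (y1 : Y ≤ 0) (z0 : -(A.w : ℤ) < Y') (z1 : Y' ≤ 0)
    (c0 : A.D + 2 ≤ c) (c1 : c < A.D + A.q * A.w) (hb : β + A.q * A.h < A.D)
    (hχ : χ Y ≠ χ Y') : False := by
  obtain ⟨w2, wh, wp, hp, pq, q6, p5, ws, sh, t0, tp⟩ := h.wr.sz
  obtain ⟨r, r1, r2⟩ := A.lev_ex β c
  have hb0 := h.b0
  have hb1 := h.b1
  have hble := h.ble
  have hWW := B1_W A
  have hDW := A.D_W'
  have hr1 : -(A.p : ℤ) < r := by
    apply qlt (A := A)
    have := A.NNqp
    rw [mul_neg]
    omega
  have hr2 : r ≤ -(A.w : ℤ) := by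
    apply qle (A := A)
    rw [mul_neg]
    omega
  have key : ∀ Y : ℤ, -(A.w : ℤ) < Y → Y ≤ 0 →
      (InA A.p Y (0 - A.w) A.w ↔ ¬ InA A.p r (0 - A.w) A.w) := by
    intro Y Y0 Y1
    rw [InA_iff (by omega) (by omega) (by omega), InA_iff (by omega) (by omega) (by omega)]
    constructor
    · intro _ hh; omega
    · intro _; left; omega
  by_cases hc : χ r ≠ χ Y
  · exact h.wr.OUT2 hW h.hb (by omega) c1 hb0 hb y0 y1 r1 r2 hc (key Y y0 y1)
  · rw [not_not] at hc
    refine h.wr.OUT2 (Y := Y') hW h.hb (by omega) c1 hb0 hb z0 z1 r1 r2 ?_ (key Y' z0 z1)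
    rw [hc]; exact hχ

/-- `q w < D - y` for the lift `y` of row `k` -/
theorem B2_qw (h : Bt A T β) {k y : ℤ} (k0 : 0 < k) (k1 : k < A.w) (hy : A.Pt y k)
    (y1 : y ≤ A.D - A.W1) : A.q * A.w < A.D - y := by
  obtain ⟨w2, wh, wp, hp, pq, q6, p5, ws, sh, t0, tp⟩ := h.wr.sz
  by_contra hc
  have hWW := B1_W A
  have hsg : A.W1 = A.q * A.w - 1 := by omega
  have hne : A.D - y ≠ A.q * A.w := by
    intro he
    have h1 := dvd_sub A.p_D hy.dvd
    have h2 := dvd_sub h1 A.p_W1
    have h3 : A.D - y - A.W1 = 1 := by omega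
    rw [h3] at h2
    have := Int.le_of_dvd (by omega) h2
    omega
  have e1 := ql1 (A := A) (a := 0) (b := k) (by omega)
  have e2 := ql1 (A := A) (a := k) (b := A.h) (by omega)
  have e3 := ql1 (A := A) (a := A.w) (b := A.h) (by omega)
  have e4 := ql1 (A := A) (a := k) (b := A.w) (by omega)
  rw [mul_zero] at e1
  have := h.wr.nov1 hy (ndp (by omega) (by omega) (by omega)) (by omega) (by omega) (by omega)
    (by omega)
  exact ndp (A := A) (s := k - T.sig) (by omega) (by omega) (by omega) this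

/-- the left wall of row `-k` (lift `c'`) and an event of the levels `r`: `χ r = 0` and a level
`Y ∈ {-k, -k+1}` with `χ Y ≠ 0`; `i` is a row which is not `-k`, `-k + sig` -/
theorem B2_wall (h : Bt A T β) {k c i r : ℤ} (k0 : 0 < k) (k1 : k < A.w) (hc : A.Pt c (-k))
    (hi : ¬ (A.p : ℤ) ∣ i - (-k)) (hi' : ¬ (A.p : ℤ) ∣ i - (-k + T.sig))
    (r0 : (A.h : ℤ) - k < r) (r1 : r ≤ A.p - A.h - k) :
    ∃ χ : ℤ → ℤ, A.Wal c χ i ∧ ∃ Y, (Y = -k ∨ Y = -k + 1) ∧ χ r ≠ χ Y := by
  obtain ⟨w2, wh, wp, hp, pq, q6, p5, ws, sh, t0, tp⟩ := h.wr.sz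
  have hx0 := h.wr.x0
  have hsig : T.sig = A.w - T.x := rfl
  have hk := ndp (A := A) (s := -k) (by omega) (by omega) (by omega)
  have L0 : A.aL (-k) r = 0 := by
    unfold aL
    rw [if_neg]
    rw [InA_iff (by omega) (by omega) (by omega)]
    omega
  have R0 : A.aR (-k + T.sig) r = 0 := by
    unfold aR
    rw [if_neg]
    rw [InA_iff (by omega) (by omega) (by omega)]
    omega
  rcases lt_trichotomy (A.ix (-k)) T.t with hlt | heq | hgt
  · refine ⟨A.aL (-k), h.wr.wFL hc hk hlt hi, -k, Or.inl rfl, ?_⟩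
    have : A.aL (-k) (-k) = 1 := by
      unfold aL
      rw [if_pos]
      rw [InA_iff (by omega) (by omega) (by omega)]
      omega
    rw [this, L0]
    norm_num
  · exfalso
    obtain ⟨-, e⟩ := h.wr.kt (n := 1) (by omega) (by omega)
    rw [one_mul, one_mul] at e
    have := ix_inj (A := A) (k := -k) (j := -T.sig) (by omega)
    exact ndp (A := A) (s := -k - -T.sig) (by omega) (by omega) (by omega) this
  · refine ⟨_, h.wr.wM hc hgt hi hi', -k + 1, Or.inr rfl, ?_⟩
    have L1 : A.aL (-k) (-k + 1) = 0 := by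
      unfold aL
      rw [if_neg]
      rw [InA_iff (by omega) (by omega) (by omega)]
      omega
    have R1 : A.aR (-k + T.sig) (-k + 1) = 1 := by
      unfold aR
      rw [if_pos]
      rw [InA_iff (by omega) (by omega) (by omega)]
      omega
    simp only [L0, R0, L1, R1]
    norm_num

/-- rows `h + k`, `k ∈ [1,w)` -/
theorem B2 (h : Bt A T β) {k : ℤ} (k0 : 0 < k) (k1 : k < A.w) :
    ∃ x, A.Pt x (A.h + k) ∧ -(A.q * k) < x ∧ x ≤ A.D - A.W1 := by
  obtain ⟨w2, wh, wp, hp, pq, q6, p5, ws, sh, t0, tp⟩ := h.wr.sz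
  have hpk := h.wr.pk
  have hWW := B1_W A
  have hb0 := h.b0
  have hb1 := h.b1
  have hble := h.ble
  have hDW := A.D_W'
  have hDH := A.D_H'
  have hD2 := A.D2
  obtain ⟨x, hx, x0, x1⟩ := Pt.ex A (A.h + k) (-(A.q * (A.w : ℤ)))
  have hkp : ¬ (A.p : ℤ) ∣ A.h + k := ndp (by omega) (by omega) (by omega)
  -- levels
  have hR0 : A.aR (A.h + k) (k - A.w) = 0 := by
    unfold aR
    rw [if_neg]
    rw [InA_iff (by omega) (by omega) (by omega)]
    omega
  have hR1 : A.aR (A.h + k) (k - A.w + 1) = 1 := by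
    unfold aR
    rw [if_pos]
    rw [InA_iff (by omega) (by omega) (by omega)]
    omega
  have hL0 : A.aL (A.h + k - T.sig) (k - A.w) = 1 := by
    unfold aL
    rw [if_pos]
    rw [InA_iff (by omega) (by omega) (by omega)]
    omega
  have hL1 : A.aL (A.h + k - T.sig) (k - A.w + 1) = 1 := by
    unfold aL
    rw [if_pos]
    rw [InA_iff (by omega) (by omega) (by omega)]
    omega
  -- the right wall
  have wall : ∃ c, ∃ χ : ℤ → ℤ, A.Wal c χ A.h ∧ χ (k - A.w) ≠ χ (k - A.w + 1) ∧
      (c = x + A.q * A.w ∨ (c = x + A.W1 ∧ A.Pt c (A.h + k - T.sig))) := by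
    rcases lt_trichotomy (A.ix (A.h + k) + T.t) A.p with hlt | heq | hgt
    · obtain ⟨hm, hi⟩ := h.wr.ixM' hx hlt
      have hi0 := ix_pos (A := A) hkp
      have hw := h.wr.wM (i := A.h) hm (by omega)
        (ndp (by omega) (by omega) (by omega)) (ndp (by omega) (by omega) (by omega))
      rw [sub_add_cancel] at hw
      refine ⟨_, _, hw, ?_, Or.inr ⟨rfl, hm⟩⟩
      simp only [hL0, hL1, hR0, hR1]
      norm_num
    · exfalso
      obtain ⟨-, hi⟩ := h.wr.pkt (n := 1) (by omega) (by omega)
      rw [one_mul, one_mul] at hi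
      have := ix_inj (A := A) (k := A.h + k) (j := T.sig) (by omega)
      exact ndp (A := A) (s := A.h + k - T.sig) (by omega) (by omega) (by omega) this
    · have hw := h.wr.wFR (c := x + A.q * A.w) (i := A.h)
        (by rwa [add_sub_cancel_right]) hkp hgt (ndp (by omega) (by omega) (by omega))
      exact ⟨_, _, hw, by rw [hR0, hR1]; norm_num, Or.inl rfl⟩
  obtain ⟨c, χ, hW, hχ, hc⟩ := wall
  have hnot : ¬ (A.D + A.q * A.w ≤ x + A.q * A.w ∧ x + A.q * A.w < A.NN) := by
    rintro ⟨c0, c1⟩
    refine h.B2_two hW (Y := k - A.w) (Y' := k - A.w + 1) (by omega) (by omega) (by omega)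
      (by omega) ?_ ?_ hχ
    · rcases hc with hc | ⟨hc, hm⟩
      · omega
      · have hxD : A.D + A.p ≤ x := by
          by_contra hlt'
          have := dvd_gap hx.dvd A.p_D (by omega)
          have he : x = A.D := by omega
          exact hx.neD (by rw [he, sub_self]; exact dvd_zero _)
        omega
    · rcases hc with hc | ⟨hc, hm⟩
      · omega
      · have hN := hm.ne0 (ndp (by omega) (by omega) (by omega))
        have hle := dvd_gap hm.dvd A.p_NN (by omega)
        have hne : c ≠ A.NN := fun he => hN (by rw [he])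
        omega
  have hxD : x < A.D := by
    by_contra hge
    exact hnot ⟨by omega, by omega⟩
  have e1 := ql1 (A := A) (a := 0) (b := k) (by omega)
  have e2 := ql1 (A := A) (a := k) (b := A.w) (by omega)
  have e3 := ql1 (A := A) (a := A.w) (b := A.h) (by omega)
  have eh : (A.q : ℤ) * (A.h + k) = A.q * A.h + A.q * k := by ring
  rw [mul_zero] at e1
  have hnk : ¬ (A.p : ℤ) ∣ A.q * k := fun hd =>
    ndp (A := A) (s := k) (by omega) (by omega) (by omega) (B2_pq A hd)
  have hx0 : -(A.q * k) < x := by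
    by_contra hle
    have hne1 : x ≠ -(A.q * (A.w : ℤ)) := by
      intro he
      have h1 := dvd_add hx.dvd A.p_W1
      have h2 : x + A.W1 = 1 ∨ x + A.W1 = -1 := by omega
      rcases h2 with h2 | h2
      · rw [h2] at h1
        have := Int.le_of_dvd (by omega) h1
        omega
      · rw [h2] at h1
        have := Int.le_of_dvd (by omega) ((dvd_neg).2 h1)
        omega
    have hne2 : x ≠ -(A.q * k) := by
      intro he
      have := hx.dvd
      rw [he, dvd_neg] at this
      exact hnk this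
    have hd := h.wr.nov0 hx hkp (by omega) (by omega) (by omega) (by omega)
    have h1 := h.wr.Pt1.congr (y := A.W1) (s' := A.h + k) (by simp) (by
      rw [show -T.sig - (A.h + k) = -(A.h + k + T.sig) by ring]
      exact (dvd_neg).2 hd)
    have := hx.eq h1 (by omega) (by omega)
    omega
  refine ⟨x, hx, hx0, ?_⟩
  by_contra hcon
  push Not at hcon
  -- `x = D - z`, `0 < z < q k`
  have hz : A.D - A.q * k < x := by
    by_contra hle
    have hne1 : x ≠ A.D - A.q * k := by
      intro he
      have := dvd_sub A.p_D hx.dvd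
      rw [he] at this
      apply hnk
      rwa [sub_sub_cancel] at this
    have hgt : A.D - A.W1 + A.p ≤ x := by
      by_contra hlt
      have := dvd_gap hx.dvd (dvd_sub A.p_D A.p_W1) (by omega)
      omega
    have hd := h.wr.nov1 hx hkp (by omega) (by omega) (by omega) (by omega)
    exact ndp (A := A) (s := A.h + k - T.sig) (by omega) (by omega) (by omega) hd
  have hzp : x + A.p ≤ A.D := by
    by_contra hlt
    have := dvd_gap A.p_D hx.dvd (by omega)
    omega
  rcases lt_trichotomy (β + A.q * A.h) A.D with hlt | heq | hgt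
  · refine h.B2_two' hW (Y := k - A.w) (Y' := k - A.w + 1) (by omega) (by omega) (by omega)
      (by omega) ?_ ?_ hlt hχ
    · rcases hc with hc | ⟨hc, hm⟩ <;> omega
    · rcases hc with hc | ⟨hc, hm⟩ <;> omega
  · have hd := dvd_sub A.p_D h.pb.dvd
    rw [← heq, add_sub_cancel_left] at hd
    exact ndp (A := A) (s := A.h) (by omega) (by omega) (by omega) (B2_pq A hd)
  · obtain ⟨y, hy, y0, y1⟩ := h.B1 k0 k1
    -- row k is (h + k) - h
    have hyx : y = x - β := by
      rcases le_or_gt (A.ix A.h) (A.ix (A.h + k)) with hle | hlt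
      · have hs := hx.sub h.pb hle
        rw [add_sub_cancel_left] at hs
        exact hy.eq hs (by omega) (by omega)
      · exfalso
        have hs := hx.sub' h.pb hlt
        rw [add_sub_cancel_left] at hs
        have hs' := hs.congr (y := x - β + A.D - A.NN) (s' := k) (by simp) (by simp)
        have he := hy.eq hs' (by omega) (by omega)
        have hd := h.wr.nov0 hy (ndp (by omega) (by omega) (by omega)) (by omega) (by omega)
          (by omega) (by omega)
        exact ndp (A := A) (s := k + T.sig) (by omega) (by omega) (by omega) hd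
    have hqw := h.B2_qw k0 k1 hy y1
    have hc' := hy.neg (ndp (by omega) (by omega) (by omega))
    obtain ⟨r, r1, r2⟩ := A.lev_ex (β + A.q * A.h) (A.D - y)
    have hr1 : (A.h : ℤ) - k < r := by
      apply qlt (A := A)
      rw [mul_sub]
      omega
    have hr2 : r ≤ A.h := by
      apply qle (A := A)
      omega
    obtain ⟨χ', hW', Y, hY, hχ'⟩ := h.B2_wall (i := A.h) (r := r) k0 k1 hc'
      (ndp (by omega) (by omega) (by omega)) (ndp (by omega) (by omega) (by omega))
      hr1 (by omega)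
    refine h.wr.INN (Y := Y) hW' (HB_T h.pb (ndp (by omega) (by omega) (by omega))) hqw (by omega)
      (by omega) (by omega) (by omega) (by omega) r1 r2 hχ' ?_
    rw [InA_iff (by omega) (by omega) (by omega), InA_iff (by omega) (by omega) (by omega)]
    constructor
    · intro hh; exfalso; omega
    · intro hh; exfalso; apply hh; left; omega

end Bt

end TAp

end Pool.Agent.H78.Tie
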