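import Pool.Agent.H78.Tie.W.B1
import Pool.Agent.H78.Tie.W.Pack

/-! # B3

Rows h - k, k in [1,w).  Let x be a lift in [0, N).
1. The left wall c = x of row h - k (free: chi = aL (h-k), arc (-k, h-k]; merged with row h - k + sig: chi = aL (h-k) - aR (h-k+sig), arc of the second (-k+xi, h-k+xi], xi = -x(T) >= 1;
 ix (h-k) = t impossible: h - k = -sig mod p no) is not in [D + q w, N): Y = -k: chi = 0; Y = -k+1 (in (-w,0]): aL = 1, aR = 0: chi = 1.  Both Y in the arc (-w,0] of beta,
 r not: OUT (HB beta h 0; the partner row h - k + sig is not h mod p as k < sig).  So x in [0, D + q w); x <> 0, D.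
2. nov0: x < q w: x + q (h-k) < q h iff x < q k: so x > q k (p | h - k + sig impossible).   If x < D: nov1: x - D > - q w impossible unless p | h - k - sig, then x = D - W1 (pkt 1).  So x <= D - W1: done.
   If x > D: x = D + z, 0 < z < q w; nov1: z > q k (otherwise p | h-k-sig: h-k = sig, x = D - W1 mod N no).
3. Second case (z in (q k, q w)).  If beta + q h < D: OUT2 at c = x: False.  Otherwise D < beta + q h.
4. Row k lift y in (0, D - W1] (B1), row -k lift D - y (neg).  Row -k = (h-k) - h: lift x - beta (if ix h <= ix (h-k)) or x - beta + D.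
 Second alternative: D - y = D + z - beta + D mod N: y = beta - z - D mod N; beta - z - D is in (-N, 0) so y = N + beta - z - D; y <= D - W1 gives beta <= 2D - N - W1 + z < q (D2, z < q w), and D - y = z + (2D - N) - beta is in [W1, W1 + q):
  row -k with lift D - y and row -sig with lift W1 (Pt1): |difference| < q < W1, heights: (D - y) - q k - (W1 - q sig) = (D-y-W1) + q (sig - k) in (0, q h) as sig <= h, k >= 1: dj: p | sig - k: no.
 So D - y = x - beta = D + z - beta =: c'.
5. c' in (q w, D) (as in B2 step 6).  I := top of row -h: row -h has lift D - beta (neg), HB_T: b = D - beta - q h < 0; use b + N in [D, N) (HB.cong), label -h, arc (-h-w, -h].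
 r for (b + N) - c': (b - c') = - q h - z: level r0 in (-h-w, -h-k] (q k < z < q w), r = r0 + p.
 chi of the left wall of row -k (free: aL (-k); merged: aL (-k) - aR (-k+sig)): chi r = 0 (arc (-k-h,-k], (-k+xi-h,-k+xi]); Y = -k (free): 1; Y = -k+1 (merged): -1.  Arc of b: contains r, not Y.  INN: False.
 (rows: -h not= -k, -k+sig mod p.)
-/

namespace Pool.Agent.H78.Tie

open Finset
open Pool.Agent.H98.Flat
open Pool.Agent.H67.Flat

set_option linter.dupNamespace false
set_option linter.unusedVariables false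

namespace TAp

variable {A : TAp}

namespace Bt

variable {T : A.Tie} {β : ℤ}

theorem B3_pq (A : TAp) {k : ℤ} (h : (A.p : ℤ) ∣ A.q * k) : (A.p : ℤ) ∣ k :=
  (A.hqa.of_isCoprime_of_dvd_right A.hpa).symm.dvd_of_dvd_mul_left h

/-- two levels in `(-w, 0]` are not separated by a wall in `[D + q w, N)` -/
theorem B3_two (h : Bt A T β) {c : ℤ} {χ : ℤ → ℤ} (hW : A.Wal c χ A.h) {Y Y' : ℤ}
    (y0 : -(A.w : ℤ) < Y) (y1 : Y ≤ 0) (z0 : -(A.w : ℤ) < Y') (z1 : Y' ≤ 0)
    (c0 : A.D + A.q * A.w ≤ c) (c1 : c < A.NN) (hχ : χ Y ≠ χ Y') : False := by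
  obtain ⟨w2, wh, wp, hp, pq, q6, p5, ws, sh, t0, tp⟩ := h.wr.sz
  obtain ⟨r, r1, r2⟩ := A.lev_ex β c
  have hb0 := h.b0
  have hb1 := h.b1
  have hr1 : -(A.p : ℤ) < r := by
    apply qlt (A := A)
    have := A.NNqp
    rw [mul_neg]
    omega
  have hr2 : r ≤ -(A.w : ℤ) := by
    apply qle (A := A)
    rw [mul_neg]
    omega
  have key : ∀ Y : ℤ, -(A.w : ℤ) < Y → Y ≤ 0 →
      (InA A.p Y (0 - A.w) A.w ↔ ¬ InA A.p r (0 - A.w) A.w) := by
    intro Y Y0 Y1
    rw [InA_iff (by omega) (by omega) (by omega), InA_iff (by omega) (by omega) (by omega)]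
    constructor
    · intro _ hh; omega
    · intro _; left; omega
  by_cases hc : χ r ≠ χ Y
  · exact h.wr.OUT hW h.hb c0 c1 hb0 hb1 y0 y1 r1 r2 hc (key Y y0 y1)
  · rw [not_not] at hc
    refine h.wr.OUT (Y := Y') hW h.hb c0 c1 hb0 hb1 z0 z1 r1 r2 ?_ (key Y' z0 z1)
    rw [hc]; exact hχ

/-- same in `(D, D + q w)` -/
theorem B3_two' (h : Bt A T β) {c : ℤ} {χ : ℤ → ℤ} (hW : A.Wal c χ A.h) {Y Y' : ℤ}
    (y0 : -(A.w : ℤ) < Y) (y1 : Y ≤ 0) (z0 : -(A.w : ℤ) < Y') (z1 : Y' ≤ 0)
    (c0 : A.D + 2 ≤ c) (c1 : c < A.D + A.q * A.w) (hb : β + A.q * A.h < A.D)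
    (hχ : χ Y ≠ χ Y') : False := by
  obtain ⟨w2, wh, wp, hp, pq, q6, p5, ws, sh, t0, tp⟩ := h.wr.sz
  obtain ⟨r, r1, r2⟩ := A.lev_ex β c
  have hb0 := h.b0
  have hb1 := h.b1
  have hble := h.ble
  have hWW := B1_W A
  have hDW := A.D_W'
  have hr1 : -(A.p : ℤ) < r := by
    apply qlt (A := A)
    have := A.NNqp
    rw [mul_neg]
    omega
  have hr2 : r ≤ -(A.w : ℤ) := by
    apply qle (A := A)
    rw [mul_neg]
    omega
  have key : ∀ Y : ℤ, -(A.w : ℤ) < Y → Y ≤ 0 →
      (InA A.p Y (0 - A.w) A.w ↔ ¬ InA A.p r (0 - A.w) A.w) := by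
    intro Y Y0 Y1
    rw [InA_iff (by omega) (by omega) (by omega), InA_iff (by omega) (by omega) (by omega)]
    constructor
    · intro _ hh; omega
    · intro _; left; omega
  by_cases hc : χ r ≠ χ Y
  · exact h.wr.OUT2 hW h.hb (by omega) c1 hb0 hb y0 y1 r1 r2 hc (key Y y0 y1)
  · rw [not_not] at hc
    refine h.wr.OUT2 (Y := Y') hW h.hb (by omega) c1 hb0 hb z0 z1 r1 r2 ?_ (key Y' z0 z1)
    rw [hc]; exact hχ

/-- `q w < D - y` for the lift `y` of row `k` -/
theorem B3_qw (h : Bt A T β) {k y : ℤ} (k0 : 0 < k) (k1 : k < A.w) (hy : A.Pt y k)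
    (y1 : y ≤ A.D - A.W1) : A.q * A.w < A.D - y := by
  obtain ⟨w2, wh, wp, hp, pq, q6, p5, ws, sh, t0, tp⟩ := h.wr.sz
  by_contra hc
  have hWW := B1_W A
  have hsg : A.W1 = A.q * A.w - 1 := by omega
  have hne : A.D - y ≠ A.q * A.w := by
    intro he
    have h1 := dvd_sub A.p_D hy.dvd
    have h2 := dvd_sub h1 A.p_W1
    have h3 : A.D - y - A.W1 = 1 := by omega
    rw [h3] at h2
    have := Int.le_of_dvd (by omega) h2
    omega
  have e1 := ql1 (A := A) (a := 0) (b := k) (by omega)
  have e2 := ql1 (A := A) (a := k) (b := A.h) (by omega)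
  have e3 := ql1 (A := A) (a := A.w) (b := A.h) (by omega)
  have e4 := ql1 (A := A) (a := k) (b := A.w) (by omega)
  rw [mul_zero] at e1
  have := h.wr.nov1 hy (ndp (by omega) (by omega) (by omega)) (by omega) (by omega) (by omega)
    (by omega)
  exact ndp (A := A) (s := k - T.sig) (by omega) (by omega) (by omega) this

/-- the left wall of row `-k` (lift `c'`) and an event of the levels `r`: `χ r = 0` and a level
`Y ∈ {-k, -k+1}` with `χ Y ≠ 0`; `i` is a row which is not `-k`, `-k + sig` -/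
theorem B3_wall (h : Bt A T β) {k c i r : ℤ} (k0 : 0 < k) (k1 : k < A.w) (hc : A.Pt c (-k))
    (hi : ¬ (A.p : ℤ) ∣ i - (-k)) (hi' : ¬ (A.p : ℤ) ∣ i - (-k + T.sig))
    (r0 : (A.h : ℤ) - k < r) (r1 : r ≤ A.p - A.h - k) :
    ∃ χ : ℤ → ℤ, A.Wal c χ i ∧ ∃ Y, (Y = -k ∨ Y = -k + 1) ∧ χ r ≠ χ Y := by
  obtain ⟨w2, wh, wp, hp, pq, q6, p5, ws, sh, t0, tp⟩ := h.wr.sz
  have hx0 := h.wr.x0
  have hsig : T.sig = A.w - T.x := rfl
  have hk := ndp (A := A) (s := -k) (by omega) (by omega) (by omega)
  have L0 : A.aL (-k) r = 0 := by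
    unfold aL
    rw [if_neg]
    rw [InA_iff (by omega) (by omega) (by omega)]
    omega
  have R0 : A.aR (-k + T.sig) r = 0 := by
    unfold aR
    rw [if_neg]
    rw [InA_iff (by omega) (by omega) (by omega)]
    omega
  rcases lt_trichotomy (A.ix (-k)) T.t with hlt | heq | hgt
  · refine ⟨A.aL (-k), h.wr.wFL hc hk hlt hi, -k, Or.inl rfl, ?_⟩
    have : A.aL (-k) (-k) = 1 := by
      unfold aL
      rw [if_pos]
      rw [InA_iff (by omega) (by omega) (by omega)]
      omega
    rw [this, L0]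
    norm_num
  · exfalso
    obtain ⟨-, e⟩ := h.wr.kt (n := 1) (by omega) (by omega)
    rw [one_mul, one_mul] at e
    have := ix_inj (A := A) (k := -k) (j := -T.sig) (by omega)
    exact ndp (A := A) (s := -k - -T.sig) (by omega) (by omega) (by omega) this
  · refine ⟨_, h.wr.wM hc hgt hi hi', -k + 1, Or.inr rfl, ?_⟩
    have L1 : A.aL (-k) (-k + 1) = 0 := by
      unfold aL
      rw [if_neg]
      rw [InA_iff (by omega) (by omega) (by omega)]
      omega
    have R1 : A.aR (-k + T.sig) (-k + 1) = 1 := by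
      unfold aR
      rw [if_pos]
      rw [InA_iff (by omega) (by omega) (by omega)]
      omega
    simp only [L0, R0, L1, R1]
    norm_num

/-- rows `h - k`, `k ∈ [1,w)` -/
theorem B3 (h : Bt A T β) {k : ℤ} (k0 : 0 < k) (k1 : k < A.w) :
    ∃ x, A.Pt x (A.h - k) ∧ A.q * k < x ∧ x ≤ A.D - A.W1 := by
  obtain ⟨w2, wh, wp, hp, pq, q6, p5, ws, sh, t0, tp⟩ := h.wr.sz
  have hpk := h.wr.pk
  have hWW := B1_W A
  have hb0 := h.b0
  have hb1 := h.b1
  have hble := h.ble
  have hDW := A.D_W'
  have hDH := A.D_H'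
  have hD2 := A.D2
  have hxi := h.wr.x0
  have hsig : T.sig = A.w - T.x := rfl
  obtain ⟨x, hx, x0, x1⟩ := Pt.ex A (A.h - k) 0
  rw [zero_add] at x1
  have hkp : ¬ (A.p : ℤ) ∣ A.h - k := ndp (by omega) (by omega) (by omega)
  -- levels
  have hL0 : A.aL (A.h - k) (-k) = 0 := by
    unfold aL
    rw [if_neg]
    rw [InA_iff (by omega) (by omega) (by omega)]
    omega
  have hL1 : A.aL (A.h - k) (-k + 1) = 1 := by
    unfold aL
    rw [if_pos]
    rw [InA_iff (by omega) (by omega) (by omega)]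
    omega
  have hR0 : A.aR (A.h - k + T.sig) (-k) = 0 := by
    unfold aR
    rw [if_neg]
    rw [InA_iff (by omega) (by omega) (by omega)]
    omega
  have hR1 : A.aR (A.h - k + T.sig) (-k + 1) = 0 := by
    unfold aR
    rw [if_neg]
    rw [InA_iff (by omega) (by omega) (by omega)]
    omega
  -- the left wall
  have wall : ∃ χ : ℤ → ℤ, A.Wal x χ A.h ∧ χ (-k) ≠ χ (-k + 1) := by
    rcases lt_trichotomy (A.ix (A.h - k)) T.t with hlt | heq | hgt
    · refine ⟨_, h.wr.wFL (i := A.h) hx hkp hlt (ndp (by omega) (by omega) (by omega)), ?_⟩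
      rw [hL0, hL1]
      norm_num
    · exfalso
      obtain ⟨-, hi⟩ := h.wr.kt (n := 1) (by omega) (by omega)
      rw [one_mul, one_mul] at hi
      have := ix_inj (A := A) (k := A.h - k) (j := -T.sig) (by omega)
      exact ndp (A := A) (s := A.h - k - -T.sig) (by omega) (by omega) (by omega) this
    · refine ⟨_, h.wr.wM (i := A.h) hx hgt (ndp (by omega) (by omega) (by omega))
        (ndp (by omega) (by omega) (by omega)), ?_⟩
      simp only [hL0, hL1, hR0, hR1]
      norm_num
  obtain ⟨χ, hW, hχ⟩ := wall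
  have hxDW : x < A.D + A.q * A.w := by
    by_contra hge
    exact h.B3_two hW (Y := -k) (Y' := -k + 1) (by omega) (by omega) (by omega)
      (by omega) (by omega) (by omega) hχ
  have e1 := ql1 (A := A) (a := 0) (b := k) (by omega)
  have e2 := ql1 (A := A) (a := k) (b := A.w) (by omega)
  have e3 := ql1 (A := A) (a := A.w) (b := A.h) (by omega)
  have eh : (A.q : ℤ) * (A.h - k) = A.q * A.h - A.q * k := by ring
  rw [mul_zero] at e1
  have hnk : ¬ (A.p : ℤ) ∣ A.q * k := fun hd =>
    ndp (A := A) (s := k) (by omega) (by omega) (by omega) (B3_pq A hd)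
  have hx0 : A.q * k < x := by
    by_contra hle
    have hne0 : x ≠ 0 := fun he => hx.ne0 hkp (by rw [he]; exact dvd_zero _)
    have hne : x ≠ A.q * k := by
      intro he
      have := hx.dvd
      rw [he] at this
      exact hnk this
    have hd := h.wr.nov0 hx hkp (by omega) (by omega) (by omega) (by omega)
    exact ndp (A := A) (s := A.h - k + T.sig) (by omega) (by omega) (by omega) hd
  refine ⟨x, hx, hx0, ?_⟩
  by_contra hcon
  push Not at hcon
  have hxD : A.D ≤ x := by
    by_contra hlt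
    have := h.wr.bmin (s := A.h - k) (by omega) (by omega) hx (by omega) (by omega)
    omega
  have hneD : x ≠ A.D := fun he => hx.neD (by rw [he, sub_self]; exact dvd_zero _)
  have hxDp : A.D + A.p ≤ x := by
    by_contra hlt
    have := dvd_gap hx.dvd A.p_D (by omega)
    omega
  -- `x = D + z`, `q k < z < q w`
  have hz : A.D + A.q * k < x := by
    by_contra hle
    have hne : x ≠ A.D + A.q * k := by
      intro he
      have := dvd_sub hx.dvd A.p_D
      rw [he, add_sub_cancel_left] at this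
      exact hnk this
    have hd := h.wr.nov1 hx hkp (by omega) (by omega) (by omega) (by omega)
    have hs : (A.h : ℤ) - k = T.sig := by
      apply eq_of_dvd hd <;> omega
    obtain ⟨hp1, -⟩ := h.wr.pkt (n := 1) (by omega) (by omega)
    rw [one_mul, one_mul, ← hs] at hp1
    have := hx.eq hp1 (by omega) (by omega)
    omega
  rcases lt_trichotomy (β + A.q * A.h) A.D with hlt | heq | hgt
  · exact h.B3_two' hW (Y := -k) (Y' := -k + 1) (by omega) (by omega) (by omega)
      (by omega) (by omega) (by omega) hlt hχ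
  · have hd := dvd_sub A.p_D h.pb.dvd
    rw [← heq, add_sub_cancel_left] at hd
    exact ndp (A := A) (s := A.h) (by omega) (by omega) (by omega) (B3_pq A hd)
  · obtain ⟨y, hy, y0, y1⟩ := h.B1 k0 k1
    have hc' := hy.neg (ndp (by omega) (by omega) (by omega))
    -- row -k is (h - k) - h
    have hyx : A.D - y = x - β := by
      rcases le_or_gt (A.ix A.h) (A.ix (A.h - k)) with hle | hlt
      · have hs := hx.sub h.pb hle
        rw [show (A.h : ℤ) - k - A.h = -k by ring] at hs
        exact hc'.eq hs (by omega) (by omega)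
      · exfalso
        have hs := hx.sub' h.pb hlt
        rw [show (A.h : ℤ) - k - A.h = -k by ring] at hs
        have hs' := hs.congr (y := x - β + A.D - A.NN) (s' := -k) (by simp) (by simp)
        have he := hc'.eq hs' (by omega) (by omega)
        have e4 := ql1 (A := A) (a := k) (b := T.sig) (by omega)
        have e5 := ql (A := A) (a := T.sig) (b := A.h) (by omega)
        have ek : (A.q : ℤ) * -k = -(A.q * k) := by ring
        have es : (A.q : ℤ) * -T.sig = -(A.q * T.sig) := by ring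
        have hd := h.wr.dj hc' h.wr.Pt1 (by omega) (by omega) (by omega) (by omega)
        exact ndp (A := A) (s := -k - -T.sig) (by omega) (by omega) (by omega) hd
    have hqw := h.B3_qw k0 k1 hy y1
    obtain ⟨r, r1, r2⟩ := A.lev_ex (A.D - β - A.q * A.h + A.NN) (A.D - y)
    have hN := A.NNqp
    have hr1 : (A.p : ℤ) - A.h - A.w < r := by
      apply qlt (A := A)
      rw [mul_sub, mul_sub]
      omega
    have hr2 : r ≤ A.p - A.h - k := by
      apply qle (A := A)
      rw [mul_sub, mul_sub]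
      omega
    obtain ⟨χ', hW', Y, hY, hχ'⟩ := h.B3_wall (i := -A.h) (r := r) k0 k1 hc'
      (ndp (by omega) (by omega) (by omega)) (ndp (by omega) (by omega) (by omega))
      (by omega) (by omega)
    have hb' := HB_T (h.pb.neg (ndp (by omega) (by omega) (by omega)))
      (ndp (A := A) (s := -A.h) (by omega) (by omega) (by omega))
    have hb'' := hb'.cong (b' := A.D - β - A.q * A.h + A.NN) (by
      rw [show A.D - β + A.q * -A.h - (A.D - β - A.q * A.h + A.NN) = -A.NN by ring]
      simp)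
    refine h.wr.INN (Y := Y) hW' hb'' hqw (by omega)
      (by omega) (by omega) (by omega) (by omega) r1 r2 hχ' ?_
    rw [InA_congr (x := r) (x' := r - A.p) (lo' := -A.h - A.w) (len := A.w) (by
      rw [show r - (-(A.h : ℤ) - A.w) - (r - A.p - (-(A.h : ℤ) - A.w)) = A.p by ring])]
    rw [InA_iff (by omega) (by omega) (by omega), InA_iff (by omega) (by omega) (by omega)]
    constructor
    · intro hh; exfalso; omega
    · intro hh; exfalso; apply hh; left; omega

end Bt

end TAp

end Pool.Agent.H78.Tie
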