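import Pool.Agent.H78.Tie.W.B2
import Pool.Agent.H78.Tie.W.B3

/-! # Cov

mout: row s in [1,h-1] with lift x in (D, D + q w): nov1 (x - D in (0,qw), x - D + q s > 0): if x - D + q s < q h then p | s - sig, s = sig, x = D - W1 mod N: no.
 So q (h - s) <= x - D < q w: s = h - k with 1 <= k < w: B3 gives a lift <= D - W1, > 0: contradiction (Pt.eq).
cov: event (b, i, k), lift x_i := b - q k in (0, D], on the level Y0 in {0,-1}: HB b i k (HB_B for i = h: b = beta' + q h - q h; HB_T for i = 1, -1).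
 Claim for rows s in [Y0+w, Y0+h) (both walls active on Y0) with lift x in (D, N): Rw s b.  Strong induction on ix s.
 x >= D + q w by mout (s >= 1: Y0 + w >= 1).  Left wall c = x.
 r: level of b - c (lev_ex).  The arc (k-w, k] does not contain r: lev_arc with x_i: x_i <= D, x_i + q w <= D + q w <= c (c <> x_i + q w by genericity: q not | c - x_i), c < N < x_i + N.  It contains Y0.
 * ix s < t (free, wFL): aL s Y0 = 1 (s - h < Y0 <= s).  OUT: so aL s r = 1: lev_L: Rw s b.
 * ix s = t: s = -sig mod p: no (0 < s < h).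
 * t < ix s (merged, wM): s' := s + sig, lift c - W1, class ix s - t (ixM).  chi = aL s - aR s', aR arc (s'-w-h, s'-w].
   (a) s' >= Y0 + w + h: aR s' Y0 = 0, chi Y0 = 1; OUT: chi r = 1 (otherwise False) so aL s r = 1: lev_L.   [i not= s' mod p: s' in (h, 2h)]
   (b) Y0 + h <= s' < Y0 + w + h: s' = h + k', |k'| < w: by B2 (k' > 0), ble/pb (k' = 0), B3 (k' < 0): s' has a lift <= D - W1, > - q w; but c - W1 is a lift, c - W1 > D - W1, c - W1 < N - W1: contradiction (Pt.eq).
   (c) s' < Y0 + h (then s' in [Y0+w, Y0+h)): aL s Y0 = aR s' Y0 = 1: chi Y0 = 0.  c - W1 > D (>= D as c >= D + q w, multiples of p; <> D by neD): induction: Rw s' b.  OUT: chi r = 0: aL s r = aR s' r = 1 by lev_R: Rw s b by lev_L.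
 In all cases check that i is not s or s' mod p.
-/

namespace Pool.Agent.H78.Tie

open Finset
open Pool.Agent.H98.Flat
open Pool.Agent.H67.Flat

set_option linter.dupNamespace false
set_option linter.unusedVariables false

namespace TAp

variable {A : TAp}

namespace Bt

variable {T : A.Tie} {β : ℤ}

theorem mout (h : Bt A T β) {s x : ℤ} (s0 : 0 < s) (s1 : s < A.h) (hx : A.Pt x s)
    (x0 : A.D < x) (x1 : x < A.NN) : A.D + A.q * A.w ≤ x := by
  by_contra hc
  obtain ⟨z1, z2, z3, z4, z5, z6, z7, z8, z9, z10, z11⟩ := h.wr.sz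
  have hDW := A.D_W'
  obtain ⟨hH, hH'⟩ := A.Col_H
  obtain ⟨hW0, hW0'⟩ := A.Col_W
  have hWb := A.W1_bd
  have hW1 : A.W1 = A.q * A.w + A.sg := rfl
  have hsg := A.hsg
  have hs : ¬ (A.p : ℤ) ∣ s := ndp (by omega) (by omega) (by omega)
  have hqs : (A.q : ℤ) * 0 + A.q ≤ A.q * s := ql1 (by omega)
  rw [mul_zero, zero_add] at hqs
  by_cases hv : x - A.D + A.q * s < A.q * A.h
  · have h1 := h.wr.nov1 hx hs (by omega) (by omega) (by omega) hv
    have h2 : s = T.sig := by
      have := Int.eq_zero_of_abs_lt_dvd h1 (by rw [abs_lt]; constructor <;> omega)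
      omega
    have h3 := (h.wr.pkt (n := 1) one_pos (by omega)).1
    rw [one_mul, one_mul, ← h2] at h3
    have := hx.eq h3 (by omega) (by omega)
    omega
  · have h1 : (A.q : ℤ) * (A.h - s) < A.q * A.w := by rw [mul_sub]; omega
    have h2 := qlt h1
    obtain ⟨x', hx', a1, a2⟩ := h.B3 (k := A.h - s) (by omega) h2
    rw [sub_sub_cancel] at hx'
    have h3 : (A.q : ℤ) * 0 + A.q ≤ A.q * (A.h - s) := ql1 (by omega)
    rw [mul_zero, zero_add] at h3
    have := hx.eq hx' (by omega) (by omega)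
    omega

theorem cov_aL {s y : ℤ} (h : InA A.p y (s - A.h) A.h) : A.aL s y = 1 := by
  unfold aL; rw [if_pos h]
theorem cov_aL' {s y : ℤ} (h : ¬ InA A.p y (s - A.h) A.h) : A.aL s y = 0 := by
  unfold aL; rw [if_neg h]
theorem cov_aR {s y : ℤ} (h : InA A.p y (s - A.w - A.h) A.h) : A.aR s y = 1 := by
  unfold aR; rw [if_pos h]
theorem cov_aR' {s y : ℤ} (h : ¬ InA A.p y (s - A.w - A.h) A.h) : A.aR s y = 0 := by
  unfold aR; rw [if_neg h]

theorem cov_aux (h : Bt A T β) {i k b Y0 : ℤ}
    (hik : (i = A.h ∧ k = 0 ∧ Y0 = 0) ∨ (i = 1 ∧ k = 1 ∧ Y0 = 0) ∨ (i = -1 ∧ k = -1 ∧ Y0 = -1))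
    (hb : A.Pt (b - A.q * k) i) (b0 : 0 < b) (b1 : b < A.D) (c0 : 0 < b - A.q * k)
    (c1 : b - A.q * k ≤ A.D) : ∀ n : ℕ, ∀ s x : ℤ, A.ix s < n → Y0 + A.w ≤ s →
    s < Y0 + A.h → A.Pt x s → A.D < x → x < A.NN → A.Rw s b := by
  obtain ⟨z1, z2, z3, z4, z5, z6, z7, z8, z9, z10, z11⟩ := h.wr.sz
  have hDW := A.D_W'
  obtain ⟨hH, hH'⟩ := A.Col_H
  obtain ⟨hW0, hW0'⟩ := A.Col_W
  have hWb := A.W1_bd
  have hW1 : A.W1 = A.q * A.w + A.sg := rfl
  have hsg := A.hsg
  have hD0 := A.D_pos
  -- the event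
  have hHB : A.HB b i k := by
    rcases hik with ⟨e1, e2, e3⟩ | ⟨e1, e2, e3⟩ | ⟨e1, e2, e3⟩
    · have hi : ¬ (A.p : ℤ) ∣ i := ndp (by omega) (by omega) (by omega)
      have := HB_B hb hi
      rw [e1, e2] at this
      rw [e1, e2]
      simpa using this
    · have hi : ¬ (A.p : ℤ) ∣ i := ndp (by omega) (by omega) (by omega)
      have := HB_T hb hi
      rw [e1, e2] at this
      rw [e1, e2]
      simpa using this
    · have hi : ¬ (A.p : ℤ) ∣ i := ndp (by omega) (by omega) (by omega)
      have := HB_T hb hi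
      rw [e1, e2] at this
      rw [e1, e2]
      simpa using this
  have hYb : -1 ≤ Y0 ∧ Y0 ≤ 0 := by omega
  have hYk : InA A.p Y0 (k - A.w) A.w := by
    rw [InA_iff' (by omega) (by omega) (by omega)]
    omega
  intro n
  induction n with
  | zero =>
    intro s x hn
    have := A.ix_nonneg s
    intro
    exfalso
    simp at hn
    omega
  | succ n ih =>
    intro s x hn s0 s1 hx x0 x1
    have hsp : 0 < s := by omega
    have hsh : s < A.h := by omega
    have hs : ¬ (A.p : ℤ) ∣ s := ndp (by omega) (by omega) (by omega)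
    have hc := h.mout hsp hsh hx x0 x1
    obtain ⟨r, r1, r2⟩ := A.lev_ex b x
    have hi : ¬ (A.p : ℤ) ∣ i - s := ndp (by omega) (by omega) (by omega)
    have hi2 : ¬ (A.p : ℤ) ∣ s - i := ndp (by omega) (by omega) (by omega)
    have hr : ¬ InA A.p r (k - A.w) A.w := by
      rw [lev_arc hHB hb (by omega) (by omega) (hx.neq hb hi2) r1 r2]
      omega
    have out : ∀ χ : ℤ → ℤ, A.Wal x χ i → χ r = χ Y0 := by
      intro χ hW
      by_contra hne
      exact h.wr.OUT hW hHB hc x1 b0 b1 (by omega) (by omega) r1 r2 hne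
        ⟨fun _ => hr, fun _ => hYk⟩
    have aLY : A.aL s Y0 = 1 := by
      apply cov_aL
      rw [InA_iff' (by omega) (by omega) (by omega)]
      omega
    have fin : A.aL s r = 1 → A.Rw s b := by
      intro h1
      rw [← lev_L hx hHB hi r1 r2]
      by_contra hcc
      rw [cov_aL' hcc] at h1
      omega
    rcases lt_trichotomy (A.ix s) T.t with ht | ht | ht
    · apply fin
      rw [out _ (h.wr.wFL hx hs ht hi), aLY]
    · exfalso
      have h1 := (h.wr.kt (n := 1) (by omega) (by omega)).2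
      rw [one_mul, one_mul, ← ht] at h1
      have h2 := ix_inj h1
      have := Int.eq_zero_of_abs_lt_dvd h2 (by rw [abs_lt]; constructor <;> omega)
      omega
    · obtain ⟨hx', hix⟩ := h.wr.ixM hx ht
      have hpx := hx'.dvd
      by_cases hcb : A.h + Y0 ≤ s + T.sig ∧ s + T.sig < Y0 + A.w + A.h
      · exfalso
        have key : ∃ x', A.Pt x' (s + T.sig) ∧ -(A.q * (A.w - 1)) ≤ x' ∧ x' ≤ A.D - A.W1 := by
          have e0 : (A.q : ℤ) * 0 ≤ A.q * (A.w - 1) := ql (by omega)
          rw [mul_zero] at e0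
          rcases lt_trichotomy (s + T.sig) A.h with hk | hk | hk
          · obtain ⟨x', h1, h2, h3⟩ := h.B3 (k := 1) (by omega) (by omega)
            refine ⟨x', ?_, by omega, h3⟩
            rwa [show s + T.sig = A.h - 1 by omega]
          · refine ⟨β, ?_, by have := h.b0; omega, h.ble⟩
            rw [hk]; exact h.pb
          · obtain ⟨x', h1, h2, h3⟩ := h.B2 (k := s + T.sig - A.h) (by omega) (by omega)
            refine ⟨x', ?_, ?_, h3⟩
            · rwa [show A.h + (s + T.sig - A.h) = s + T.sig by ring] at h1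
            · have : (A.q : ℤ) * (s + T.sig - A.h) ≤ A.q * (A.w - 1) := ql (by omega)
              omega
        obtain ⟨x', h1, h2, h3⟩ := key
        rw [mul_sub, mul_one] at h2
        have := hx'.eq h1 (by omega) (by omega)
        omega
      · have hi' : ¬ (A.p : ℤ) ∣ i - (s + T.sig) := ndp (by omega) (by omega) (by omega)
        have ho := out _ (h.wr.wM hx ht hi hi')
        have ho : A.aL s r - A.aR (s + T.sig) r = A.aL s Y0 - A.aR (s + T.sig) Y0 := ho
        rw [aLY] at ho
        by_cases hca : Y0 + A.w + A.h ≤ s + T.sig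
        · have h1 : A.aR (s + T.sig) Y0 = 0 := by
            apply cov_aR'
            rw [InA_iff' (by omega) (by omega) (by omega)]
            omega
          have h2 : 0 ≤ A.aR (s + T.sig) r := by unfold aR; split_ifs <;> omega
          have h3 : A.aL s r ≤ 1 := by unfold aL; split_ifs <;> omega
          apply fin
          omega
        · have hpw : (A.p : ℤ) ∣ A.D := A.p_D
          have g1 : A.D ≤ x - A.W1 := dvd_gap hpw hpx (by
            rcases hsg with e | e <;> rw [e] at hW1 <;> omega)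
          have g2 : x - A.W1 ≠ A.D := by
            intro e
            apply hx'.neD
            rw [e, sub_self]
            exact dvd_zero _
          have h1 : A.aR (s + T.sig) Y0 = 1 := by
            apply cov_aR
            rw [InA_iff' (by omega) (by omega) (by omega)]
            omega
          have h2 : A.Rw (s + T.sig) b := ih (s + T.sig) (x - A.W1) (by push_cast at hn; omega)
            (by omega) (by omega) hx' (by omega) (by omega)
          have h3 : A.aR (s + T.sig) r = 1 := by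
            apply cov_aR
            rw [lev_R hx hx' hHB hi hi' r1 r2]
            exact h2
          apply fin
          omega

/-- rows outside cover the event -/
theorem cov (h : Bt A T β) {i k b Y0 s x : ℤ}
    (hik : (i = A.h ∧ k = 0 ∧ Y0 = 0) ∨ (i = 1 ∧ k = 1 ∧ Y0 = 0) ∨ (i = -1 ∧ k = -1 ∧ Y0 = -1))
    (hb : A.Pt (b - A.q * k) i) (b0 : 0 < b) (b1 : b < A.D) (c0 : 0 < b - A.q * k)
    (c1 : b - A.q * k ≤ A.D) (s0 : Y0 + A.w ≤ s) (s1 : s < Y0 + A.h) (hx : A.Pt x s)
    (x0 : A.D < x) (x1 : x < A.NN) : A.Rw s b := by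
  have h0 := A.ix_nonneg s
  exact h.cov_aux hik hb b0 b1 c0 c1 (A.ix s).toNat.succ s x (by push_cast; omega) s0 s1 hx x0 x1

end Bt

end TAp

end Pool.Agent.H78.Tie
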