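import Pool.Agent.H67.NP.Fun

/-!
# `ep = 1`, region V : definitions

Window `0` only.  Rows `k : ℤ` modulo `p`, `U k`, `V k = U k + q k`; all `U k`, `D`, `W1` are
multiples of `p`; `NN = p q`.  `Pt x s`: the integer `x` is a lift of `U s`.
The rectangle of row `s` with lift `x`: visible columns `x < z ≤ x + W1` (`p ∣ z`, `Cx s z`), rows
`x + q s - q h ≤ v < x + q s` (`Rw s v`).  The rectangle of row `0` has lift `0`; the (absent)
rectangle of class `p` would have lift `D`.
`ix s` is the class (index in `0..p-1`) of row `s`.  `T.sig = w - x = w + |x|`; class `t` has row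
`-sig` and lift `W1`.
-/

namespace Pool.Agent.H78.Tie

open Finset
open Pool.Agent.H98.Flat
open Pool.Agent.H67.Flat

set_option linter.dupNamespace false
set_option linter.unusedVariables false

namespace TAp

variable {A : TAp}

/-- region V, `ep = 1` -/
structure WR (A : TAp) (T : A.Tie) : Prop where
  fl : A.Fl
  sgl : T.Single
  nov : T.NoOv
  ep : T.ep = 1
  x0 : T.x < 0
  hs : (A.w : ℤ) - T.x ≤ A.h

/-- `x` is a lift of the abscissa of row `s` -/
def Pt (A : TAp) (x s : ℤ) : Prop := A.NN ∣ x - A.U s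

/-- row `i` has a horizontal wall at the height `b`; it lies on the levels `(k - w, k]`
(top: `b = V i`, `k = i`; bottom: `b = V i - q h`, `k = i - h`) -/
def HB (A : TAp) (b i k : ℤ) : Prop := ¬ (A.p : ℤ) ∣ i ∧
  ((A.NN ∣ b - A.V i ∧ (A.p : ℤ) ∣ k - i) ∨
   (A.NN ∣ b - (A.V i - A.q * A.h) ∧ (A.p : ℤ) ∣ k - (i - A.h)))

/-- the correction `Φ` of rule (E0), with integer positions -/
def PhiZ (A : TAp) (c b Y : ℤ) : ℤ :=
  - (if c % A.NN < A.D ∧ InA A.p Y (-A.h) A.h then 1 else 0)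
  + (if (c - A.q * A.w) % A.NN < A.D ∧ InA A.p Y (-A.w - A.h) A.h then 1 else 0)
  + (if b % A.NN < A.D ∧ InA A.p Y (-A.w) A.w then 1 else 0)
  - (if (b + A.q * A.h) % A.NN < A.D ∧ InA A.p Y (-A.w - A.h) A.w then 1 else 0)

/-- `1` iff level `y` is in the arc `(s-h, s]` of the left wall of row `s` -/
def aL (A : TAp) (s y : ℤ) : ℤ := if InA A.p y (s - A.h) A.h then 1 else 0
/-- `1` iff level `y` is in the arc `(s-w-h, s-w]` of the right wall of row `s` -/
def aR (A : TAp) (s y : ℤ) : ℤ := if InA A.p y (s - A.w - A.h) A.h then 1 else 0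

/-- **rule (E0)** holds for the line `c` with charge `χ` against the horizontal walls of row `i`:
`r` is the level of `b - c` (`q (r-1) < b - c ≤ q r`); if `χ r ≠ χ Y` and the arc `(k-w, k]` of the
horizontal wall separates `Y` and `r` then `Φ(Y) = Φ(r)` -/
def Wal (A : TAp) (c : ℤ) (χ : ℤ → ℤ) (i : ℤ) : Prop := ∀ b k r Y : ℤ, A.HB b i k →
  A.q * r < b - c + A.q → b - c ≤ A.q * r → χ r ≠ χ Y →
  (InA A.p Y (k - A.w) A.w ↔ ¬ InA A.p r (k - A.w) A.w) → A.PhiZ c b Y = A.PhiZ c b r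

/-- the summand of `f`: `1` iff `v` is in the arc `[V k, V (k+h) - q h)` -/
def Pk (A : TAp) (k v : ℤ) : ℤ := ph A.NN (A.V k) ((A.cfg 0).ell k) v

/-- the row `h` is inside: lift `β ∈ (0, D)` -/
structure Bt (A : TAp) (T : A.Tie) (β : ℤ) : Prop where
  wr : WR A T
  pb : A.Pt β A.h
  b0 : 0 < β
  b1 : β < A.D

/-- the chain of the tie stops below the height `h` -/
structure V1 (A : TAp) (T : A.Tie) (L : ℤ) : Prop where
  wr : WR A T
  L1 : 1 ≤ L
  hL : L * T.t < A.p
  hL' : (A.p : ℤ) < (L + 1) * T.t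
  hS : L * T.sig < A.h

/-- lift of row `L sig` (class `p - L t`, its left wall is free) -/
def cp (A : TAp) (L : ℤ) : ℤ := A.D - L * A.W1

/-- `D + X`: height of the top of row `L sig` -/
def tp (A : TAp) (T : A.Tie) (L : ℤ) : ℤ := A.cp L + A.q * (L * T.sig)

end TAp

end Pool.Agent.H78.Tie
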