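import Pool.Agent.H78.Tie.W.Wall

/-! # Phi

The values of Phi.  All levels are representatives in (-p, p); `InA_iff` (H98.Flat.O.Basic) evaluates `InA` for such levels
(needs -p < x - lo, x - lo <= p); InA depends on the level mod p only.  `WR.sz`: w < h, 2h < p, 2w < p; `D_W'`, `D_H'`: D + q w < N, D + q h < N.
For -w < Y <= 0: Y is in (-h,0] and (-w,0], not in (-w-h,-w], not in (-w-h,-h]; so Phi(c,b,Y) = -[c in] + [b in] (in means mod N in [0,D)).
Y = 1: Phi = 0.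
INN: Phi(Y) = -1.  c in (q w, D), b in [D,N): b - c in (0, N - q w) so 1 <= r <= p - w; c and c - q w are in [0,D).  Phi(r) = -[r in (-h,0]] + [r in (-w-h,-w]] - [b+qh in][r in (-w-h,-h]]:
 r = r' mod p, r' = r - p in (-p, -w]: if r' > -h: -1 + 1 = 0.  If r' <= -h: 0 + [..] - [..] >= ... in {0,1} or 0.  Never -1 (if [r in (-w-h,-h]] = 1 then [r in (-w-h,-w]] = 1).
INN0: c in (0, q w): c - q w is < 0, mod N it is > N - q w > D.  Phi(Y) = -1.  b - c < N - q h so r <= p - h, r >= 1: r not in (-h,0]; b + q h in [D, N): not in. Phi(r) = 0.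
INN01: Phi(0) = -1 (c in, b not in), Phi(1) = 0; both equal Phi(r).
OUT: c in [D + q w, N), b in (0,D): Phi(Y) = 1; c, c - q w not in; b - c in (-N, -q w): r in (-p, -w] so r not in (-w,0]: Phi(r) = -[..] <= 0.
OUT2: D < c < D + q w, 0 < b, b + q h < D: Phi(Y) = 1 (c not in; b in). Phi(r): [c not in]; b - c < - q h so r <= -h, r > -p; [b in][r in (-w,0]] = 0; if r in (-w-h,-h]: [c-qw in] - 1 <= 0; if r <= -w-h: 0.
(levels -p < r <= -h; note c - q w may be in or not.)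
-/

namespace Pool.Agent.H78.Tie

open Finset
open Pool.Agent.H98.Flat
open Pool.Agent.H67.Flat

set_option linter.dupNamespace false
set_option linter.unusedVariables false

namespace TAp

variable {A : TAp}

theorem PhiZ_cong {c c' b b' Y Y' : ℤ} (hc : A.NN ∣ c - c') (hb : A.NN ∣ b - b')
    (hY : (A.p : ℤ) ∣ Y - Y') : A.PhiZ c b Y = A.PhiZ c' b' Y' := by
  have e1 : c % A.NN = c' % A.NN := emod_congr hc
  have e2 : (c - A.q * A.w) % A.NN = (c' - A.q * A.w) % A.NN :=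
    emod_congr (by rwa [show c - A.q * A.w - (c' - A.q * A.w) = c - c' by ring])
  have e3 : b % A.NN = b' % A.NN := emod_congr hb
  have e4 : (b + A.q * A.h) % A.NN = (b' + A.q * A.h) % A.NN :=
    emod_congr (by rwa [show b + A.q * A.h - (b' + A.q * A.h) = b - b' by ring])
  have i : ∀ lo len : ℤ, InA A.p Y lo len ↔ InA A.p Y' lo len := fun lo len =>
    InA_congr (by rwa [show Y - lo - (Y' - lo) = Y - Y' by ring])
  unfold PhiZ
  rw [e1, e2, e3, e4]
  simp only [i]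

/-- evaluation at a level in `(-p, 0]` -/
theorem Phi_ev {T : A.Tie} (h : WR A T) (c b : ℤ) {r : ℤ} (r0 : -(A.p : ℤ) < r) (r1 : r ≤ 0) :
    A.PhiZ c b r =
      - (if c % A.NN < A.D ∧ -(A.h : ℤ) < r then 1 else 0)
      + (if (c - A.q * A.w) % A.NN < A.D ∧ (-(A.w : ℤ) - A.h < r ∧ r ≤ -(A.w : ℤ)) then 1 else 0)
      + (if b % A.NN < A.D ∧ -(A.w : ℤ) < r then 1 else 0)
      - (if (b + A.q * A.h) % A.NN < A.D ∧ (-(A.w : ℤ) - A.h < r ∧ r ≤ -(A.h : ℤ)) then 1 else 0) := by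
  obtain ⟨s1, s2, s3, s4, s5, s6, s7, s8, s9, s10, s11⟩ := h.sz
  have i1 : InA A.p r (-A.h) A.h ↔ -(A.h : ℤ) < r := by
    rw [InA_iff (by omega) (by omega) (by omega)]; omega
  have i2 : InA A.p r (-A.w - A.h) A.h ↔ (-(A.w : ℤ) - A.h < r ∧ r ≤ -(A.w : ℤ)) := by
    rw [InA_iff (by omega) (by omega) (by omega)]; omega
  have i3 : InA A.p r (-A.w) A.w ↔ -(A.w : ℤ) < r := by
    rw [InA_iff (by omega) (by omega) (by omega)]; omega
  have i4 : InA A.p r (-A.w - A.h) A.w ↔ (-(A.w : ℤ) - A.h < r ∧ r ≤ -(A.h : ℤ)) := by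
    rw [InA_iff (by omega) (by omega) (by omega)]; omega
  unfold PhiZ
  simp only [i1, i2, i3, i4]

theorem Phi_ev1 {T : A.Tie} (h : WR A T) (c b : ℤ) : A.PhiZ c b 1 = 0 := by
  obtain ⟨s1, s2, s3, s4, s5, s6, s7, s8, s9, s10, s11⟩ := h.sz
  have i1 : ¬ InA A.p 1 (-A.h) A.h := by
    rw [InA_iff (by omega) (by omega) (by omega)]; omega
  have i2 : ¬ InA A.p 1 (-A.w - A.h) A.h := by
    rw [InA_iff (by omega) (by omega) (by omega)]; omega
  have i3 : ¬ InA A.p 1 (-A.w) A.w := by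
    rw [InA_iff (by omega) (by omega) (by omega)]; omega
  have i4 : ¬ InA A.p 1 (-A.w - A.h) A.w := by
    rw [InA_iff (by omega) (by omega) (by omega)]; omega
  unfold PhiZ
  simp only [i1, i2, i3, i4, and_false, if_false]
  norm_num

theorem Phi_em {c : ℤ} (c0 : 0 ≤ c) (c1 : c < A.NN) : c % A.NN = c := Int.emod_eq_of_lt c0 c1

theorem Phi_em' {c : ℤ} (c0 : -A.NN ≤ c) (c1 : c < 0) : c % A.NN = c + A.NN := by
  have e : c % A.NN = (c + A.NN) % A.NN := emod_congr ⟨-1, by ring⟩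
  rw [e]
  exact Int.emod_eq_of_lt (by omega) (by omega)

namespace WR

variable {T : A.Tie}

theorem INN (h : WR A T) {c b i k r Y : ℤ} {χ : ℤ → ℤ} (hW : A.Wal c χ i) (hb : A.HB b i k)
    (c0 : A.q * A.w < c) (c1 : c < A.D) (b0 : A.D ≤ b) (b1 : b < A.NN)
    (Y0 : -(A.w : ℤ) < Y) (Y1 : Y ≤ 0) (r1 : A.q * r < b - c + A.q) (r2 : b - c ≤ A.q * r)
    (hχ : χ r ≠ χ Y) (hk : InA A.p Y (k - A.w) A.w ↔ ¬ InA A.p r (k - A.w) A.w) : False := by
  have E := hW b k r Y hb r1 r2 hχ hk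
  obtain ⟨s1, s2, s3, s4, s5, s6, s7, s8, s9, s10, s11⟩ := h.sz
  have hN := A.NNqp
  have hDW := A.D_W'
  have hqw : (0 : ℤ) ≤ A.q * A.w := by positivity
  have hqh : (0 : ℤ) ≤ A.q * A.h := by positivity
  have R1 : 1 ≤ r := by
    by_contra hc
    have := A.ql (a := r) (b := 0) (by omega)
    rw [mul_zero] at this
    omega
  have R2 : r ≤ A.p - A.w := by
    by_contra hc
    have := A.ql1 (a := A.p - A.w) (b := r) (by omega)
    rw [mul_sub, ← hN] at this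
    omega
  have E2 : A.PhiZ c b r = A.PhiZ c b (r - A.p) :=
    PhiZ_cong ⟨0, by ring⟩ ⟨0, by ring⟩ ⟨1, by ring⟩
  rw [E2, Phi_ev h c b (r := Y) (by omega) (by omega),
    Phi_ev h c b (r := r - A.p) (by omega) (by omega), Phi_em (c := c) (by omega) (by omega),
    Phi_em (c := b) (by omega) (by omega), Phi_em (c := c - A.q * A.w) (by omega) (by omega)] at E
  rw [if_pos ⟨c1, by omega⟩, if_neg (by omega), if_neg (by omega), if_neg (by omega)] at E
  split_ifs at E <;> omega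

theorem INN0 (h : WR A T) {c b i k r Y : ℤ} {χ : ℤ → ℤ} (hW : A.Wal c χ i) (hb : A.HB b i k)
    (c0 : 0 < c) (c1 : c < A.q * A.w) (c2 : c < A.D) (b0 : A.D ≤ b) (b1 : b + A.q * A.h < A.NN)
    (Y0 : -(A.w : ℤ) < Y) (Y1 : Y ≤ 0) (r1 : A.q * r < b - c + A.q) (r2 : b - c ≤ A.q * r)
    (hχ : χ r ≠ χ Y) (hk : InA A.p Y (k - A.w) A.w ↔ ¬ InA A.p r (k - A.w) A.w) : False := by
  have E := hW b k r Y hb r1 r2 hχ hk
  obtain ⟨s1, s2, s3, s4, s5, s6, s7, s8, s9, s10, s11⟩ := h.sz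
  have hN := A.NNqp
  have hDW := A.D_W'
  have hqw : (0 : ℤ) ≤ A.q * A.w := by positivity
  have hqh : (0 : ℤ) ≤ A.q * A.h := by positivity
  have R1 : 1 ≤ r := by
    by_contra hc
    have := A.ql (a := r) (b := 0) (by omega)
    rw [mul_zero] at this
    omega
  have R2 : r ≤ A.p - A.h := by
    by_contra hc
    have := A.ql1 (a := A.p - A.h) (b := r) (by omega)
    rw [mul_sub, ← hN] at this
    omega
  have E2 : A.PhiZ c b r = A.PhiZ c b (r - A.p) :=
    PhiZ_cong ⟨0, by ring⟩ ⟨0, by ring⟩ ⟨1, by ring⟩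
  rw [E2, Phi_ev h c b (r := Y) (by omega) (by omega),
    Phi_ev h c b (r := r - A.p) (by omega) (by omega), Phi_em (c := c) (by omega) (by omega),
    Phi_em (c := b) (by omega) (by omega), Phi_em' (c := c - A.q * A.w) (by omega) (by omega),
    Phi_em (c := b + A.q * A.h) (by omega) (by omega)] at E
  rw [if_pos ⟨c2, by omega⟩, if_neg (by omega), if_neg (by omega), if_neg (by omega)] at E
  split_ifs at E <;> omega

theorem INN01 (h : WR A T) {c b i k r : ℤ} {χ : ℤ → ℤ} (hW : A.Wal c χ i) (hb : A.HB b i k)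
    (c0 : 0 < c) (c1 : c < A.D) (b0 : A.D ≤ b) (b1 : b < A.NN)
    (r1 : A.q * r < b - c + A.q) (r2 : b - c ≤ A.q * r)
    (hχ : χ r ≠ χ 0) (hχ' : χ r ≠ χ 1)
    (hk : InA A.p 0 (k - A.w) A.w ↔ ¬ InA A.p r (k - A.w) A.w)
    (hk' : InA A.p 1 (k - A.w) A.w ↔ ¬ InA A.p r (k - A.w) A.w) : False := by
  have E := hW b k r 0 hb r1 r2 hχ hk
  have E' := hW b k r 1 hb r1 r2 hχ' hk'
  obtain ⟨s1, s2, s3, s4, s5, s6, s7, s8, s9, s10, s11⟩ := h.sz
  rw [Phi_ev1 h] at E'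
  rw [← E', Phi_ev h c b (r := 0) (by omega) (by omega), Phi_em (c := c) (by omega) (by omega),
    Phi_em (c := b) (by omega) (by omega)] at E
  rw [if_pos ⟨c1, by omega⟩, if_neg (by omega), if_neg (by omega), if_neg (by omega)] at E
  omega

theorem OUT (h : WR A T) {c b i k r Y : ℤ} {χ : ℤ → ℤ} (hW : A.Wal c χ i) (hb : A.HB b i k)
    (c0 : A.D + A.q * A.w ≤ c) (c1 : c < A.NN) (b0 : 0 < b) (b1 : b < A.D)
    (Y0 : -(A.w : ℤ) < Y) (Y1 : Y ≤ 0) (r1 : A.q * r < b - c + A.q) (r2 : b - c ≤ A.q * r)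
    (hχ : χ r ≠ χ Y) (hk : InA A.p Y (k - A.w) A.w ↔ ¬ InA A.p r (k - A.w) A.w) : False := by
  have E := hW b k r Y hb r1 r2 hχ hk
  obtain ⟨s1, s2, s3, s4, s5, s6, s7, s8, s9, s10, s11⟩ := h.sz
  have hN := A.NNqp
  have hDW := A.D_W'
  have hD := A.D_pos
  have hqw : (0 : ℤ) ≤ A.q * A.w := by positivity
  have hqh : (0 : ℤ) ≤ A.q * A.h := by positivity
  have R1 : -(A.p : ℤ) < r := by
    by_contra hc
    have := A.ql (a := r) (b := -(A.p : ℤ)) (by omega)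
    rw [mul_neg, ← hN] at this
    omega
  have R2 : r ≤ -(A.w : ℤ) := by
    by_contra hc
    have := A.ql1 (a := -(A.w : ℤ)) (b := r) (by omega)
    rw [mul_neg] at this
    omega
  rw [Phi_ev h c b (r := Y) (by omega) (by omega),
    Phi_ev h c b (r := r) (by omega) (by omega), Phi_em (c := c) (by omega) (by omega),
    Phi_em (c := b) (by omega) (by omega), Phi_em (c := c - A.q * A.w) (by omega) (by omega)] at E
  rw [if_neg (by omega), if_neg (by omega), if_pos ⟨b1, by omega⟩, if_neg (by omega)] at E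
  split_ifs at E <;> omega

theorem OUT2 (h : WR A T) {c b i k r Y : ℤ} {χ : ℤ → ℤ} (hW : A.Wal c χ i) (hb : A.HB b i k)
    (c0 : A.D < c) (c1 : c < A.D + A.q * A.w) (b0 : 0 < b) (b1 : b + A.q * A.h < A.D)
    (Y0 : -(A.w : ℤ) < Y) (Y1 : Y ≤ 0) (r1 : A.q * r < b - c + A.q) (r2 : b - c ≤ A.q * r)
    (hχ : χ r ≠ χ Y) (hk : InA A.p Y (k - A.w) A.w ↔ ¬ InA A.p r (k - A.w) A.w) : False := by
  have E := hW b k r Y hb r1 r2 hχ hk
  obtain ⟨s1, s2, s3, s4, s5, s6, s7, s8, s9, s10, s11⟩ := h.sz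
  have hN := A.NNqp
  have hDW := A.D_W'
  have hD := A.D_pos
  have hqw : (0 : ℤ) ≤ A.q * A.w := by positivity
  have hqh : (0 : ℤ) ≤ A.q * A.h := by positivity
  have R1 : -(A.p : ℤ) < r := by
    by_contra hc
    have := A.ql (a := r) (b := -(A.p : ℤ)) (by omega)
    rw [mul_neg, ← hN] at this
    omega
  have R2 : r ≤ -(A.h : ℤ) := by
    by_contra hc
    have := A.ql1 (a := -(A.h : ℤ)) (b := r) (by omega)
    rw [mul_neg] at this
    omega
  rw [Phi_ev h c b (r := Y) (by omega) (by omega),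
    Phi_ev h c b (r := r) (by omega) (by omega), Phi_em (c := c) (by omega) (by omega),
    Phi_em (c := b) (by omega) (by omega), Phi_em (c := b + A.q * A.h) (by omega) (by omega)] at E
  rw [if_neg (by omega), if_neg (c := (c - A.q * A.w) % A.NN < A.D ∧
    (-(A.w : ℤ) - A.h < Y ∧ Y ≤ -(A.w : ℤ))) (by omega), if_pos ⟨by omega, by omega⟩,
    if_neg (by omega)] at E
  split_ifs at E <;> omega

end WR

end TAp

end Pool.Agent.H78.Tie
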