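import Pool.Agent.H78.Tie.W.V1b
import Pool.Agent.H78.Tie.W.Phi

/-! # EpR

The free left wall of row S = L sig at cp > W1 (`V1.Pc`, `V1.ixc`; wFL, chi = aL S: arc (S - h, S]) against an event with b in [D,N): INN with c = cp (q w < cp: cp >= W1 + p).
chi r = 1 iff Rw S b (lev_L); chi Y = 1 iff S - h < Y (Y <= 0 < S, -w < Y; mod p: fine).  Column: let x be the lift of row i in (cp - N, cp] (<> cp by Pt.row), lev_arc (q not | cp - x: Pt.neq):
 r in the arc iff cp < x + q w.  rule1: not Cx i cp: so cp > x + W1 (Pt.Cx), hence r not in the arc.  rule2: Cx i cp and Cx i (cp+p): cp + p <= x + W1 (Cx.lift, Pt.eq, not_Cx): r in the arc.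
evE (S + w <= h, k <> 0): if not Rw S b: chi r = 0, chi Y = 1 for all Y in (-w,0].  If r is in the arc take Y outside: k > 0: Y = 1 - w; k < 0: Y = 0.  If r is not in the arc take Y inside: k > 0: Y = 0; k < 0: Y = k.  INN: False.
be: row h with lift beta in (D,N): HB_B: HB beta h 0 (arc (-w,0]); not Cx h cp (lift beta or beta - N: beta > cp; cp <= beta - N + W1 < W1 impossible).
 1. not Rw S beta: rule1 with Y = 0: False.  So Rw S beta: RwS': tp - q h <= beta + N z < tp: z = 0 or z = -1.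
 2. if h < S + w: Y := S - h in (-w, 0): (Rw S beta <-> S - h < Y) is false: rule1: False.
-/

namespace Pool.Agent.H78.Tie

open Finset
open Pool.Agent.H98.Flat
open Pool.Agent.H67.Flat

set_option linter.dupNamespace false
set_option linter.unusedVariables false

namespace TAp

variable {A : TAp}

namespace V1

variable {T : A.Tie} {L : ℤ}

/-- the wall of row `S` applied to an event (before choosing the column) -/
theorem EpR_core (v : V1 A T L) (hc : A.W1 < A.cp L) {i k b Y r : ℤ} (hb : A.HB b i k)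
    (hi : ¬ (A.p : ℤ) ∣ i - L * T.sig) (b0 : A.D ≤ b) (b1 : b < A.NN)
    (Y0 : -(A.w : ℤ) < Y) (Y1 : Y ≤ 0) (hS : ¬ (A.Rw (L * T.sig) b ↔ L * T.sig - A.h < Y))
    (r1 : A.q * r < b - A.cp L + A.q) (r2 : b - A.cp L ≤ A.q * r)
    (hk : InA A.p Y (k - A.w) A.w ↔ ¬ InA A.p r (k - A.w) A.w) : False := by
  obtain ⟨s1, s2, s3, s4, s5, s6, s7, s8, s9, s10, s11⟩ := v.wr.sz
  have hW1 : A.W1 = A.q * A.w + A.sg := rfl
  have hqw : (A.q : ℤ) * 2 ≤ A.q * A.w := ql s1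
  have hsg : A.sg = 1 ∨ A.sg = -1 := A.hsg
  obtain ⟨S1, S2, S3⟩ := v.Sb
  obtain ⟨x1, x2, x3⟩ := v.ixc
  obtain ⟨c1, c2⟩ := v.cp0
  have hW := v.wr.wFL v.Pc x3 x2 hi
  have hcW : A.q * A.w < A.cp L := by
    obtain ⟨e, he⟩ := v.Pc.dvd
    obtain ⟨f, hf⟩ := A.p_W1
    have : f + 1 ≤ e := by
      by_contra hh
      have : (A.p : ℤ) * e ≤ A.p * f := by
        apply mul_le_mul_of_nonneg_left <;> omega
      omega
    have h2 : (A.p : ℤ) * f + A.p ≤ A.p * e := by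
      have : (A.p : ℤ) * (f + 1) ≤ A.p * e := mul_le_mul_of_nonneg_left this (by omega)
      linarith
    omega
  have hcD : A.cp L < A.D := by omega
  refine v.wr.INN hW hb hcW hcD b0 b1 Y0 Y1 r1 r2 ?_ hk
  have e1 : InA A.p r (L * T.sig - A.h) A.h ↔ A.Rw (L * T.sig) b := lev_L v.Pc hb hi r1 r2
  have e2 : InA A.p Y (L * T.sig - A.h) A.h ↔ L * T.sig - A.h < Y := by
    rw [InA_iff' (by omega) (by omega) (by omega)]; omega
  unfold aL
  intro h
  apply hS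
  rw [← e1, ← e2]
  split_ifs at h with h1 h2 h2
  · exact ⟨fun _ => h2, fun _ => h1⟩
  · omega
  · omega
  · exact ⟨fun h => absurd h h1, fun h => absurd h h2⟩

theorem rule1 (v : V1 A T L) (hc : A.W1 < A.cp L) {i k b Y : ℤ} (hb : A.HB b i k)
    (hi : ¬ (A.p : ℤ) ∣ i - L * T.sig) (b0 : A.D ≤ b) (b1 : b < A.NN)
    (Y0 : -(A.w : ℤ) < Y) (Y1 : Y ≤ 0) (hS : ¬ (A.Rw (L * T.sig) b ↔ L * T.sig - A.h < Y))
    (hk : InA A.p Y (k - A.w) A.w) (hx : ¬ A.Cx i (A.cp L)) : False := by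
  obtain ⟨s1, s2, s3, s4, s5, s6, s7, s8, s9, s10, s11⟩ := v.wr.sz
  have hW1 : A.W1 = A.q * A.w + A.sg := rfl
  have hqw : (A.q : ℤ) * 2 ≤ A.q * A.w := ql s1
  have hsg : A.sg = 1 ∨ A.sg = -1 := A.hsg
  obtain ⟨r, r1, r2⟩ := lev_ex A b (A.cp L)
  obtain ⟨x, px, x1, x2⟩ := Pt.ex A i (A.cp L - A.NN + 1)
  have xn : x ≠ A.cp L := by
    rintro rfl
    exact hi (px.row v.Pc)
  have nq : ¬ (A.q : ℤ) ∣ A.cp L - x := v.Pc.neq px (fun h => hi (by rw [← dvd_neg]; simpa using h))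
  have e := lev_arc hb px (by omega) (by omega) nq r1 r2
  refine v.EpR_core hc hb hi b0 b1 Y0 Y1 hS r1 r2 ⟨fun _ h => hx ?_, fun _ => hk⟩
  rw [e] at h
  exact px.Cx v.Pc.dvd (by omega) (by omega)

theorem rule2 (v : V1 A T L) (hc : A.W1 < A.cp L) {i k b Y : ℤ} (hb : A.HB b i k)
    (hi : ¬ (A.p : ℤ) ∣ i - L * T.sig) (b0 : A.D ≤ b) (b1 : b < A.NN)
    (Y0 : -(A.w : ℤ) < Y) (Y1 : Y ≤ 0) (hS : ¬ (A.Rw (L * T.sig) b ↔ L * T.sig - A.h < Y))
    (hk : ¬ InA A.p Y (k - A.w) A.w) (hx : A.Cx i (A.cp L)) (hx' : A.Cx i (A.cp L + A.p)) :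
    False := by
  obtain ⟨s1, s2, s3, s4, s5, s6, s7, s8, s9, s10, s11⟩ := v.wr.sz
  have hW1 : A.W1 = A.q * A.w + A.sg := rfl
  have hqw : (A.q : ℤ) * 2 ≤ A.q * A.w := ql s1
  have hsg : A.sg = 1 ∨ A.sg = -1 := A.hsg
  obtain ⟨r, r1, r2⟩ := lev_ex A b (A.cp L)
  obtain ⟨x, px, x1, x2⟩ := hx'.lift (v.Pc.dvd.add (dvd_refl _))
  have xn : x ≠ A.cp L := by
    rintro rfl
    exact hi (px.row v.Pc)
  have nq : ¬ (A.q : ℤ) ∣ A.cp L - x := v.Pc.neq px (fun h => hi (by rw [← dvd_neg]; simpa using h))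
  have hDW := A.D_W'
  obtain ⟨c1, c2⟩ := v.cp0
  have e := lev_arc hb px (by omega) (by omega) nq r1 r2
  refine v.EpR_core hc hb hi b0 b1 Y0 Y1 hS r1 r2 ⟨fun h => absurd h hk, fun h => absurd ?_ h⟩
  rw [e]
  omega

/-- the events of the levels near `0` outside are covered by row `S` -/
theorem evE (v : V1 A T L) (hc : A.W1 < A.cp L) (hh : L * T.sig + A.w ≤ A.h) {i k b : ℤ}
    (hb : A.HB b i k) (hi : ¬ (A.p : ℤ) ∣ i - L * T.sig) (b0 : A.D ≤ b) (b1 : b < A.NN)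
    (k0 : -(A.w : ℤ) < k) (k1 : k < A.w) (kn : k ≠ 0) : A.Rw (L * T.sig) b := by
  by_contra hR
  obtain ⟨s1, s2, s3, s4, s5, s6, s7, s8, s9, s10, s11⟩ := v.wr.sz
  have hW1 : A.W1 = A.q * A.w + A.sg := rfl
  have hqw : (A.q : ℤ) * 2 ≤ A.q * A.w := ql s1
  have hsg : A.sg = 1 ∨ A.sg = -1 := A.hsg
  obtain ⟨r, r1, r2⟩ := lev_ex A b (A.cp L)
  have hY : ∀ Y : ℤ, -(A.w : ℤ) < Y → Y ≤ 0 →
      (InA A.p Y (k - A.w) A.w ↔ ¬ InA A.p r (k - A.w) A.w) → False := fun Y Y0 Y1 =>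
    v.EpR_core hc hb hi b0 b1 Y0 Y1 (fun h => hR (h.2 (by omega))) r1 r2
  by_cases hr : InA A.p r (k - A.w) A.w
  · rcases lt_or_gt_of_ne kn with h | h
    · refine hY 0 (by omega) le_rfl ⟨fun h1 => ?_, fun h1 => absurd hr h1⟩
      rw [InA_iff' (by omega) (by omega) (by omega)] at h1
      omega
    · refine hY (1 - A.w) (by omega) (by omega) ⟨fun h1 => ?_, fun h1 => absurd hr h1⟩
      rw [InA_iff (by omega) (by omega) (by omega)] at h1
      omega
  · rcases lt_or_gt_of_ne kn with h | h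
    · refine hY k (by omega) (by omega) ⟨fun _ => hr, fun _ => ?_⟩
      rw [InA_iff (by omega) (by omega) (by omega)]
      omega
    · refine hY 0 (by omega) le_rfl ⟨fun _ => hr, fun _ => ?_⟩
      rw [InA_iff (by omega) (by omega) (by omega)]
      omega

/-- row `h` outside -/
theorem be (v : V1 A T L) (hc : A.W1 < A.cp L) {β : ℤ} (hβ : A.Pt β A.h) (b0 : A.D < β)
    (b1 : β < A.NN) : L * T.sig + A.w ≤ A.h ∧
      (β < A.tp T L ∨ A.NN + A.tp T L - A.q * A.h ≤ β) := by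
  obtain ⟨s1, s2, s3, s4, s5, s6, s7, s8, s9, s10, s11⟩ := v.wr.sz
  have hW1 : A.W1 = A.q * A.w + A.sg := rfl
  have hqw : (A.q : ℤ) * 2 ≤ A.q * A.w := ql s1
  have hsg : A.sg = 1 ∨ A.sg = -1 := A.hsg
  obtain ⟨S1, S2, S3⟩ := v.Sb
  obtain ⟨c1, c2⟩ := v.cp0
  have hD := A.D_pos
  have hb : A.HB β A.h 0 := by
    have := HB_B hβ (ndp (by omega) (by omega) (by omega))
    rw [show β + A.q * A.h - A.q * A.h = β by ring, sub_self] at this
    exact this
  have hi : ¬ (A.p : ℤ) ∣ A.h - L * T.sig := ndp (by omega) (by omega) (by omega)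
  have hx : ¬ A.Cx A.h (A.cp L) :=
    Pt.not_Cx (hβ.congr (y := β - A.NN) ⟨1, by ring⟩ ⟨0, by ring⟩) v.Pc.dvd (by omega) (by omega)
  have hR : A.Rw (L * T.sig) β := by
    by_contra hR
    refine v.rule1 hc hb hi b0.le b1 (Y := 0) (by omega) le_rfl (fun h => hR (h.2 (by omega))) ?_ hx
    rw [InA_iff (by omega) (by omega) (by omega)]
    omega
  refine ⟨?_, ?_⟩
  · by_contra hh
    refine v.rule1 hc hb hi b0.le b1 (Y := L * T.sig - A.h) (by omega) (by omega)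
      (fun h => lt_irrefl _ (h.1 hR)) ?_ hx
    rw [InA_iff (by omega) (by omega) (by omega)]
    omega
  · obtain ⟨z, z1, z2⟩ := v.RwS' hR
    obtain ⟨t1, t2⟩ := v.tpD
    have hDH := A.D_H'
    have hz1 : z ≤ 0 := by
      by_contra hh
      have : A.NN * 1 ≤ A.NN * z := mul_le_mul_of_nonneg_left (by omega) (by omega)
      omega
    have hz2 : -1 ≤ z := by
      by_contra hh
      have : A.NN * z ≤ A.NN * (-2) := mul_le_mul_of_nonneg_left (by omega) (by omega)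
      omega
    have hz : z = 0 ∨ z = -1 := by omega
    rcases hz with rfl | rfl
    · left; omega
    · right; omega

end V1

end TAp

end Pool.Agent.H78.Tie
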