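import Pool.Agent.H78.Tie.W.Pt

/-! # Fsum

`f` as a sum of indicators: `Cfg.f y v = sum over i < w of ph N (V (y+i)) (ell (y+i)) v`, ell k = (U (k+h) - U k) mod N.
If x, z are lifts of rows k, k + h with x < z < x + N then ell k = z - x, and the arc is [x + q k, z + q k).
-/

namespace Pool.Agent.H78.Tie

open Finset
open Pool.Agent.H98.Flat
open Pool.Agent.H67.Flat

set_option linter.dupNamespace false
set_option linter.unusedVariables false

namespace TAp

variable {A : TAp}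

theorem fv_sum (A : TAp) (y v : ℤ) : A.fv y v = ∑ i ∈ range A.w, A.Pk (y + i) v := rfl

theorem Pk01 (A : TAp) (k v : ℤ) : A.Pk k v = 0 ∨ A.Pk k v = 1 := by
  unfold Pk ph
  split_ifs <;> simp

/-- the length of the arc from the lifts -/
theorem Fsum_ell {x z k : ℤ} (hx : A.Pt x k) (hz : A.Pt z (k + A.h)) (h0 : x ≤ z)
    (h1 : z < x + A.NN) : (A.cfg 0).ell k = z - x := by
  have h2 : A.NN ∣ (A.U (k + A.h) - A.U k) - (z - x) := by
    have := dvd_sub hx hz
    rwa [show x - A.U k - (z - A.U (k + A.h)) = (A.U (k + A.h) - A.U k) - (z - x) by ring] at this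
  show (A.U (k + A.h) - A.U k) % A.NN = z - x
  exact Col_mod h2 (by omega) (by omega)

theorem Fsum_off {x k v : ℤ} (hx : A.Pt x k) (h0 : x + A.q * k ≤ v)
    (h1 : v < x + A.q * k + A.NN) : (v - A.V k) % A.NN = v - (x + A.q * k) := by
  refine Col_mod ?_ (by omega) (by omega)
  have : A.NN ∣ x - A.U k := hx
  rw [V_eq]
  rwa [show v - (A.U k + A.q * k) - (v - (x + A.q * k)) = x - A.U k by ring]

theorem Pk_one {x z k v : ℤ} (hx : A.Pt x k) (hz : A.Pt z (k + A.h)) (h1 : z < x + A.NN)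
    (v0 : x + A.q * k ≤ v) (v1 : v < z + A.q * k) : A.Pk k v = 1 := by
  apply ph_of_lt
  rw [Fsum_off hx v0 (by omega), Fsum_ell hx hz (by omega) h1]
  omega

theorem Pk_zero {x z k v : ℤ} (hx : A.Pt x k) (hz : A.Pt z (k + A.h)) (h0 : x ≤ z)
    (v0 : z + A.q * k ≤ v) (v1 : v < x + A.q * k + A.NN) : A.Pk k v = 0 := by
  apply ph_of_le
  rw [Fsum_off hx (by omega) (by omega), Fsum_ell hx hz h0 (by omega)]
  omega

theorem Pk_cong {k k' v v' : ℤ} (hk : (A.p : ℤ) ∣ k - k') (hv : A.NN ∣ v - v') :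
    A.Pk k v = A.Pk k' v' := by
  have h1 := V_cong (A := A) hk
  have h2 := U_cong (A := A) hk
  have h3 := U_cong (A := A) (k := k + A.h) (j := k' + A.h) (by rwa [add_sub_add_right_eq_sub])
  have h4 : (A.cfg 0).ell k = (A.cfg 0).ell k' := by
    show (A.U (k + A.h) - A.U k) % A.NN = (A.U (k' + A.h) - A.U k') % A.NN
    apply emod_congr
    have := dvd_sub h3 h2
    rwa [show A.U (k + A.h) - A.U (k' + A.h) - (A.U k - A.U k') =
      A.U (k + A.h) - A.U k - (A.U (k' + A.h) - A.U k') by ring] at this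
  unfold Pk
  rw [h4]
  apply ph_congr
  have := dvd_sub hv h1
  rwa [show v - v' - (A.V k - A.V k') = v - A.V k - (v' - A.V k') by ring] at this

theorem fv_le (A : TAp) (y v : ℤ) : A.fv y v ≤ A.w := by
  rw [fv_sum]
  have h := Finset.sum_le_card_nsmul (range A.w) (fun i : ℕ => A.Pk (y + i) v) 1 (by
    intro i _
    rcases A.Pk01 (y + i) v with h | h <;> simp [h])
  simpa using h

theorem fv_nonneg (A : TAp) (y v : ℤ) : 0 ≤ A.fv y v := by
  rw [fv_sum]
  apply Finset.sum_nonneg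
  intro i _
  rcases A.Pk01 (y + i) v with h | h <;> simp [h]

theorem fv_full {y v : ℤ} (h : ∀ k, y ≤ k → k < y + A.w → A.Pk k v = 1) : A.fv y v = A.w := by
  rw [fv_sum]
  rw [Finset.sum_congr rfl (g := fun _ => (1 : ℤ))]
  · simp
  · intro i hi
    have := Finset.mem_range.1 hi
    exact h _ (by omega) (by omega)

theorem fv_null {y v : ℤ} (h : ∀ k, y ≤ k → k < y + A.w → A.Pk k v = 0) : A.fv y v = 0 := by
  rw [fv_sum]
  apply Finset.sum_eq_zero
  intro i hi
  have := Finset.mem_range.1 hi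
  exact h _ (by omega) (by omega)

theorem Fsum_split (A : TAp) (y v : ℤ) {k : ℤ} (k0 : y ≤ k) (k1 : k < y + A.w) :
    ∃ S : ℤ, 0 ≤ S ∧ S ≤ A.w - 1 ∧ A.fv y v = A.Pk k v + S := by
  obtain ⟨n, hn⟩ := Int.eq_ofNat_of_zero_le (a := k - y) (by omega)
  have hnw : n ∈ range A.w := by
    rw [Finset.mem_range]; omega
  have hk : y + (n : ℤ) = k := by
    have : (n : ℤ) = k - y := hn.symm
    omega
  refine ⟨∑ i ∈ (range A.w).erase n, A.Pk (y + i) v, ?_, ?_, ?_⟩
  · apply Finset.sum_nonneg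
    intro i _
    rcases A.Pk01 (y + i) v with h | h <;> simp [h]
  · have h := Finset.sum_le_card_nsmul ((range A.w).erase n) (fun i : ℕ => A.Pk (y + i) v) 1 (by
      intro i _
      rcases A.Pk01 (y + i) v with h | h <;> simp [h])
    rw [Finset.card_erase_of_mem hnw, Finset.card_range, nsmul_eq_mul, mul_one] at h
    have h1 : 1 ≤ A.w := by have := Finset.mem_range.1 hnw; omega
    rw [Nat.cast_sub h1] at h
    simpa using h
  · rw [fv_sum, ← Finset.add_sum_erase _ _ hnw, hk]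

theorem fv_lt {y v k : ℤ} (k0 : y ≤ k) (k1 : k < y + A.w) (h : A.Pk k v = 0) :
    A.fv y v ≤ A.w - 1 := by
  obtain ⟨S, h0, h1, h2⟩ := A.Fsum_split y v k0 k1
  omega

theorem fv_pos {y v k : ℤ} (k0 : y ≤ k) (k1 : k < y + A.w) (h : A.Pk k v = 1) :
    1 ≤ A.fv y v := by
  obtain ⟨S, h0, h1, h2⟩ := A.Fsum_split y v k0 k1
  omega

end TAp

end Pool.Agent.H78.Tie
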