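import Pool.Agent.H78.Tie.W.Nov
import Pool.Agent.H67.NP.Fun

/-! # Win

Visible columns and the two window rules.  `uniq, Rv01, abut, single, Fb` : copy of H67.NP.Dis (there: NPH instead of WR; only
`h.fl`, `h.nov` are used).  `alpha, beta` : copy of H67.NP.Ab (only h.fl and w <= h are used).
`noleft`: U j < c <= U j + W1 and a common row: `gap` (choose the representative of row j with `Pt.Rw_row` for both) gives
ix s = ix j + t >= t.
`exR`: from Rv >= 1, `Rv_ex`.
-/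

namespace Pool.Agent.H78.Tie

open Finset
open Pool.Agent.H98.Flat
open Pool.Agent.H67.Flat

set_option linter.dupNamespace false
set_option linter.unusedVariables false

namespace TAp

variable {A : TAp}

namespace WR

variable {T : A.Tie}


theorem Win_dis_k0_nd (A : TAp) {x : ℤ} (hx : (A.p : ℤ) ∣ x) : ¬ (A.p : ℤ) ∣ x - A.k0 := by
  intro h
  have h1 := dvd_sub hx h
  rw [sub_sub_cancel] at h1
  have h5 := A.p5
  have hk : A.k0 = 1 ∨ A.k0 = 2 := by unfold k0; split_ifs <;> simp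
  have := Int.le_of_dvd (by omega) h1
  omega

/-- visible disjointness -/
theorem uniq (h : WR A T) {k j x v : ℤ} (hx : (A.p : ℤ) ∣ x) (a : A.Cx k x) (b : A.Rw k v)
    (c : A.Cx j x) (d : A.Rw j v) : (A.p : ℤ) ∣ k - j := by
  by_contra hkj
  exact Win_dis_k0_nd A hx ((T.sc h.nov).dj k j (x - A.k0) v hkj ⟨a, b⟩ ⟨c, d⟩).2

theorem Rv01 (h : WR A T) {x : ℤ} (hx : (A.p : ℤ) ∣ x) (v : ℤ) : A.Rv x v = 0 ∨ A.Rv x v = 1 := by
  have h0 := Rv_nonneg A x v
  have h1 : A.Rv x v ≤ 1 := by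
    by_cases hc : 1 ≤ A.Rv x v
    · obtain ⟨a, ha1, ha2⟩ := Rv_ex hc
      refine R_le_of (C := A.cfg 0) (a := a) ?_
      intro k hk
      exact h.uniq hx hk.1 hk.2 ha1 ha2
    · omega
  omega

/-- rectangles in a visible column do not abut -/
theorem abut (h : WR A T) {k j x v : ℤ} (hx : (A.p : ℤ) ∣ x) (a : A.Cx k x) (b : A.Rw k (v - 1))
    (c : A.Cx j x) (d : A.Rw j v) : (A.p : ℤ) ∣ k - j := by
  obtain ⟨y, y1, y2⟩ := Cfg.near_ver (A.cfg_gen 0) (k := k) (j := j) (v := v - 1) b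
    (by rw [sub_add_cancel]; exact d)
  exact h.uniq hx a (v := y) y1 c y2

theorem Win_dis_qh_lt (A : TAp) : A.q * (A.h : ℤ) < A.NN := by
  have hq := A.q_pos'
  have h2 : (A.h : ℤ) < A.p := by have := A.h2; omega
  have := mul_lt_mul_of_pos_left h2 hq
  unfold NN
  rwa [mul_comm (A.p : ℤ) A.q]

/-- consecutive covered rows of a visible column are covered by one rectangle -/
theorem single (h : WR A T) {x v0 v1 : ℤ} (hx : (A.p : ℤ) ∣ x) (h01 : v0 < v1)
    (hc : ∀ v, v0 ≤ v → v < v1 → 1 ≤ A.Rv x v) :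
    ∃ k, A.Cx k x ∧ (∀ v, v0 ≤ v → v < v1 → A.Rw k v) ∧ v1 - v0 ≤ A.q * A.h := by
  obtain ⟨k, k1, k2⟩ := Rv_ex (hc v0 le_rfl h01)
  have key : ∀ n : ℕ, v0 + n < v1 → A.Rw k (v0 + n) := by
    intro n
    induction n with
    | zero => intro _; simpa using k2
    | succ n ih =>
      intro hn
      push_cast at hn ⊢
      have h1 := ih (by omega)
      obtain ⟨j, j1, j2⟩ := Rv_ex (hc (v0 + (n + 1)) (by omega) hn)
      have h2 := h.abut hx (v := v0 + (n + 1)) k1
        (by rwa [show v0 + ((n : ℤ) + 1) - 1 = v0 + n by ring]) j1 j2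
      exact Rw_congr (by have := (dvd_neg).2 h2; rwa [neg_sub] at this) (by simp) j2
  have all : ∀ v, v0 ≤ v → v < v1 → A.Rw k v := by
    intro v a b
    have := key (v - v0).toNat (by rw [Int.toNat_of_nonneg (by omega)]; omega)
    rwa [Int.toNat_of_nonneg (by omega), show v0 + (v - v0) = v by ring] at this
  refine ⟨k, k1, all, ?_⟩
  by_contra hlen
  push Not at hlen
  obtain ⟨δ, d0, d1, d2⟩ := k2.off
  obtain ⟨δ', e0, e1, e2⟩ := (all (v0 + δ) (by omega) (by omega)).off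
  have h1 := dvd_sub e2 d2
  rw [show v0 + δ - (A.V k - δ') - (v0 - (A.V k - δ)) = δ' by ring] at h1
  have e0' : (0 : ℤ) < δ' := by exact_mod_cast e0
  have e1' : (δ' : ℤ) ≤ A.q * A.h := by exact_mod_cast e1
  have := Int.le_of_dvd e0' h1
  have := Win_dis_qh_lt A
  omega

theorem Fb (h : WR A T) {x : ℤ} (hx : (A.p : ℤ) ∣ x) (y v : ℤ) :
    -1 ≤ A.Rv x v - A.gv y x + A.fv y v ∧ A.Rv x v - A.gv y x + A.fv y v ≤ 1 := by
  have := h.fl (x - A.k0) v y (by rwa [sub_add_cancel])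
  rw [abs_le] at this
  exact this



theorem Win_k0c (A : TAp) : (A.sg = 1 ∧ A.k0 = 2) ∨ (A.sg = -1 ∧ A.k0 = 1) := by
  unfold k0
  rcases A.hsg with h | h
  · left; exact ⟨h, by rw [if_pos h]⟩
  · right; exact ⟨h, by rw [if_neg (by omega)]⟩

/-- the difference of the heights of the two windows -/
theorem Win_win_diff (A : TAp) (y u v : ℤ) :
    Fq (A.cfg 0) y u v - Fq (A.cfg 1) y u v
      = (A.cfg 0).hor 0 u * (A.cfg 0).ver 0 v
        - (mv (A.cfg 0) A.D).hor 0 u * (mv (A.cfg 0) A.D).ver 0 v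
        + PHI (A.cfg 0) A.D u v y := by
  rw [← A.win]
  set C := A.cfg 0 with hC
  have hd := A.D_nonneg
  have c1 := const_eq C A.U00 hd A.D_W A.D_H y
  have g1 := dg_form C A.U00 hd A.D_W y u
  have f1 := df_form C A.U00 hd A.D_H y v
  have hR : C.R u v - (mv C A.D).R u v
      = C.hor 0 u * C.ver 0 v - (mv C A.D).hor 0 u * (mv C A.D).ver 0 v := by
    unfold Cfg.R
    change ∑ k ∈ range C.p, C.hor k u * C.ver k v
      - ∑ k ∈ range C.p, (mv C A.D).hor k u * (mv C A.D).ver k v = _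
    rw [← Finset.sum_sub_distrib, Finset.sum_eq_single 0]
    · rfl
    · intro k hk hk0
      have hk := Finset.mem_range.1 hk
      have nd : ¬ (C.p : ℤ) ∣ (k : ℤ) := by
        intro h
        have := Int.le_of_dvd (by omega) h
        omega
      have a1 : (mv C A.D).hor k u = C.hor k u := by
        unfold Cfg.hor; rw [mv_U C A.D k nd]; rfl
      have a2 : (mv C A.D).ver k v = C.ver k v := by
        unfold Cfg.ver; rw [mv_V C A.D k nd]; rfl
      rw [a1, a2, sub_self]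
    · intro h
      exact absurd (Finset.mem_range.2 C.p_pos) h
  unfold Fq PHI
  linear_combination hR - g1 + f1 - c1

theorem Win_PHI_win (A : TAp) {y : ℤ} (hwh : (A.w : ℤ) ≤ A.h) (y1 : -(A.w : ℤ) < y) (y2 : y ≤ 0)
    (u v : ℤ) : PHI (A.cfg 0) A.D u v y = ph A.NN 0 A.D v - ph A.NN 0 A.D u := by
  have h2 := A.h2
  have w2 := A.w2
  have hw := A.hw
  have l1 : lv A.p 0 A.h y = 1 := by
    unfold lv
    rw [Int.emod_eq_of_lt (by omega) (by omega), if_pos (by omega)]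
  have l2 : lv A.p (-A.w) A.h y = 0 := by
    unfold lv
    have : (-(A.w : ℤ) - y) % (A.p : ℤ) = -(A.w : ℤ) - y + A.p := by
      rw [← Int.add_emod_right, Int.emod_eq_of_lt (by omega) (by omega)]
    rw [this, if_neg (by omega)]
  have l3 : lv A.p 0 A.w y = 1 := by
    unfold lv
    rw [Int.emod_eq_of_lt (by omega) (by omega), if_pos (by omega)]
  have l4 : lv A.p (-A.h) A.w y = 0 := by
    unfold lv
    have : (-(A.h : ℤ) - y) % (A.p : ℤ) = -(A.h : ℤ) - y + A.p := by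
      rw [← Int.add_emod_right, Int.emod_eq_of_lt (by omega) (by omega)]
    rw [this, if_neg (by omega)]
  unfold PHI
  change -(ph A.NN 0 A.D u * lv A.p 0 A.h y) + ph A.NN (A.cfg 0).W A.D u * lv A.p (-A.w) A.h y
    + ph A.NN 0 A.D v * lv A.p 0 A.w y
    - ph A.NN (-(A.cfg 0).H) A.D v * lv A.p (-A.h) A.w y = _
  rw [l1, l2, l3, l4]
  ring

theorem Win_bound1 (h : WR A T) {x : ℤ} (hx : (A.p : ℤ) ∣ x) (y v : ℤ) :
    -1 ≤ Fq (A.cfg 1) y (x - A.k0) v ∧ Fq (A.cfg 1) y (x - A.k0) v ≤ 1 := by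
  have := h.fl.all 1 (x - A.k0) v y (by rwa [sub_add_cancel])
  exact abs_le.1 this

/-- the height in terms of the second window -/
theorem Win_F_win (h : WR A T) {y x v : ℤ} (y1 : -(A.w : ℤ) < y) (y2 : y ≤ 0) :
    A.Rv x v - A.gv y x + A.fv y v = Fq (A.cfg 1) y (x - A.k0) v
      + (A.cfg 0).hor 0 (x - A.k0) * (A.cfg 0).ver 0 v
      - (mv (A.cfg 0) A.D).hor 0 (x - A.k0) * (mv (A.cfg 0) A.D).ver 0 v
      + ph A.NN 0 A.D v - ph A.NN 0 A.D (x - A.k0) := by
  have s := h.sz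
  have a := Win_win_diff A y (x - A.k0) v
  rw [Win_PHI_win A (by omega) y1 y2] at a
  have e : A.Rv x v - A.gv y x + A.fv y v = Fq (A.cfg 0) y (x - A.k0) v := rfl
  rw [e]
  linear_combination a

theorem Win_W_p (A : TAp) {x z : ℤ} (hx : (A.p : ℤ) ∣ x) (hz : (A.p : ℤ) ∣ z) (h : z + A.W1 < x) :
    A.q * (A.w : ℤ) ≤ x - z - A.k0 := by
  have h1 : (A.p : ℤ) ∣ x - (z + A.W1) := dvd_sub hx (dvd_add hz A.p_W1)
  have := Int.le_of_dvd (by omega) h1
  have p5 := A.p5
  unfold W1 at this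
  rcases Win_k0c A with h | h <;> omega

/-- **two window rule (alpha)** -/
theorem alpha (h : WR A T) {y x v : ℤ} (y1 : -(A.w : ℤ) < y) (y2 : y ≤ 0)
    (hx : (A.p : ℤ) ∣ x) (x1 : 0 < x) (x2 : x ≤ A.D) (v1 : A.D ≤ v) (v2 : v < A.NN)
    (hn : A.W1 < x ∨ v < A.NN - A.q * A.h) : A.Rv x v - A.gv y x + A.fv y v ≤ 0 := by
  have hp5 := A.p5
  have hxp := Int.le_of_dvd x1 hx
  have hD := A.D_pos
  have hq := A.q_pos'
  have DH : A.D + A.q * A.h < A.NN := A.D_H
  have DW : A.D + A.q * A.w < A.NN := A.D_W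
  have hh : (0 : ℤ) ≤ A.q * A.h := by positivity
  have hw : (0 : ℤ) ≤ A.q * A.w := by positivity
  have kc := Win_k0c A
  have b := (h.Win_bound1 hx y v).2
  rw [h.Win_F_win y1 y2]
  have p1 : ph A.NN 0 A.D (x - A.k0) = 1 := by
    apply ph_of_lt
    rw [sub_zero, Int.emod_eq_of_lt (by rcases kc with h | h <;> omega)
      (by rcases kc with h | h <;> omega)]
    rcases kc with h | h <;> omega
  have p2 : ph A.NN 0 A.D v = 0 := by
    apply ph_of_le
    rw [sub_zero, Int.emod_eq_of_lt (by omega) (by omega)]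
    omega
  have r0 : (A.cfg 0).hor 0 (x - A.k0) * (A.cfg 0).ver 0 v = 0 := by
    rcases hn with hn | hn
    · have e : (A.cfg 0).hor 0 (x - A.k0) = 0 := by
        unfold Cfg.hor
        rw [A.U00]
        apply ph_of_le
        change A.q * (A.w : ℤ) ≤ (x - A.k0 - 0) % A.NN
        have := Win_W_p A hx (dvd_zero _) (by omega : 0 + A.W1 < x)
        rw [sub_zero, Int.emod_eq_of_lt (by omega) (by rcases kc with h | h <;> omega)]
        omega
      rw [e, zero_mul]
    · have e : (A.cfg 0).ver 0 v = 0 := by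
        unfold Cfg.ver Cfg.V
        rw [A.U00]
        apply ph_of_le
        change A.q * (A.h : ℤ) ≤ (v - (0 + A.q * 0 - A.q * A.h)) % A.NN
        rw [show v - (0 + A.q * 0 - A.q * (A.h : ℤ)) = v + A.q * A.h by ring,
          Int.emod_eq_of_lt (by omega) (by omega)]
        omega
      rw [e, mul_zero]
  have r1 : 0 ≤ (mv (A.cfg 0) A.D).hor 0 (x - A.k0) * (mv (A.cfg 0) A.D).ver 0 v :=
    mul_nonneg (ph_nonneg _ _ _ _) (ph_nonneg _ _ _ _)
  omega

/-- **two window rule (beta)** -/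
theorem beta (h : WR A T) {y x v : ℤ} (y1 : -(A.w : ℤ) < y) (y2 : y ≤ 0)
    (hx : (A.p : ℤ) ∣ x) (x1 : A.D < x) (x2 : x ≤ A.NN) (v1 : 0 ≤ v) (v2 : v < A.D)
    (hn : A.D + A.W1 < x ∨ v < A.D - A.q * A.h) : 0 ≤ A.Rv x v - A.gv y x + A.fv y v := by
  have hp5 := A.p5
  have hxp : A.D + A.p ≤ x := by
    have := Int.le_of_dvd (by omega) (dvd_sub hx A.p_D)
    omega
  have hD := A.D_pos
  have hq := A.q_pos'
  have DH : A.D + A.q * A.h < A.NN := A.D_H
  have DW : A.D + A.q * A.w < A.NN := A.D_W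
  have hh : (0 : ℤ) ≤ A.q * A.h := by positivity
  have hw : (0 : ℤ) ≤ A.q * A.w := by positivity
  have kc := Win_k0c A
  have b := (h.Win_bound1 hx y v).1
  rw [h.Win_F_win y1 y2]
  have p1 : ph A.NN 0 A.D (x - A.k0) = 0 := by
    apply ph_of_le
    rw [sub_zero, Int.emod_eq_of_lt (by rcases kc with h | h <;> omega)
      (by rcases kc with h | h <;> omega)]
    rcases kc with h | h <;> omega
  have p2 : ph A.NN 0 A.D v = 1 := by
    apply ph_of_lt
    rw [sub_zero, Int.emod_eq_of_lt (by omega) (by omega)]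
    omega
  have r0 : (mv (A.cfg 0) A.D).hor 0 (x - A.k0) * (mv (A.cfg 0) A.D).ver 0 v = 0 := by
    rcases hn with hn | hn
    · have e : (mv (A.cfg 0) A.D).hor 0 (x - A.k0) = 0 := by
        unfold Cfg.hor
        rw [mv_U0 (A.cfg 0) A.D 0 (dvd_zero _), A.U00]
        apply ph_of_le
        change A.q * (A.w : ℤ) ≤ (x - A.k0 - (0 + A.D)) % A.NN
        have := Win_W_p A hx A.p_D hn
        rw [Int.emod_eq_of_lt (by omega) (by rcases kc with h | h <;> omega)]
        omega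
      rw [e, zero_mul]
    · have e : (mv (A.cfg 0) A.D).ver 0 v = 0 := by
        unfold Cfg.ver
        rw [mv_V0 (A.cfg 0) A.D 0 (dvd_zero _)]
        unfold Cfg.V
        rw [A.U00]
        apply ph_of_le
        change A.q * (A.h : ℤ) ≤ (v - (0 + A.q * 0 + A.D - A.q * A.h)) % A.NN
        rw [show v - (0 + A.q * 0 + A.D - A.q * (A.h : ℤ)) = v - A.D + A.q * A.h by ring,
          ← Int.add_emod_right, Int.emod_eq_of_lt (by omega) (by omega)]
        omega
      rw [e, mul_zero]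
  have r1 : 0 ≤ (A.cfg 0).hor 0 (x - A.k0) * (A.cfg 0).ver 0 v :=
    mul_nonneg (ph_nonneg _ _ _ _) (ph_nonneg _ _ _ _)
  omega

/-- a rectangle of class `< t` has no left neighbour on its rows -/
theorem noleft (h : WR A T) {c s j v : ℤ} (hc : A.Pt c s) (hi : A.ix s < T.t) (a : A.Cx j c)
    (b : A.Rw j v) (b' : A.Rw s v) : False := by
  obtain ⟨y, hy, y0, y1⟩ := Cx.lift a hc.dvd
  have p5 := A.p5
  obtain ⟨s', hs', hcs, u0, u1⟩ := hc.Rw_row b'
  obtain ⟨j', hj', hyj, v0, v1⟩ := hy.Rw_row b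
  obtain ⟨-, hix⟩ := h.gap hcs hyj (by omega) (by omega) (by omega) (by omega)
  have he : A.ix s' = A.ix s := by
    unfold ix
    apply emod_congr
    rw [← mul_sub]
    exact hs'.mul_left _
  have := A.ix_nonneg j'
  omega

end WR

end TAp

end Pool.Agent.H78.Tie
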