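import Pool.Agent.H78.Tie.W.HCu
import Pool.Agent.H78.Tie.W.Fsum
import Pool.Agent.H78.Tie.W.Win

/-! # HCf -/

namespace Pool.Agent.H78.Tie

open Finset
open Pool.Agent.H98.Flat
open Pool.Agent.H67.Flat

set_option linter.dupNamespace false
set_option linter.unusedVariables false

namespace TAp

variable {A : TAp}

private theorem HCf_gap {a b : ℤ} (ha : (A.p : ℤ) ∣ a) (hb : (A.p : ℤ) ∣ b) (h : a < b) :
    a + A.p ≤ b := by
  have := Int.le_of_dvd (by omega) (dvd_sub hb ha)
  omega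

theorem HC.false {T : A.Tie} {n : ℤ} (c : HC A T n) : False := by
  have wr := c.wr
  have hsz := wr.sz
  have hW := A.W1_bd
  have hN := A.NN_pos
  have hDH := A.D_H'
  have hH := A.Col_H
  have hk0 := A.k0c
  have bt := c.bt
  have n1 := c.n1
  have hβ := bt.pb
  have hb0 := bt.b0
  have hb1 := bt.b1
  have hnW : 1 * A.W1 ≤ n * A.W1 := mul_le_mul_of_nonneg_right n1 (by omega)
  have hWq : A.W1 = A.q * A.w + A.sg := rfl
  have hsg := A.hsg
  have hpkt := wr.pkt (n := n) (by omega) c.hn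
  have hixh : A.ix A.h = A.p - n * T.t := by rw [c.hh]; exact hpkt.2
  obtain ⟨x, hx, x0, x1⟩ := c.u1
  have hxβ : x + A.p ≤ A.D - n * A.W1 := HCf_gap hx.dvd hβ.dvd x1
  have hβ0 : A.Pt (A.D - n * A.W1) (0 + A.h) := by rwa [zero_add]
  -- `f` is full at `v0`
  have hPk : ∀ k, 0 ≤ k → k < 0 + (A.w : ℤ) → A.Pk k (x + A.p - A.k0) = 1 := by
    intro k k0 k1
    rcases k0.eq_or_lt with hk | hk
    · rw [← hk]
      apply Pk_one (x := 0) (z := A.D - n * A.W1) (Pt.zero A) hβ0 (by omega)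
      · rw [mul_zero]; omega
      · rw [mul_zero]; omega
    · obtain ⟨y, hy, y0, y1⟩ := bt.B1 hk (by omega)
      have hixk := c.ixk hk (by omega)
      have hadd := (hβ.add' hy (by omega)).1
      have hz : A.Pt (y - n * A.W1 + A.NN) (k + A.h) := hadd.congr (by
        rw [show A.D - n * A.W1 + y - A.D - (y - n * A.W1 + A.NN) = -A.NN by ring]
        exact dvd_neg.2 dvd_rfl) (by rw [show (A.h : ℤ) + k - (k + A.h) = 0 by ring]; exact dvd_zero _)
      have hqk : (A.q : ℤ) * 1 ≤ A.q * k := ql (by omega)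
      have hqk' : (A.q : ℤ) * (k + 1) ≤ A.q * A.w := ql (by omega)
      have e1 : (A.q : ℤ) * (k + 1) = A.q * k + A.q := by ring
      rw [mul_one] at hqk
      rcases le_or_gt (y + A.q * k) (x + A.p - A.k0) with hv | hv
      · exact Pk_one hy hz (by omega) hv (by omega)
      · have h1 : ¬ (y - n * A.W1 ≤ x) := fun h =>
          c.u2 hk (by omega) hx x0 x1 hy y0 y1 h (by omega)
        have hdn : (A.p : ℤ) ∣ y - n * A.W1 := dvd_sub hy.dvd (A.p_W1.mul_left n)
        have h2 := HCf_gap hx.dvd hdn (by omega)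
        have h3 : A.Pk k (x + A.p - A.k0 + A.NN) = 1 :=
          Pk_one hy hz (by omega) (by
            rcases hsg with h | h <;> rw [h] at hWq <;> omega) (by omega)
        rw [← h3]
        exact Pk_cong (by simp) (by
          rw [show x + A.p - A.k0 - (x + A.p - A.k0 + A.NN) = -A.NN by ring]
          exact dvd_neg.2 dvd_rfl)
  have hf : A.fv 0 (x + A.p - A.k0) = A.w := fv_full hPk
  have hpu : (A.p : ℤ) ∣ x + A.p := dvd_add hx.dvd dvd_rfl
  have hg := A.gid' (y := 0) (x := x + A.p) (θ := 0) le_rfl (by omega)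
  rw [mul_zero, add_zero, sub_zero] at hg
  have hq3 : (A.q : ℤ) * 2 ≤ A.q * (A.h - 1) := ql (by omega)
  have e2 : (A.q : ℤ) * (A.h - 1) = A.q * A.h - A.q := by ring
  have hR := Rv_of (hx.Cx hpu (by omega) (by omega))
    (hx.Rw (v := x + A.p - A.k0) (by omega) (by omega))
  obtain ⟨_, _, _, hs⟩ := wr.single (v0 := A.D - n * A.W1) (v1 := A.NN) hpu (by omega) (by
    intro v v0 v1
    have h4 := (wr.Fb hpu 0 v).1
    have h5 : A.Pk 0 v = 0 := Pk_zero (Pt.zero A) hβ0 (by omega) (by rw [mul_zero]; omega)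
      (by rw [mul_zero]; omega)
    have h6 : A.fv 0 v ≤ A.w - 1 := fv_lt (le_refl 0) (by omega) h5
    omega)
  omega

end TAp

end Pool.Agent.H78.Tie
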