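import Pool.Agent.H78.Tie.W.II7

/-! # II9

Case II, end.
(1) II8: f is constant (= w, II7) on [cp - k0, D): f_const (H67.NP.Fun, y = 0): no event Ev 0 v k with cp - k0 < v < D:
  T event (0 <= k < w, v = V k mod N): k = 0: v = 0 mod N: no.  k >= 1: II5: V k in (D, tp) mod N, v in (0,D): no.
  B event (row j = h + k, 0 <= k < w, v = V j - q h mod N): k = 0: v is a lift of row h in [0,N): II2: v > D: no.  k >= 1: x := v - q k is a lift of row h + k.
   x >= cp: chain n (x < D - q k): delta := x - (D - n W1) in [0, W1 - p], heights delta + q (h + k - n sig) against row n sig: < q h: n = 1: delta < W1 - q k (x < D - q k) and W1 < q sig; n >= 2: delta < W1 and n sig - k >= 2 sig - k >= w + 3;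
    > - q h: n sig <= S < h.  dj: p | h + k - n sig: 0 < h + k - n sig < p: no.
   x < cp: x > cp - k0 - q k, |x - cp| <= q (w-1) + 1 < W1 (p | x - cp); against row S: heights (x + q (h+k)) - tp = (v - cp) + q (h - S): > - k0 + q > 0 ; < q h since v - cp < q k < q S (v = x + q k, x < cp): dj: p | h + k - S: no.
(2) x1 := W1 + p <= D (cp0, cp >= p), v1 := x1 - k0 in [cp - k0, D): fv 0 v1 = w (II8).  Row S covers (x1, v1): cp < x1 <= cp + W1 (p <= cp < W1); RwS: tp - q h = cp + q (S - h) <= v1 < D < tp.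
   gid' (y = 0, theta = 0): gv 0 x1 = Rv x1 v1 + fv 0 v1 >= 1 + w.  fv 0 (-1) <= w - 1: Pk 0 (-1) = 0: Pk_zero with the lifts 0 (row 0), beta (row h, II4 / II2: beta < N) at v = N - 1 in [beta, N), Pk_cong; fv_lt.
   Fb (x1, v = -1): Rv x1 (-1) >= gv - 1 - fv >= 1: row i: Cx i x1, Rw i (-1); lift y (y + p <= x1 <= y + W1, Cx.lift), representative s with y + q s - q h <= -1 < y + q s (Rw_row).  V := y + q s.
(3) -1 is not a row of row S: tp - q h > 0 (II1), tp + .. < N (RwS').  So i <> S.  V <= v1: otherwise V - q h <= -1 < v1 < V: Rw i v1 and uniq at (x1, v1): i = S: no.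
   Row -sig (lift W1, Pt1) covers x1; rows [sg - q xi - q h, sg - q xi) (xi = -x >= 1, W1 - q sig = sg - q xi <= 1 - q < -1): -1 is not a row (not_Rw).  V - q h >= sg - q xi: otherwise the row v2 := sg - q xi - 1 satisfies
   V - q h <= v2 < V (V > -1) and v2 is a row of -sig: uniq at (x1, v2): i = -sig: but then Rw (-sig) (-1).  no.
   So q h + sg - q xi <= V <= v1 = W1 + p - k0: q h <= q (w + xi) + p - k0 = q sig + p - k0 < q (sig + 1): h <= sig <= S < h: False.
-/

namespace Pool.Agent.H78.Tie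

open Finset
open Pool.Agent.H98.Flat
open Pool.Agent.H67.Flat

set_option linter.dupNamespace false
set_option linter.unusedVariables false

namespace TAp

variable {A : TAp}

namespace V1

variable {T : A.Tie} {L : ℤ}

theorem II8 (v : V1 A T L) (hc : A.cp L < A.W1) {b : ℤ} (b0 : A.cp L - A.k0 ≤ b) (b1 : b < A.D) :
    A.fv 0 b = A.w := by
  rw [← v.II7 hc]
  have hN := v.tpN hc
  have hD := v.tpD
  have hw := v.wr.sz
  have hP := v.Pc
  obtain ⟨c0, c1⟩ := v.cp0
  obtain ⟨s1, s2, s3⟩ := v.Sb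
  have hW := A.W1_bd
  have hWd : A.W1 = A.q * A.w + A.sg := rfl
  have hH := A.Col_H
  have hk0 := A.k0c
  have hD0 := A.D_pos
  have hS := v.hS' hc
  have ht : A.tp T L = A.cp L + A.q * (L * T.sig) := rfl
  have hcp : (A.p : ℤ) ≤ A.cp L := Int.le_of_dvd c0 hP.dvd
  apply f_const b0
  rintro u k u0 u1 (⟨k0, k1, hd⟩ | ⟨k0, k1, hd⟩)
  · rw [zero_add] at k1
    rcases lt_or_eq_of_le k0 with k0 | rfl
    · obtain ⟨x, hx, x0, x1⟩ := v.II5 hc k0 k1
      have h1 := dvd_add hd (dvd_neg.2 hx.V)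
      rw [show u - A.V k + -(x + A.q * k - A.V k) = u - (x + A.q * k) by ring] at h1
      have := eq_of_dvd h1 (by omega) (by omega)
      omega
    · rw [V_eq, U_zero', mul_zero, add_zero, sub_zero] at hd
      have := Int.le_of_dvd (by omega) hd
      omega
  · rw [zero_add] at k0 k1
    obtain ⟨j, rfl⟩ : ∃ j, k = A.h + j := ⟨k - A.h, by ring⟩
    have hx : A.Pt (u - A.q * j) (A.h + j) := by
      unfold Pt
      rwa [V_eq, show u - (A.U (A.h + j) + A.q * (A.h + j) - A.q * A.h)
        = u - A.q * j - A.U (A.h + j) by ring] at hd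
    rcases lt_or_eq_of_le (show 0 ≤ j by omega) with j0 | rfl
    · have hj : (A.q : ℤ) * j + A.q ≤ A.q * A.w := ql1 (by omega)
      have hj' : (A.q : ℤ) * 0 + A.q ≤ A.q * j := ql1 (by omega)
      have he : (A.q : ℤ) * (A.h + j) = A.q * A.h + A.q * j := by ring
      rw [mul_zero] at hj'
      by_cases hxc : A.cp L ≤ u - A.q * j
      · obtain ⟨n, n0, n1, n2, n3⟩ := v.chain hx.dvd hxc (by omega)
        obtain ⟨m1, m2, m3⟩ := v.chpt n0 n1
        have q1 : (A.q : ℤ) * (A.w + 1) ≤ A.q * T.sig := ql (by omega)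
        have q2 : (A.q : ℤ) * (n * T.sig) + A.q ≤ A.q * A.h := ql1 (by omega)
        rw [mul_add, mul_one] at q1
        have q3 : u - A.q * j - (A.D - n * A.W1) + A.q * j < A.q * (n * T.sig) := by
          rcases lt_or_eq_of_le n0 with n0 | rfl
          · have : (A.q : ℤ) * (2 * T.sig) ≤ A.q * (n * T.sig) := by
              apply ql
              apply mul_le_mul_of_nonneg_right (by omega) (by omega)
            rw [show (A.q : ℤ) * (2 * T.sig) = 2 * (A.q * T.sig) by ring] at this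
            have hsg := A.hsg
            omega
          · rw [one_mul] at n2 n3 ⊢
            have hsg := A.hsg
            rw [one_mul]
            omega
        have hdv := v.wr.dj hx m1 (by omega) (by omega) (by omega) (by omega)
        exact ndp (A := A) (s := A.h + j - n * T.sig) (by omega) (by omega) (by omega) hdv
      · have q2 : (A.q : ℤ) * (L * T.sig) + A.q ≤ A.q * A.h := ql1 (by omega)
        have hsg := A.hsg
        have hdv := v.wr.dj hx hP (by omega) (by omega) (by omega) (by omega)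
        exact ndp (A := A) (s := A.h + j - L * T.sig) (by omega) (by omega) (by omega) hdv
    · rw [mul_zero, sub_zero, add_zero] at hx
      have := v.II2 hc hx (by omega) (by omega)
      omega

theorem II9 (v : V1 A T L) (hc : A.cp L < A.W1) : False := by
  have hN := v.tpN hc
  have hD := v.tpD
  have h1 := v.II1 hc
  have hw := v.wr.sz
  have hP := v.Pc
  obtain ⟨c0, c1⟩ := v.cp0
  obtain ⟨s1, s2, s3⟩ := v.Sb
  have hW := A.W1_bd
  have hWd : A.W1 = A.q * A.w + A.sg := rfl
  have hsg := A.hsg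
  have hH := A.Col_H
  have hk0 := A.k0c
  have hD0 := A.D_pos
  have ht : A.tp T L = A.cp L + A.q * (L * T.sig) := rfl
  have hcp : (A.p : ℤ) ≤ A.cp L := Int.le_of_dvd c0 hP.dvd
  have hx1 : (A.p : ℤ) ∣ A.W1 + A.p := dvd_add A.p_W1 dvd_rfl
  have hsgm : T.sig = A.w - T.x := rfl
  have q0 : (A.q : ℤ) * (L * T.sig) + A.q ≤ A.q * A.h := ql1 (by omega)
  have q1 : (A.q : ℤ) * (A.w + 1) ≤ A.q * T.sig := ql (by omega)
  have q2 : (A.q : ℤ) * T.sig ≤ A.q * A.h := ql (by omega)
  rw [mul_add, mul_one] at q1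
  have h8 := v.II8 hc (b := A.W1 + A.p - A.k0) (by omega) (by omega)
  have hR : 1 ≤ A.Rv (A.W1 + A.p) (A.W1 + A.p - A.k0) := by
    apply Rv_of (k := L * T.sig)
    · exact hP.Cx hx1 (by omega) (by omega)
    · exact v.RwS (by omega) (by omega)
  have hg := A.gid' (y := 0) (x := A.W1 + A.p) (θ := 0) le_rfl (by omega)
  rw [mul_zero, add_zero, sub_zero] at hg
  -- `fv 0 (-1) ≤ w - 1`
  have hf : A.fv 0 (-1) ≤ A.w - 1 := by
    obtain ⟨β, hβ, b0, b1⟩ := Pt.ex A A.h 0
    rw [zero_add] at b1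
    have hz : A.Pt β (0 + A.h) := by rw [zero_add]; exact hβ
    have := Pk_zero (v := A.NN - 1) (Pt.zero A) hz b0 (by rw [mul_zero]; omega)
      (by rw [mul_zero]; omega)
    apply fv_lt (k := 0) le_rfl (by omega)
    exact (Pk_cong (by simp) (by rw [show (-1 : ℤ) - (A.NN - 1) = -A.NN by ring]; simp)).trans
      this
  obtain ⟨hF, -⟩ := v.wr.Fb hx1 0 (-1)
  obtain ⟨i, hi, hi'⟩ := Rv_ex (A := A) (x := A.W1 + A.p) (v := -1) (by omega)
  obtain ⟨y, hy, y0, y1⟩ := Cx.lift hi hx1
  obtain ⟨s, hs, hys, r0, r1⟩ := hy.Rw_row hi'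
  have his : (A.p : ℤ) ∣ i - s := by rw [← dvd_neg, neg_sub]; exact hs
  have hsC : A.Cx s (A.W1 + A.p) := Cx_congr his (by simp) hi
  have hsR : A.Rw s (-1) := Rw_congr his (by simp) hi'
  -- `-1` is not a row of row `S`
  have hSR : ¬ A.Rw (L * T.sig) (-1) := by
    intro h
    obtain ⟨z, z0, z1⟩ := v.RwS' h
    have a0 : 0 < A.NN * z := by omega
    have a1 : A.NN * z < A.NN * 1 := by omega
    have b0 : 0 < z := by
      by_contra hz
      have := mul_le_mul_of_nonneg_left (show z ≤ 0 by omega) (show 0 ≤ A.NN by omega)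
      omega
    have b1 := lt_of_mul_lt_mul_left a1 (show 0 ≤ A.NN by omega)
    omega
  have hV1 : y + A.q * s ≤ A.W1 + A.p - A.k0 := by
    by_contra hV
    apply hSR
    have hr : A.Rw s (A.W1 + A.p - A.k0) := hys.Rw (by omega) (by omega)
    have := v.wr.uniq hx1 hsC hr (hP.Cx hx1 (by omega) (by omega))
      (v.RwS (b := A.W1 + A.p - A.k0) (by omega) (by omega))
    exact Rw_congr this (by simp) hsR
  have hP1 := v.wr.Pt1
  have hq : A.q * -T.sig = -(A.q * T.sig) := by ring
  have hn1 : ¬ A.Rw (-T.sig) (-1) := hP1.not_Rw (by omega) (by omega)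
  have hV2 : A.W1 + A.q * -T.sig ≤ y + A.q * s - A.q * A.h := by
    by_contra hV
    apply hn1
    have hr : A.Rw s (A.W1 + A.q * -T.sig - 1) := hys.Rw (by omega) (by omega)
    have hr' : A.Rw (-T.sig) (A.W1 + A.q * -T.sig - 1) := hP1.Rw (by omega) (by omega)
    have := v.wr.uniq hx1 hsC hr (hP1.Cx hx1 (by omega) (by omega)) hr'
    exact Rw_congr this (by simp) hsR
  have : (A.q : ℤ) * A.h < A.q * T.sig + A.q := by omega
  have := qle this
  omega

end V1

end TAp

end Pool.Agent.H78.Tie
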