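import Pool.Agent.H78.Tie.W.Pack

/-! # V1b

Basic facts of V1.  S := L sig, cp := D - L W1 (lift of row S), tp := cp + q S = D + L (q xi - sg), xi = -T.x (sig = w + xi, W1 = q w + sg).
Pc: pkt with n = L.  ixc: ix S = p - L t < t.
cp0: let n be the least natural number with D < n W1 ; suppose n <= L.  n >= 1, (n-1) W1 < D (<> by neD-like: D = n W1 would make the lift of row n sig (pkt) 0: ne0; n - 1 = 0: D > 0).
 x := D - n W1 in (-W1, 0), row n sig (pkt): |x| < q w (multiples of p), x + q n sig: < q S <= q h.., > -q h: nov0: p | n sig + sig = (n+1) sig; 0 < (n+1) sig <= h + sig - 1.. < p: False.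
 So D >= L W1, <> : 0 < cp.
cpne: cp = W1: rows S and -sig have the same lift: Pt.row: p | S + sig, 0 < S + sig < 2h < p.  False.
nle: n t < p < (L+1) t.
chain: for p | y, cp <= y < D take n := (D - y + W1 - p) / W1 ... i.e. n = ceil((D-y)/W1): D - n W1 <= y, y + p <= D - (n-1) W1; 1 <= n <= L.
nochain: a row s with lift y in [cp, D) which shares a row with the chain element n (row n sig, lift D - n W1) equals it: `dj`.
tpD: tp - D = L (q xi - sg) > 0; tp < D + q h: tp - D = q S - L W1 < q h.  tpne: tp = q h would give p | q (h - S).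
II1: cp < W1: nov0 for row S, lift cp (0 < cp < q w): if cp + q S < q h then p | S + sig: no.
hS' : cp < W1: h - S < w  (q (h - S) < cp <= W1 - p < q w).  tpN: cp < W1: tp + q h < N (tp <= W1 - p + q (h-1); `WR.pk`: 2h + w <= p + 1).
-/

namespace Pool.Agent.H78.Tie

open Finset
open Pool.Agent.H98.Flat
open Pool.Agent.H67.Flat

set_option linter.dupNamespace false
set_option linter.unusedVariables false

namespace TAp

variable {A : TAp}

namespace V1

variable {T : A.Tie} {L : ℤ}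

theorem V1b_W (A : TAp) : A.W1 = A.q * A.w + 1 ∨ A.W1 = A.q * A.w - 1 := by
  rcases A.hsg with h | h
  · left; unfold W1; omega
  · right; unfold W1; omega

theorem Pc (v : V1 A T L) : A.Pt (A.cp L) (L * T.sig) :=
  (v.wr.pkt (by have := v.L1; omega) v.hL).1

theorem Sb (v : V1 A T L) : (A.w : ℤ) < L * T.sig ∧ T.sig ≤ L * T.sig ∧ L * T.sig < A.h := by
  obtain ⟨w2, wh, wp, hp, pq, q6, p5, ws, sh, t0, tp⟩ := v.wr.sz
  have h1 := v.L1
  have h2 : T.sig ≤ L * T.sig := by nlinarith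
  exact ⟨by omega, h2, v.hS⟩

theorem ixc (v : V1 A T L) : A.ix (L * T.sig) = A.p - L * T.t ∧ A.ix (L * T.sig) < T.t ∧
    ¬ (A.p : ℤ) ∣ L * T.sig := by
  obtain ⟨w2, wh, wp, hp, pq, q6, p5, ws, sh, t0, tp⟩ := v.wr.sz
  obtain ⟨s1, s2, s3⟩ := v.Sb
  have h1 := (v.wr.pkt (by have := v.L1; omega) v.hL).2
  have h2 := v.hL'
  rw [add_mul, one_mul] at h2
  exact ⟨h1, by omega, ndp (by omega) (by omega) (by omega)⟩

theorem V1b_mul (v : V1 A T L) {n : ℤ} (n0 : 1 ≤ n) (n1 : n ≤ L) :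
    n * T.t < A.p ∧ T.sig ≤ n * T.sig ∧ n * T.sig ≤ L * T.sig := by
  obtain ⟨w2, wh, wp, hp, pq, q6, p5, ws, sh, t0, tp⟩ := v.wr.sz
  have h1 := v.hL
  have h2 : n * T.t ≤ L * T.t := mul_le_mul_of_nonneg_right n1 t0.le
  have h3 : n * T.sig ≤ L * T.sig := mul_le_mul_of_nonneg_right n1 (by omega)
  have h4 : 1 * T.sig ≤ n * T.sig := mul_le_mul_of_nonneg_right n0 (by omega)
  rw [one_mul] at h4
  exact ⟨by omega, h4, h3⟩

theorem V1b_ind (v : V1 A T L) (n : ℕ) (hn : (n : ℤ) ≤ L) : n * A.W1 < A.D := by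
  obtain ⟨w2, wh, wp, hp, pq, q6, p5, ws, sh, t0, tp⟩ := v.wr.sz
  obtain ⟨s1, s2, s3⟩ := v.Sb
  induction n with
  | zero => simpa using A.D_pos
  | succ n ih =>
    have h1 := ih (by push_cast at hn; omega)
    by_contra hc
    obtain ⟨m1, m2, m3⟩ := v.V1b_mul (n := ((n + 1 : ℕ) : ℤ)) (by push_cast; omega) hn
    have hP := (v.wr.pkt (n := ((n + 1 : ℕ) : ℤ)) (by push_cast; omega) m1).1
    have e1 : ((n + 1 : ℕ) : ℤ) * A.W1 = n * A.W1 + A.W1 := by push_cast; ring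
    set m : ℤ := ((n + 1 : ℕ) : ℤ) with hm
    rw [e1] at hc
    have hnd : ¬ (A.p : ℤ) ∣ m * T.sig := ndp (by omega) (by omega) (by omega)
    have hne := hP.ne0 hnd
    rw [e1] at hne hP
    have hx0 : A.D - (n * A.W1 + A.W1) ≠ 0 := fun h0 => hne (by rw [h0]; exact dvd_zero _)
    have hW := V1b_W A
    have hg : -A.W1 + A.p ≤ A.D - (n * A.W1 + A.W1) := by
      by_contra hlt
      have := dvd_gap hP.dvd ((dvd_neg).2 A.p_W1) (by omega)
      omega
    have e2 := ql (A := A) (a := m * T.sig) (b := A.h) (by omega)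
    have e3 := ql (A := A) (a := 0) (b := m * T.sig) (by omega)
    have e4 := ql1 (A := A) (a := A.w) (b := A.h) (by omega)
    rw [mul_zero] at e3
    have := v.wr.nov0 hP hnd (by omega) (by omega) (by omega) (by omega)
    exact ndp (A := A) (s := m * T.sig + T.sig) (by omega) (by omega) (by omega) this

theorem cp0 (v : V1 A T L) : 0 < A.cp L ∧ A.cp L + A.W1 ≤ A.D := by
  have h1 := v.L1
  have hW := A.W1_bd
  have hq := A.q6
  obtain ⟨n, rfl⟩ := Int.eq_ofNat_of_zero_le (a := L) (by omega)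
  have h2 := v.V1b_ind n le_rfl
  have h3 : 1 * A.W1 ≤ n * A.W1 := mul_le_mul_of_nonneg_right h1 (by omega)
  unfold cp
  constructor <;> omega

theorem cpne (v : V1 A T L) : A.cp L ≠ A.W1 := by
  intro h
  obtain ⟨w2, wh, wp, hp, pq, q6, p5, ws, sh, t0, tp⟩ := v.wr.sz
  obtain ⟨s1, s2, s3⟩ := v.Sb
  have h1 := v.Pc
  rw [h] at h1
  have := h1.row v.wr.Pt1
  exact ndp (A := A) (s := L * T.sig - -T.sig) (by omega) (by omega) (by omega) this

theorem nle (v : V1 A T L) {n : ℤ} (hn : n * T.t < A.p) : n ≤ L := by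
  obtain ⟨w2, wh, wp, hp, pq, q6, p5, ws, sh, t0, tp⟩ := v.wr.sz
  have h1 := v.hL'
  have h2 : n * T.t < (L + 1) * T.t := by omega
  have := lt_of_mul_lt_mul_right h2 t0.le
  omega

theorem V1b_ch (A : TAp) {y : ℤ} (y1 : y < A.D) (n : ℕ) (hn : A.D - n * A.W1 ≤ y) :
    ∃ m : ℤ, 1 ≤ m ∧ m ≤ n ∧ A.D - m * A.W1 ≤ y ∧ y < A.D - m * A.W1 + A.W1 := by
  induction n with
  | zero => exfalso; simp at hn; omega
  | succ n ih =>
    by_cases h : A.D - n * A.W1 ≤ y
    · obtain ⟨m, m1, m2, m3, m4⟩ := ih h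
      exact ⟨m, m1, by push_cast; omega, m3, m4⟩
    · have e1 : ((n + 1 : ℕ) : ℤ) * A.W1 = n * A.W1 + A.W1 := by push_cast; ring
      refine ⟨((n + 1 : ℕ) : ℤ), by push_cast; omega, le_rfl, hn, ?_⟩
      rw [e1]; omega

/-- the chain covers `[cp, D)` -/
theorem chain (v : V1 A T L) {y : ℤ} (hy : (A.p : ℤ) ∣ y) (y0 : A.cp L ≤ y) (y1 : y < A.D) :
    ∃ n, 1 ≤ n ∧ n ≤ L ∧ A.D - n * A.W1 ≤ y ∧ y + A.p ≤ A.D - n * A.W1 + A.W1 := by
  have h1 := v.L1
  obtain ⟨n, rfl⟩ := Int.eq_ofNat_of_zero_le (a := L) (by omega)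
  obtain ⟨m, m1, m2, m3, m4⟩ := V1b_ch A y1 n y0
  refine ⟨m, m1, m2, m3, ?_⟩
  by_contra hc
  have hd : (A.p : ℤ) ∣ A.D - m * A.W1 + A.W1 :=
    dvd_add (dvd_sub A.p_D (A.p_W1.mul_left _)) A.p_W1
  have := dvd_gap hd hy (by omega)
  omega

theorem chpt (v : V1 A T L) {n : ℤ} (n0 : 1 ≤ n) (n1 : n ≤ L) :
    A.Pt (A.D - n * A.W1) (n * T.sig) ∧ T.sig ≤ n * T.sig ∧ n * T.sig ≤ L * T.sig := by
  obtain ⟨m1, m2, m3⟩ := v.V1b_mul n0 n1
  exact ⟨(v.wr.pkt (by omega) m1).1, m2, m3⟩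

theorem tp_eq (v : V1 A T L) : A.tp T L = A.D + L * (A.q * -T.x - A.sg) := by
  unfold tp cp Tie.sig W1
  ring

theorem tpD (v : V1 A T L) : A.D < A.tp T L ∧ A.tp T L < A.D + A.q * A.h := by
  obtain ⟨w2, wh, wp, hp, pq, q6, p5, ws, sh, t0, tp0⟩ := v.wr.sz
  have h1 := v.L1
  have hx := v.wr.x0
  constructor
  · rw [v.tp_eq]
    have e1 := ql (A := A) (a := 1) (b := -T.x) (by omega)
    have hsg := A.hsg
    have e2 : 0 < A.q * -T.x - A.sg := by
      rcases hsg with h | h <;> rw [h] <;> omega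
    have := mul_pos (show 0 < L by omega) e2
    omega
  · have e1 := ql1 (A := A) (a := L * T.sig) (b := A.h) (by have := v.hS; omega)
    have hW := A.W1_bd
    have h3 : 1 * A.W1 ≤ L * A.W1 := mul_le_mul_of_nonneg_right h1 (by omega)
    unfold tp cp
    omega

theorem tpne (v : V1 A T L) : A.tp T L ≠ A.q * A.h := by
  intro h
  have h1 := v.Pc.V
  have h2 := VHne (A := A) 0 (L * T.sig)
  apply h2
  have h3 : A.V 0 = 0 := by rw [V_eq, U_zero']; ring
  rw [h3]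
  have h4 : A.cp L + A.q * (L * T.sig) = A.q * A.h := h
  rw [h4] at h1
  have e : 0 - (A.V (L * T.sig) - A.q * A.h) = A.q * A.h - A.V (L * T.sig) := by ring
  rw [e]; exact h1

theorem V1b_cW (v : V1 A T L) (hc : A.cp L < A.W1) : A.cp L + A.p ≤ A.W1 := by
  by_contra hlt
  have := dvd_gap A.p_W1 v.Pc.dvd (by omega)
  omega

theorem II1 (v : V1 A T L) (hc : A.cp L < A.W1) : A.q * A.h < A.tp T L := by
  obtain ⟨w2, wh, wp, hp, pq, q6, p5, ws, sh, t0, tp⟩ := v.wr.sz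
  obtain ⟨s1, s2, s3⟩ := v.Sb
  obtain ⟨c0, c1⟩ := v.cp0
  have hW := V1b_W A
  have hg := v.V1b_cW hc
  by_contra hlt
  have hne := v.tpne
  have e1 := ql (A := A) (a := 0) (b := L * T.sig) (by omega)
  have e2 := ql (A := A) (a := 0) (b := A.h) (by omega)
  have e3 := ql (A := A) (a := 0) (b := A.w) (by omega)
  rw [mul_zero] at e1 e2 e3
  have htp : A.tp T L = A.cp L + A.q * (L * T.sig) := rfl
  have := v.wr.nov0 v.Pc v.ixc.2.2 (by omega) (by omega) (by omega) (by omega)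
  exact ndp (A := A) (s := L * T.sig + T.sig) (by omega) (by omega) (by omega) this

theorem hS' (v : V1 A T L) (hc : A.cp L < A.W1) : (A.h : ℤ) - L * T.sig < A.w := by
  obtain ⟨w2, wh, wp, hp, pq, q6, p5, ws, sh, t0, tp⟩ := v.wr.sz
  have hW := V1b_W A
  have hg := v.V1b_cW hc
  have h1 := v.II1 hc
  have htp : A.tp T L = A.cp L + A.q * (L * T.sig) := rfl
  apply qlt (A := A)
  rw [mul_sub]
  omega

theorem tpN (v : V1 A T L) (hc : A.cp L < A.W1) : A.tp T L + A.q * A.h < A.NN := by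
  obtain ⟨w2, wh, wp, hp, pq, q6, p5, ws, sh, t0, tp⟩ := v.wr.sz
  obtain ⟨s1, s2, s3⟩ := v.Sb
  have hW := V1b_W A
  have hg := v.V1b_cW hc
  have htp : A.tp T L = A.cp L + A.q * (L * T.sig) := rfl
  have hpk := v.wr.pk
  have e1 := ql1 (A := A) (a := L * T.sig) (b := A.h) (by omega)
  have e2 := ql (A := A) (a := 2 * (A.h : ℤ) + A.w) (b := A.p + 1) (by omega)
  have hN := A.NNqp
  rw [mul_add, mul_add, mul_one, mul_left_comm] at e2
  omega

/-- membership in the rows of row `S` -/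
theorem RwS (v : V1 A T L) {b : ℤ} (b0 : A.tp T L - A.q * A.h ≤ b) (b1 : b < A.tp T L) :
    A.Rw (L * T.sig) b := v.Pc.Rw b0 b1

theorem RwS' (v : V1 A T L) {b : ℤ} (h : A.Rw (L * T.sig) b) :
    ∃ z, A.tp T L - A.q * A.h ≤ b + A.NN * z ∧ b + A.NN * z < A.tp T L := by
  obtain ⟨δ, d0, d1, hd⟩ := h.off
  have h1 : A.NN ∣ A.tp T L - A.V (L * T.sig) := v.Pc.V
  have h2 : A.NN ∣ (A.tp T L - δ) - b := by
    have := dvd_sub h1 hd
    rwa [show A.tp T L - A.V (L * T.sig) - (b - (A.V (L * T.sig) - δ)) = (A.tp T L - δ) - b by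
      ring] at this
  obtain ⟨z, hz⟩ := h2
  exact ⟨z, by omega, by omega⟩

end V1

end TAp

end Pool.Agent.H78.Tie
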