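import Pool.Agent.H78.Tie.W.Cov
import Pool.Agent.H78.Tie.W.V1b

/-! # In2

V1 with row h inside (Bt) and q h < tp.  alpha1 := lift of row 1 in (0, D - W1] (B1, k = 1 < w).  Since p < (L+1) t <= 2 L t: ix 1 < L t or p - ix 1 < L t.
(A) ix 1 < L t.  alpha1 >= L W1: otherwise n := alpha1 / W1 in [0, L-1], 0 <= alpha1 - n W1 <= W1 - p: row 1 against row -n sig (kt; lift n W1; for n = 0 row 0 lift 0):
  dj: heights alpha1 + q - (n W1 - q n sig) = (alpha1 - n W1) + q (1 + n sig) < W1 + q (1 + S - sig) <= .. < q h, > 0: p | 1 + n sig: 0 < 1 + n sig < p: False.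
  Pt.add: ix S + ix 1 = p - L t + ix 1 < p: row S + 1 has lift x := cp + alpha1 >= D, > D (neD), < N (x <= D - L W1 + D - W1, D2).
  S + 1 = h: x = beta (mod N): x in (D,N), beta in (0,D): False (Pt.eq).  S + 1 < h: cov with i = 1, k = 1, Y0 = 0, b = alpha1 + q: Rw (S+1) b.
  But x + q (S+1) - q h = b + (tp - q h) > b and x + q (S+1) <= N + b (cp + q S = tp < D + q h < N): not_Rw (applied to b + N or b; use Rw_congr) : False.
(B) p - ix 1 < L t: row -1: lift a' := D - alpha1 (neg), ix (-1) = p - ix 1.  a' >= L W1: otherwise n := a' / W1, row -1 against -n sig: heights a' - q - (n W1 - q n sig) = (a' - n W1) + q (n sig - 1), in (-q h, q h): dj: p | n sig - 1 : n = 0: p | 1 no; n >= 1: 0 < n sig - 1 < p no.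
  Row S - 1: lift x := cp + a' > D, < N.  Level Y0 = -1: S - 1 >= -1 + w, S - 1 < -1 + h.  cov with i = -1, k = -1, b = a' - q (> 0 since a' >= L W1 >= W1 > q; < D): Rw (S-1) b.
  x + q (S-1) - q h = b + (tp - q h) > b, x + q (S-1) = b + tp < b + N: False.
-/

namespace Pool.Agent.H78.Tie

open Finset
open Pool.Agent.H98.Flat
open Pool.Agent.H67.Flat

set_option linter.dupNamespace false
set_option linter.unusedVariables false

namespace TAp

variable {A : TAp}

/-- lower bound for the lifts of the rows `1`, `-1` -/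
theorem In2_lb {T : A.Tie} {L : ℤ} (v : V1 A T L) {a s : ℤ} (ha : A.Pt a s)
    (hs : s = 1 ∨ s = -1) (a0 : 0 < a) : L * A.W1 ≤ a := by
  obtain ⟨w2, wh, wp, hp, pq, q6, p5, ws, sh, t0, tp⟩ := v.wr.sz
  obtain ⟨s1, s2, s3⟩ := v.Sb
  have hL := v.L1
  have hW := V1.V1b_W A
  have hWb := A.W1_bd
  by_contra hc
  have hn0 : 0 ≤ a / A.W1 := Int.ediv_nonneg (by omega) (by omega)
  have hn1 : a / A.W1 < L := by
    apply Int.ediv_lt_of_lt_mul (by omega)
    omega
  have hm0 := Int.emod_nonneg a (show A.W1 ≠ 0 by omega)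
  have hm1 := Int.emod_lt_of_pos a (show 0 < A.W1 by omega)
  have he := Int.emod_add_mul_ediv a A.W1
  set n := a / A.W1 with hn
  set m := a % A.W1 with hm
  have he' : a = m + n * A.W1 := by rw [mul_comm n]; exact he.symm
  have hpm : (A.p : ℤ) ∣ m := by
    have := dvd_sub ha.dvd (A.p_W1.mul_left n)
    rwa [he', add_sub_cancel_right] at this
  have hm2 : m + A.p ≤ A.W1 := by
    by_contra hlt
    have := dvd_gap A.p_W1 hpm (by omega)
    omega
  have hnt : n * T.t ≤ L * T.t := mul_le_mul_of_nonneg_right (by omega) t0.le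
  have hns : n * T.sig ≤ (L - 1) * T.sig := mul_le_mul_of_nonneg_right (by omega) (by omega)
  have hns0 : 0 ≤ n * T.sig := mul_nonneg hn0 (by omega)
  rw [sub_mul, one_mul] at hns
  have hk := (v.wr.kt (n := n) hn0 (by have := v.hL; omega)).1
  have hsb : -1 ≤ s ∧ s ≤ 1 := by omega
  have e1 := ql1 (A := A) (a := n * T.sig + 1 + A.w) (b := A.h + 1) (by omega)
  have e2 := ql (A := A) (a := 0) (b := n * T.sig) (by omega)
  have e3 := ql1 (A := A) (a := 0) (b := A.h) (by omega)
  have e4 := ql1 (A := A) (a := 1) (b := A.h) (by omega)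
  rw [mul_add, mul_add] at e1
  rw [mul_zero] at e2 e3
  rw [mul_one] at e1 e4
  rw [mul_add, mul_one] at e1
  have hqs : A.q * s = A.q ∨ A.q * s = -A.q := by
    rcases hs with h | h
    · left; rw [h, mul_one]
    · right; rw [h, mul_neg, mul_one]
  have hd := v.wr.dj ha hk (by omega) (by omega) (by rw [mul_neg]; omega)
    (by rw [mul_neg]; omega)
  rw [sub_neg_eq_add] at hd
  refine ndp (A := A) (s := s + n * T.sig) ?_ (by omega) (by omega) hd
  intro h0
  rcases lt_or_ge n 1 with h | h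
  · have : n = 0 := by omega
    rw [this, zero_mul] at h0
    omega
  · have : 1 * T.sig ≤ n * T.sig := mul_le_mul_of_nonneg_right h (by omega)
    rw [one_mul] at this
    omega

/-- the end of both cases -/
theorem In2_end {T : A.Tie} {L : ℤ} (v : V1 A T L) (ht : A.q * A.h < A.tp T L) {a s : ℤ}
    (hx : A.Pt (A.cp L + a) (L * T.sig + s)) (hR : A.Rw (L * T.sig + s) (a + A.q * s)) :
    False := by
  have hR' := Rw_congr (A := A) (k := L * T.sig + s) (j := L * T.sig + s) (v := a + A.q * s)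
    (z := a + A.q * s + A.NN) (by rw [sub_self]; exact dvd_zero _)
    (by rw [show a + A.q * s - (a + A.q * s + A.NN) = -A.NN by ring]
        exact (dvd_neg).2 (dvd_refl _)) hR
  have htp : A.tp T L = A.cp L + A.q * (L * T.sig) := rfl
  have h1 := v.tpD
  have h2 := A.D_H'
  refine hx.not_Rw ?_ ?_ hR'
  · rw [mul_add]; omega
  · rw [mul_add]; omega

theorem V1.In2 {T : A.Tie} {L β : ℤ} (v : V1 A T L) (b : Bt A T β) (ht : A.q * A.h < A.tp T L) :
    False := by
  obtain ⟨w2, wh, wp, hp, pq, q6, p5, ws, sh, t0, tp⟩ := v.wr.sz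
  obtain ⟨s1, s2, s3⟩ := v.Sb
  have hL := v.L1
  have hWb := A.W1_bd
  have hD2 := A.D2
  obtain ⟨ix1, ix2, ix3⟩ := v.ixc
  obtain ⟨α, hα, α0, α1⟩ := b.B1 (k := 1) (by omega) (by omega)
  have hn1 : ¬ (A.p : ℤ) ∣ 1 := ndp (by omega) (by omega) (by omega)
  have hcp : A.cp L = A.D - L * A.W1 := rfl
  have hLW : 1 * A.W1 ≤ L * A.W1 := mul_le_mul_of_nonneg_right hL (by omega)
  rw [one_mul] at hLW
  have hαp := A.p5
  rcases lt_or_ge (A.ix 1) (L * T.t) with hA | hA
  · -- (A)
    have hlb := In2_lb v hα (Or.inl rfl) α0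
    obtain ⟨hx, -⟩ := v.Pc.add hα (by omega)
    have hne : A.cp L + α ≠ A.D := by
      intro h
      exact hx.neD (by rw [h, sub_self]; exact dvd_zero _)
    rcases eq_or_ne (L * T.sig + 1) A.h with he | he
    · rw [he] at hx
      have hb0 := b.b0
      have hb1 := b.b1
      have := hx.eq b.pb (by omega) (by omega)
      omega
    · refine In2_end v ht hx ?_
      refine b.cov (i := 1) (k := 1) (Y0 := 0) (Or.inr (Or.inl ⟨rfl, rfl, rfl⟩)) ?_ ?_ ?_ ?_ ?_
        ?_ ?_ hx ?_ ?_
      · rwa [mul_one, add_sub_cancel_right]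
      · rw [mul_one]; omega
      · rw [mul_one]; omega
      · rw [mul_one]; omega
      · rw [mul_one]; omega
      · omega
      · omega
      · omega
      · omega
  · -- (B)
    have hB : A.p - A.ix 1 < L * T.t := by
      have h1 := v.hL'
      rw [add_mul, one_mul] at h1
      have h2 : 1 * T.t ≤ L * T.t := mul_le_mul_of_nonneg_right hL t0.le
      rw [one_mul] at h2
      omega
    have hm := hα.neg hn1
    have him := ix_neg (A := A) hn1
    have hlb := In2_lb v hm (Or.inr rfl) (by omega)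
    obtain ⟨hx, -⟩ := v.Pc.add hm (by omega)
    have hne : A.cp L + (A.D - α) ≠ A.D := by
      intro h
      exact hx.neD (by rw [h, sub_self]; exact dvd_zero _)
    refine In2_end v ht hx ?_
    refine b.cov (i := -1) (k := -1) (Y0 := -1) (Or.inr (Or.inr ⟨rfl, rfl, rfl⟩)) ?_ ?_ ?_ ?_ ?_
      ?_ ?_ hx ?_ ?_
    · rwa [add_sub_cancel_right]
    · rw [mul_neg, mul_one]; omega
    · rw [mul_neg, mul_one]; omega
    · rw [mul_neg, mul_one]; omega
    · rw [mul_neg, mul_one]; omega
    · omega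
    · omega
    · omega
    · omega

end TAp

end Pool.Agent.H78.Tie
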