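import Pool.Agent.H78.Tie.W.EpR
import Pool.Agent.H78.Tie.W.Fsum
import Pool.Agent.H78.Tie.W.Win

/-! # M1 -/

namespace Pool.Agent.H78.Tie

open Finset
open Pool.Agent.H98.Flat
open Pool.Agent.H67.Flat

set_option linter.dupNamespace false
set_option linter.unusedVariables false

namespace TAp

variable {A : TAp}

/-- shift a lift into the rows of `S` -/
private theorem M1_shift {T : A.Tie} {L : ℤ} (v : V1 A T L)
    (ht : A.tp T L < A.q * A.h) {x i c : ℤ} (hx : A.Pt x i) (h0 : 0 ≤ x + c) (h1 : x + c < A.NN)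
    (h : A.D ≤ x + c → A.Rw (L * T.sig) (x + c)) :
    ∃ x', A.Pt x' i ∧ A.tp T L - A.q * A.h ≤ x' + c ∧ x' + c < A.tp T L := by
  have htpD := v.tpD
  by_cases hD : x + c < A.D
  · exact ⟨x, hx, by omega, by omega⟩
  · obtain ⟨z, z0, z1⟩ := v.RwS' (h (by omega))
    refine ⟨x + A.NN * z, hx.congr ?_ (by simp), by omega, by omega⟩
    rw [show x - (x + A.NN * z) = -(A.NN * z) by ring]
    exact dvd_neg.2 (dvd_mul_right _ _)

theorem V1.M1 {T : A.Tie} {L β : ℤ} (v : V1 A T L) (hc : A.W1 < A.cp L)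
    (ht : A.tp T L < A.q * A.h) (hβ : A.Pt β A.h) (b0 : A.D < β) (b1 : β < A.tp T L) : False := by
  have wr := v.wr
  have hsz := wr.sz
  have hD := A.D_pos
  have hN := A.NN_pos
  have htpD := v.tpD
  have hDH := A.D_H'
  have hSb := v.Sb
  have hH := A.Col_H
  have hW := A.W1_bd
  have hcp0 := v.cp0
  have hk0 := A.k0c
  have h2qh : 2 * (A.q * (A.h : ℤ)) < A.NN := by
    have h3 : (A.q : ℤ) * (2 * A.h + 1) ≤ A.q * A.p := ql (by omega)
    have h4 := NNqp A
    have h5 : (A.q : ℤ) * (2 * A.h + 1) = 2 * (A.q * A.h) + A.q := by ring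
    omega
  have hbe := (v.be hc hβ b0 (by omega)).1
  -- (1), (2)
  have hPk : ∀ k, 0 ≤ k → k < 0 + (A.w : ℤ) → A.Pk k (A.tp T L) = 0 := by
    intro k k0 k1
    rcases k0.eq_or_lt with hk | hk
    · rw [← hk]
      apply Pk_zero (x := 0) (z := β) (Pt.zero A) (by rwa [zero_add]) (by omega)
      · rw [mul_zero]; omega
      · rw [mul_zero]; omega
    · have hndk : ¬ (A.p : ℤ) ∣ k := ndp (by omega) (by omega) (by omega)
      have hndh : ¬ (A.p : ℤ) ∣ k + A.h := ndp (by omega) (by omega) (by omega)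
      obtain ⟨x, hx, x0, x1⟩ := Pt.ex A k (-(A.q * k))
      obtain ⟨x', hx', x2, x3⟩ := M1_shift v ht (c := A.q * k) hx (by omega) (by omega) (by
        intro hD'
        have hb := HB_T hx hndk
        exact v.evE hc hbe hb (ndp (by omega) (by omega) (by omega)) hD' (by omega) (by omega)
          (by omega) (by omega))
      obtain ⟨z, hz, z0, z1⟩ := Pt.ex A (k + A.h) (-(A.q * k))
      obtain ⟨z', hz', z2, z3⟩ := M1_shift v ht (c := A.q * k) hz (by omega) (by omega) (by
        intro hD'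
        have hb := HB_B hz hndh
        have e1 : z + A.q * (k + A.h) - A.q * A.h = z + A.q * k := by ring
        have e2 : k + (A.h : ℤ) - A.h = k := by ring
        rw [e1, e2] at hb
        exact v.evE hc hbe hb (ndp (by omega) (by omega) (by omega)) hD' (by omega) (by omega)
          (by omega) (by omega))
      have hxz : x' ≤ z' := by
        rcases lt_or_ge (A.ix k + A.ix A.h) A.p with hi | hi
        · have h6 := (hx'.add hβ hi).1
          have h7 := hz'.sep h6
          have := eq_of_dvd h7 (by omega) (by omega)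
          omega
        · have h6 := (hx'.add' hβ hi).1
          have h7 := hz'.sep h6
          have := eq_of_dvd h7 (by omega) (by omega)
          omega
      exact Pk_zero hx' hz' hxz (by omega) (by omega)
  have hf0 : A.fv 0 (A.tp T L) = 0 := fv_null hPk
  -- (3)
  have hpx : (A.p : ℤ) ∣ A.cp L + A.p := dvd_add v.Pc.dvd dvd_rfl
  have hCx : A.Cx (L * T.sig) (A.cp L + A.p) := v.Pc.Cx hpx (by omega) (by omega)
  have hpW : (A.p : ℤ) ≤ A.W1 := by omega
  have hRw : A.Rw (L * T.sig) (A.cp L + A.p - A.k0) := v.RwS (by omega) (by omega)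
  have hR1 := Rv_of hCx hRw
  have hP1 : A.Pk 0 (A.cp L + A.p - A.k0) = 1 := by
    apply Pk_one (x := 0) (z := β) (Pt.zero A) (by rwa [zero_add]) (by omega)
    · rw [mul_zero]; omega
    · rw [mul_zero]; omega
  have hf1 : 1 ≤ A.fv 0 (A.cp L + A.p - A.k0) := fv_pos (le_refl 0) (by omega) hP1
  have hg := A.gid' (y := 0) (x := A.cp L + A.p) (θ := 0) le_rfl (by omega)
  rw [mul_zero, add_zero, sub_zero] at hg
  have hFb := (wr.Fb hpx 0 (A.tp T L)).1
  obtain ⟨i, hi, hi'⟩ := Rv_ex (A := A) (x := A.cp L + A.p) (v := A.tp T L) (by omega)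
  have hab := wr.abut hpx hCx (v.RwS (b := A.tp T L - 1) (by omega) (by omega)) hi hi'
  have htp : A.tp T L = A.cp L + A.q * (L * T.sig) := rfl
  exact v.Pc.not_Rw (v := A.tp T L) (by omega) (by omega)
    (Rw_congr (by rw [dvd_sub_comm]; exact hab) (by simp) hi')

end TAp

end Pool.Agent.H78.Tie
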