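import Pool.Agent.H78.Tie.W.M2b

/-! # M2c -/

namespace Pool.Agent.H78.Tie

open Finset
open Pool.Agent.H98.Flat
open Pool.Agent.H67.Flat

set_option linter.dupNamespace false
set_option linter.unusedVariables false

namespace TAp

variable {A : TAp}

private theorem M2c_ix {k j : ℤ} (h : (A.p : ℤ) ∣ k - j) : A.ix k = A.ix j := by
  unfold ix
  apply emod_congr
  have := h.mul_left A.e'
  rwa [mul_sub] at this

private theorem M2c_dneg {a b : ℤ} (h : (A.p : ℤ) ∣ a - b) : (A.p : ℤ) ∣ b - a := by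
  rw [dvd_sub_comm]; exact h

/-- (2) of the header -/
private theorem M2c_claim {T : A.Tie} {L β τ c : ℤ} (m : M2 A T L β) (hβτ : β < τ)
    (hτ : τ < A.tp T L) (hτN : A.NN + A.D - τ < A.tp T L)
    (hf : ∀ v, β ≤ v → v < τ → A.fv A.y0 v = A.fv A.y0 (-1) - 1)
    (hg : ∀ z, (A.p : ℤ) ∣ z → A.p ≤ z → z ≤ c → A.fv A.y0 (-1) + 1 ≤ A.gv A.y0 z)
    (k : ℕ) (hk : (A.p : ℤ) * (k + 1) ≤ c) :
    ∃ n : ℤ, 0 ≤ n ∧ n * T.t < A.p ∧ A.Cx (-(n * T.sig)) (A.p * (k + 1)) ∧
      ∀ v, β ≤ v → v < τ → A.Rw (-(n * T.sig)) v := by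
  have wr := m.v.wr
  have p5 := A.p5
  have hp0 : (0 : ℤ) < A.p := by omega
  have htpD := m.v.tpD
  have hDH := A.D_H'
  have hN := A.NN_pos
  have hW := A.W1_bd
  have hpW : (A.p : ℤ) ≤ A.W1 := by
    have := A.pq'; omega
  -- (0)
  have hzero : ∀ x, (A.p : ℤ) ∣ x → A.p ≤ x → x ≤ c →
      ∃ i, A.Cx i x ∧ ∀ v, β ≤ v → v < τ → A.Rw i v := by
    intro x hx x0 x1
    obtain ⟨i, hi, hi', _⟩ := wr.single hx hβτ (fun v v0 v1 => by
      have h1 := (wr.Fb hx A.y0 v).1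
      have h2 := hf v v0 v1
      have h3 := hg x hx x0 x1
      omega)
    exact ⟨i, hi, hi'⟩
  induction k with
  | zero =>
    have hx : (A.p : ℤ) ∣ A.p * (((0 : ℕ) : ℤ) + 1) := dvd_mul_right _ _
    have e : (A.p : ℤ) * (((0 : ℕ) : ℤ) + 1) = A.p := by simp
    rw [e] at hk hx ⊢
    obtain ⟨i, hi, hi'⟩ := hzero A.p hx le_rfl hk
    have h0c : A.Cx 0 A.p := (Pt.zero A).Cx hx hp0 (by rw [zero_add]; exact hpW)
    have h0r : A.Rw 0 (τ - 1) := by
      have h1 : A.Rw 0 (τ - 1 - A.NN) := (Pt.zero A).Rw (by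
        rw [mul_zero]; omega) (by rw [mul_zero]; omega)
      exact Rw_congr (by simp) (by rw [show τ - 1 - A.NN - (τ - 1) = -A.NN by ring]; exact dvd_neg.2 dvd_rfl) h1
    have hu := wr.uniq hx hi (hi' (τ - 1) (by omega) (by omega)) h0c h0r
    refine ⟨0, le_rfl, by simpa using hp0, ?_, ?_⟩
    · rw [zero_mul, neg_zero]
      exact h0c
    · intro v v0 v1
      rw [zero_mul, neg_zero]
      exact Rw_congr hu (by simp) (hi' v v0 v1)
  | succ k ih =>
    obtain ⟨n, n0, hn, hEc, hEr⟩ := ih (by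
      have : (A.p : ℤ) * ((k : ℤ) + 1) ≤ A.p * (((k + 1 : ℕ) : ℤ) + 1) := by
        apply mul_le_mul_of_nonneg_left _ hp0.le
        push_cast; omega
      omega)
    set x : ℤ := A.p * ((k : ℤ) + 1) with hxd
    have ex : (A.p : ℤ) * (((k + 1 : ℕ) : ℤ) + 1) = x + A.p := by
      rw [hxd]; push_cast; ring
    rw [ex] at hk ⊢
    have hx : (A.p : ℤ) ∣ x := dvd_mul_right _ _
    have hxp : (A.p : ℤ) ∣ x + A.p := dvd_add hx dvd_rfl
    have x0 : (A.p : ℤ) ≤ x := by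
      rw [hxd]
      have : (A.p : ℤ) * 1 ≤ A.p * ((k : ℤ) + 1) := mul_le_mul_of_nonneg_left (by omega) hp0.le
      omega
    obtain ⟨i, hi, hi'⟩ := hzero (x + A.p) hxp (by omega) hk
    by_cases hix : A.Cx i x
    · have hu := wr.uniq hx hix (hi' β le_rfl hβτ) hEc (hEr β le_rfl hβτ)
      exact ⟨n, n0, hn, Cx_congr hu (by simp) hi, hEr⟩
    · obtain ⟨y', hy', h1, h2⟩ := Cx.lift hi hxp
      have e1 : y' = x := by
        by_contra hne
        exact hix (hy'.Cx hx (by omega) (by omega))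
      rw [e1] at hy'
      obtain ⟨y, hy, h3, h4⟩ := Cx.lift hEc hx
      obtain ⟨s', hs', ps', r1, r2⟩ := hy'.Rw_row (hi' β le_rfl hβτ)
      obtain ⟨s'', hs'', ps'', r3, r4⟩ := hy.Rw_row (hEr β le_rfl hβτ)
      obtain ⟨_, hixe⟩ := wr.gap ps' ps'' (by omega) h4 (by omega) (by omega)
      have hkt := wr.kt n0 hn
      have e2 : A.ix s'' = n * T.t := by rw [M2c_ix hs'']; exact hkt.2
      have e3 : A.ix s' = (n + 1) * T.t := by rw [hixe, e2]; ring
      have hn' : (n + 1) * T.t < A.p := by rw [← e3]; exact A.ix_lt s'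
      have hkt' := wr.kt (n := n + 1) (by omega) hn'
      have h5 : (A.p : ℤ) ∣ s' - (-((n + 1) * T.sig)) := ix_inj (by rw [e3, hkt'.2])
      have h6 : (A.p : ℤ) ∣ i - (-((n + 1) * T.sig)) := by
        have := dvd_sub h5 hs'
        rwa [show s' - -((n + 1) * T.sig) - (s' - i) = i - -((n + 1) * T.sig) by ring] at this
      refine ⟨n + 1, by omega, hn', Cx_congr h6 (by simp) hi, fun v v0 v1 => ?_⟩
      exact Rw_congr h6 (by simp) (hi' v v0 v1)

theorem M2.false {T : A.Tie} {L β : ℤ} (m : M2 A T L β) : False := by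
  have wr := m.v.wr
  have v := m.v
  have p5 := A.p5
  have hp0 : (0 : ℤ) < A.p := by omega
  have htpD := m.v.tpD
  have hDH := A.D_H'
  have hDW := A.D_W'
  have hN := A.NN_pos
  have hW := A.W1_bd
  have hpq := A.pq'
  have hsz := wr.sz
  have hcp0 := v.cp0
  have hc := m.hc
  have hpcp : (A.p : ℤ) ∣ A.cp L := v.Pc.dvd
  have hpW := A.p_W1
  have hWq : A.W1 = A.q * A.w + A.sg := rfl
  have hsg := A.hsg
  obtain ⟨τ, hβτ, hτ, hτN, hf⟩ := M2.tau m
  have hg2 := m.m2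
  have hg5 := m.m5
  have hy0 : A.y0 = 1 - A.w := rfl
  obtain ⟨c, hpc, hc0, hc1, hgc, hgc', ⟨k', hRA⟩, hdrop⟩ :=
    first_drop (A := A) (y := A.y0) (x0 := A.p) (x1 := A.cp L) dvd_rfl hpcp (by omega) (by omega)
  have hg : ∀ z, (A.p : ℤ) ∣ z → A.p ≤ z → z ≤ c → A.fv A.y0 (-1) + 1 ≤ A.gv A.y0 z := by
    intro z hz z0 z1
    have := hdrop z hz z0 z1
    omega
  have hpcp' : (A.p : ℤ) ∣ c + A.p := dvd_add hpc dvd_rfl
  -- the claim at `c`
  obtain ⟨j0, hj0⟩ := hpc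
  have hj1 : 1 ≤ j0 := by
    by_contra hcon
    have : (A.p : ℤ) * j0 ≤ A.p * 0 := mul_le_mul_of_nonneg_left (by omega) hp0.le
    omega
  obtain ⟨k, hk⟩ := Int.eq_ofNat_of_zero_le (a := j0 - 1) (by omega)
  have hck : c = A.p * ((k : ℤ) + 1) := by rw [hj0, show (k : ℤ) + 1 = j0 by omega]
  obtain ⟨n, n0, hn, hEc, hEr⟩ := M2c_claim m hβτ hτ hτN hf hg k (by omega)
  rw [← hck] at hEc
  have hpc : (A.p : ℤ) ∣ c := ⟨j0, hj0⟩
  set E : ℤ := -(n * T.sig) with hE
  obtain ⟨k0, k1, hRA⟩ := hRA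
  have hk0 : 1 ≤ k' := by omega
  have hk1 : k' ≤ A.h := by omega
  have hPk : A.Pt (c - A.W1) k' := by
    unfold Pt
    rwa [show c - A.W1 - A.U k' = c - (A.U k' + A.W1) by ring]
  have hnL : n ≤ L := v.nle hn
  have hnsig : n * T.sig ≤ L * T.sig := mul_le_mul_of_nonneg_right hnL (by omega)
  have hSb := v.Sb
  -- `E` covers `c + p`
  have hEcp : A.Cx E (c + A.p) := by
    by_contra hcon
    obtain ⟨y, hy, h1, h2⟩ := Cx.lift hEc hpc
    have e1 : y = c - A.W1 := by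
      have h3 : ¬ (c + A.p ≤ y + A.W1) := fun h => hcon (hy.Cx hpcp' (by omega) h)
      have h4 : y + A.W1 ≤ c := dvd_gap (dvd_add hy.dvd hpW) hpc (by omega)
      omega
    rw [e1] at hy
    have h5 : (A.p : ℤ) ∣ k' - E := hPk.row hy
    have h6 : 0 ≤ n * T.sig := mul_nonneg n0 (by omega)
    rw [hE] at h5
    exact ndp (A := A) (s := k' - -(n * T.sig)) (by omega) (by omega) (by omega) h5
  obtain ⟨y, hy, hy1, hy2⟩ := Cx.lift hEcp hpcp'
  -- `1 ≤ n`
  have hn1 : 1 ≤ n := by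
    by_contra hcon
    have hn00 : n = 0 := by omega
    have hE0 : E = 0 := by rw [hE, hn00]; simp
    rw [hE0] at hy
    have e1 : y = 0 := hy.eq (Pt.zero A) (by omega) (by omega)
    rw [e1] at hy1 hy2
    have h1 : (A.p : ℤ) ∣ k' + T.sig := wr.nov0 hPk (ndp (by omega) (by omega) (by omega))
      (by rw [hWq]; rcases hsg with h | h <;> rw [h] <;> omega) (by omega)
      (by
        have e2 : (A.q : ℤ) * 1 ≤ A.q * k' := ql hk0
        have e3 : (A.q : ℤ) * A.w ≤ A.q * A.h := ql (by omega)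
        rw [mul_one] at e2
        rcases hsg with h | h <;> rw [h] at hWq <;> omega)
      (by
        have e2 : (A.q : ℤ) * k' ≤ A.q * A.h := ql hk1
        omega)
    exact ndp (A := A) (s := k' + T.sig) (by omega) (by omega) (by omega) h1
  have hkt := wr.kt n0 hn
  have hnW : n * A.W1 ≤ L * A.W1 := mul_le_mul_of_nonneg_right hnL (by omega)
  have hnW1 : 1 * A.W1 ≤ n * A.W1 := mul_le_mul_of_nonneg_right hn1 (by omega)
  have hcpL : A.cp L = A.D - L * A.W1 := rfl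
  have e1 : y = n * A.W1 := hy.eq hkt.1 (by omega) (by
    rcases hsg with h | h <;> rw [h] at hWq <;> omega)
  have hW1c : A.W1 < c + A.p := by omega
  -- the top of `E`
  set θ : ℤ := A.NN + n * A.W1 - A.q * (n * T.sig) with hθ
  have hPE : A.Pt (A.NN + n * A.W1) E := hkt.1.congr (by
    rw [show n * A.W1 - (A.NN + n * A.W1) = -A.NN by ring]; exact dvd_neg.2 dvd_rfl) (by simp [hE])
  have hθE : θ = A.NN + n * A.W1 + A.q * E := by rw [hθ, hE]; ring
  have hκ : A.q * (n * T.sig) - n * A.W1 = n * (A.q * -T.x - A.sg) := by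
    unfold Tie.sig W1; ring
  have htpe := v.tp_eq
  have hpos : 0 < A.q * -T.x - A.sg := by
    by_contra hcon
    have := mul_nonneg (show (0 : ℤ) ≤ L by omega) (show 0 ≤ -(A.q * -T.x - A.sg) by omega)
    rw [mul_neg] at this
    omega
  have hκ1 : n * (A.q * -T.x - A.sg) ≤ L * (A.q * -T.x - A.sg) :=
    mul_le_mul_of_nonneg_right hnL hpos.le
  have hκ0 : 1 * (A.q * -T.x - A.sg) ≤ n * (A.q * -T.x - A.sg) :=
    mul_le_mul_of_nonneg_right hn1 hpos.le
  have hθ1 : θ < A.NN := by omega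
  have hθ0 : A.D ≤ θ - 1 := by omega
  have hH := A.Col_H
  -- the row `θ - 1`
  have hR1 : A.Rw E (θ - 1) := hPE.Rw (by omega) (by omega)
  have ha := wr.alpha (y := A.y0) (x := c + A.p) (v := θ - 1) (by omega) (by omega) hpcp'
    (by omega) (by omega) hθ0 (by omega) (Or.inl hW1c)
  have hRv := Rv_of hEcp hR1
  -- the row `θ`
  have hR0 : A.Rv c θ = 0 := by
    rcases wr.Rv01 hpc θ with h | h
    · exact h
    · exfalso
      obtain ⟨j, hj, hj'⟩ := Rv_ex (A := A) (x := c) (v := θ) (by omega)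
      have hab := wr.abut hpc hEc hR1 hj hj'
      exact hPE.not_Rw (v := θ) (by omega) (by omega)
        (Rw_congr (M2c_dneg hab) (by simp) hj')
  have hFb := (wr.Fb hpc A.y0 θ).1
  rcases A.f_cases A.y0 θ with ⟨h, _⟩ | ⟨_, j, hj0', hj1', hj⟩ | ⟨h, _⟩
  · omega
  · have h1 : A.NN ∣ A.V E - A.V j := by
      have h2 := hPE.V
      rw [← hθE] at h2
      have := dvd_sub hj h2
      rwa [show θ - A.V j - (θ - A.V E) = A.V E - A.V j by ring] at this
    have h3 := VV h1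
    have h4 : 1 * T.sig ≤ n * T.sig := mul_le_mul_of_nonneg_right hn1 (by omega)
    rw [hE] at h3
    exact ndp (A := A) (s := -(n * T.sig) - j) (by omega) (by omega) (by omega) h3
  · omega

end TAp

end Pool.Agent.H78.Tie
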