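import Pool.Agent.H78.Tie.W.TL
import Pool.Agent.H78.Tie.W.In2
import Pool.Agent.H78.Tie.W.HCf
import Pool.Agent.H78.Tie.W.II9
import Pool.Agent.H78.Tie.W.M1
import Pool.Agent.H78.Tie.W.M2c
import Pool.Agent.H98.Tie.Count3
import Pool.Agent.H98.Tie.PV2

/-! # Fin

Assembly (helper78).
-/

namespace Pool.Agent.H78.Tie

open Finset
open Pool.Agent.H98.Flat
open Pool.Agent.H67.Flat

set_option linter.dupNamespace false
set_option linter.unusedVariables false

namespace TAp

variable {A : TAp}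

/-- row `h` in front: counting theorem -/
theorem V1.neg {T : A.Tie} {L β : ℤ} (v : V1 A T L) (hβ : A.Pt β A.h) (b1 : β < A.NN)
    (b0 : A.NN + A.tp T L - A.q * A.h ≤ β) : False := by
  obtain ⟨w2, wh, -, h2, -, -, -, -, -, -, -⟩ := v.wr.sz
  have hq := A.q_pos'
  have hs : ¬ (A.p : ℤ) ∣ A.h := ndp (by omega) (by omega) (by omega)
  have hx : A.NN ∣ (β - A.NN) - A.U A.h := by
    have := dvd_sub hβ (dvd_refl A.NN)
    rwa [show β - A.U A.h - A.NN = β - A.NN - A.U A.h by ring] at this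
  have hC := Wall_cls (k := A.h) hs hx (by simp)
  have e := Int.emod_add_mul_ediv (β - A.NN) A.q
  have f1 := Int.emod_lt_of_pos (β - A.NN) hq
  have hD := v.tpD.1
  refine Tie.countIII v.wr.fl T v.wr.sgl v.wr.nov v.wr.x0 (by exact_mod_cast wh) ?_ hC ?_ ?_
  · intro n n0 hn
    have h1 := v.nle hn
    have h3 := v.hS
    have s0 : 0 < T.sig := by
      have := v.wr.x0; unfold Tie.sig; omega
    have h4 : n * T.sig ≤ L * T.sig := mul_le_mul_of_nonneg_right h1 s0.le
    change n * T.sig < A.h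
    omega
  · have h3 : (A.q : ℤ) * ((β - A.NN) / A.q) < A.q * 0 := by
      have f0 := Int.emod_nonneg (β - A.NN) hq.ne'
      omega
    exact lt_of_mul_lt_mul_left h3 hq.le
  · rw [mul_add]; omega

theorem V1.false {T : A.Tie} {L : ℤ} (v : V1 A T L) : False := by
  obtain ⟨w2, wh, -, h2, -, -, -, -, -, -, -⟩ := v.wr.sz
  have hs : ¬ (A.p : ℤ) ∣ A.h := ndp (by omega) (by omega) (by omega)
  obtain ⟨β, hβ, b0, b1⟩ := Pt.ex A A.h 0
  have c1 := hβ.ne0 hs
  have c2 := hβ.neD
  have d1 : β ≠ 0 := fun h => c1 (by rw [h]; exact dvd_zero _)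
  have d2 : β ≠ A.D := fun h => c2 (by rw [h, sub_self]; exact dvd_zero _)
  have tne := v.tpne
  have cne := v.cpne
  have tD := v.tpD.1
  rcases lt_or_gt_of_ne d2 with h | h
  · have hB : Bt A T β := ⟨v.wr, hβ, by omega, h⟩
    rcases lt_or_gt_of_ne tne with h1 | h1
    · exact hB.TL (by omega)
    · exact v.In2 hB h1
  · rcases lt_or_gt_of_ne cne with h1 | h1
    · exact v.II9 h1
    · obtain ⟨hh, h3⟩ := v.be h1 hβ h (by omega)
      rcases h3 with h3 | h3
      · rcases lt_or_gt_of_ne tne with h4 | h4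
        · exact v.M1 h1 h4 hβ h h3
        · exact M2.false ⟨v, h1, h4, hβ, h, h3, hh⟩
      · exact v.neg hβ (by omega) h3

/-- **region V, `ep = 1`** -/
theorem WR.false {T : A.Tie} (h : WR A T) : False := by
  obtain ⟨w2, wh, -, h2, -, -, -, sw, sh, t0, tp⟩ := h.sz
  have s0 : 0 < T.sig := by omega
  -- the quotient
  have L1 : 1 ≤ (A.p - 1 : ℤ) / T.t := by
    rw [Int.le_ediv_iff_mul_le t0]; omega
  have hL : ((A.p - 1 : ℤ) / T.t) * T.t < A.p := by
    have := Int.ediv_mul_le (A.p - 1 : ℤ) t0.ne'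
    omega
  have hL' : (A.p : ℤ) ≤ ((A.p - 1 : ℤ) / T.t + 1) * T.t := by
    have := Int.lt_ediv_add_one_mul_self (A.p - 1 : ℤ) t0
    omega
  have key : ((A.p - 1 : ℤ) / T.t) * T.sig < A.h → False := by
    intro hS
    refine V1.false (L := (A.p - 1 : ℤ) / T.t) ⟨h, L1, hL, lt_of_le_of_ne hL' ?_, hS⟩
    intro he
    set L := (A.p - 1 : ℤ) / T.t
    have hrow := T.row
    rw [h.ep] at hrow
    have h1 := hrow.mul_left (L + 1)
    have h3 : (A.p : ℤ) ∣ (L + 1) * T.sig := by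
      unfold Tie.sig
      have h4 : (A.p : ℤ) ∣ A.e * ((L + 1) * T.t) := by rw [← he]; exact dvd_mul_left _ _
      have h5 := dvd_sub h1 h4
      rwa [show (L + 1) * (A.e * T.t - 1 * (T.x - A.w)) - A.e * ((L + 1) * T.t)
        = (L + 1) * (A.w - T.x) by ring] at h5
    have h6 : 0 < (L + 1) * T.sig := by positivity
    have h7 := Int.le_of_dvd h6 h3
    rw [add_mul, one_mul] at h7
    omega
  set k1 := (A.h : ℤ) / T.sig with hk1
  have e := Int.emod_add_mul_ediv (A.h : ℤ) T.sig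
  have f0 := Int.emod_nonneg (A.h : ℤ) s0.ne'
  have f1 := Int.emod_lt_of_pos (A.h : ℤ) s0
  rw [← hk1, mul_comm] at e
  have k1p : 1 ≤ k1 := by
    rw [hk1, Int.le_ediv_iff_mul_le s0]; omega
  by_cases hd : (A.h : ℤ) % T.sig = 0
  · -- `h = k1 sig`
    by_cases hp : k1 * T.t < A.p
    · exact HC.false (n := k1) ⟨h, k1p, hp, by omega⟩
    · apply key
      have h1 : (A.p - 1 : ℤ) / T.t < k1 := by
        by_contra hc
        have : k1 * T.t ≤ ((A.p - 1 : ℤ) / T.t) * T.t :=
          mul_le_mul_of_nonneg_right (by omega) t0.le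
        omega
      have h3 : ((A.p - 1 : ℤ) / T.t) * T.sig < k1 * T.sig := mul_lt_mul_of_pos_right h1 s0
      omega
  · by_cases hp : (k1 + 1) * T.t < A.p
    · refine Tie.V2 h.fl T h.nov h.ep h.x0 h.hs (j := k1) ?_ ?_ hp
      · change k1 * T.sig < A.h
        omega
      · change (A.h : ℤ) < (k1 + 1) * T.sig
        rw [add_mul, one_mul]; omega
    · apply key
      have h1 : (A.p - 1 : ℤ) / T.t ≤ k1 := by
        by_contra hc
        have : (k1 + 1) * T.t ≤ ((A.p - 1 : ℤ) / T.t) * T.t :=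
          mul_le_mul_of_nonneg_right (by omega) t0.le
        omega
      have h3 : ((A.p - 1 : ℤ) / T.t) * T.sig ≤ k1 * T.sig := mul_le_mul_of_nonneg_right h1 s0.le
      omega

end TAp

end Pool.Agent.H78.Tie
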