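import Pool.Agent.H78.Tie.W.B2

/-! # HC -/

namespace Pool.Agent.H78.Tie

open Finset
open Pool.Agent.H98.Flat
open Pool.Agent.H67.Flat

set_option linter.dupNamespace false
set_option linter.unusedVariables false

namespace TAp

variable {A : TAp}

/-- `h = n sig`, `n t < p` -/
structure HC (A : TAp) (T : A.Tie) (n : ℤ) : Prop where
  wr : WR A T
  n1 : 1 ≤ n
  hn : n * T.t < A.p
  hh : (A.h : ℤ) = n * T.sig

namespace HC

variable {T : A.Tie} {n : ℤ}

private theorem HC_pos (c : HC A T n) (m : ℕ) (hm : (m : ℤ) ≤ n) : 0 < A.D - m * A.W1 := by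
  have wr := c.wr
  have hsz := wr.sz
  have hW := A.W1_bd
  have hD := A.D_pos
  have hWq : A.W1 = A.q * A.w + A.sg := rfl
  have hsg := A.hsg
  have p5 := A.p5
  induction m with
  | zero => simpa using hD
  | succ m ih =>
    have ih' := ih (by push_cast at hm; omega)
    by_contra hc
    set m' : ℤ := ((m + 1 : ℕ) : ℤ) with hm'
    have m0 : 0 < m' := by omega
    have ht0 : 0 < T.t := hsz.2.2.2.2.2.2.2.2.2.1
    have hmt : m' * T.t ≤ n * T.t := mul_le_mul_of_nonneg_right hm ht0.le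
    have hms : m' * T.sig ≤ n * T.sig := mul_le_mul_of_nonneg_right hm (by omega)
    have hms0 : 1 * T.sig ≤ m' * T.sig := mul_le_mul_of_nonneg_right (by omega) (by omega)
    have hn := c.hn
    have hh := c.hh
    have hP := (wr.pkt m0 (by omega)).1
    have hnd : ¬ (A.p : ℤ) ∣ m' * T.sig := ndp (by omega) (by omega) (by omega)
    have h1 : A.D - m' * A.W1 ≠ 0 := by
      intro h
      apply hP.ne0 hnd
      rw [h]
      exact dvd_zero _
    have e1 : m' * A.W1 = m * A.W1 + A.W1 := by rw [hm']; push_cast; ring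
    have hneg : A.D - m' * A.W1 < 0 := by omega
    have h2 : A.D - m' * A.W1 ≤ -A.p := by
      have := Int.le_of_dvd (by omega) ((dvd_neg (a := (A.p : ℤ))).2 hP.dvd)
      omega
    have h3 : -A.W1 + A.p ≤ A.D - m' * A.W1 := by
      have := Int.le_of_dvd (by omega) (dvd_add hP.dvd A.p_W1)
      omega
    have hq1 : (A.q : ℤ) * (m' * T.sig) ≤ A.q * A.h := ql (by omega)
    have hq0 : (A.q : ℤ) * 1 ≤ A.q * (m' * T.sig) := ql (by omega)
    have hqw : (A.q : ℤ) * A.w ≤ A.q * A.h := ql (by omega)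
    have h4 := wr.nov0 hP hnd (by rcases hsg with h | h <;> rw [h] at hWq <;> omega) (by
        rcases hsg with h | h <;> rw [h] at hWq <;> omega)
      (by rcases hsg with h | h <;> rw [h] at hWq <;> omega) (by omega)
    exact ndp (A := A) (s := m' * T.sig + T.sig) (by omega) (by omega) (by omega) h4

theorem bt (c : HC A T n) : Bt A T (A.D - n * A.W1) := by
  have wr := c.wr
  have n1 := c.n1
  have hW := A.W1_bd
  have hnW : 1 * A.W1 ≤ n * A.W1 := mul_le_mul_of_nonneg_right n1 (by have := A.q6; omega)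
  have q6 := A.q6
  refine ⟨wr, ?_, ?_, by omega⟩
  · rw [c.hh]
    exact (wr.pkt (by omega) c.hn).1
  · obtain ⟨m, hm⟩ := Int.eq_ofNat_of_zero_le (a := n) (by omega)
    have := HC_pos c m (by omega)
    rwa [← hm] at this

theorem ixk (c : HC A T n) {k : ℤ} (k0 : 0 < k) (k1 : k < A.w) : n * T.t ≤ A.ix k := by
  have wr := c.wr
  have hsz := wr.sz
  have hW := A.W1_bd
  have hWq : A.W1 = A.q * A.w + A.sg := rfl
  have hsg := A.hsg
  have hD2 := D2 A
  have n1 := c.n1
  have hN := A.NN_pos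
  have hDH := A.D_H'
  have bt := c.bt
  have hpkt := wr.pkt (n := n) (by omega) c.hn
  have hixh : A.ix A.h = A.p - n * T.t := by rw [c.hh]; exact hpkt.2
  by_contra hc
  obtain ⟨y, hy, y0, y1⟩ := bt.B1 k0 k1
  obtain ⟨x, hx, x0, x1⟩ := bt.B2 k0 k1
  have hadd := (bt.pb.add hy (by omega)).1
  have hnW : 1 * A.W1 ≤ n * A.W1 := mul_le_mul_of_nonneg_right n1 (by omega)
  have hqk : (A.q : ℤ) * (k + 1) ≤ A.q * A.w := ql (by omega)
  have e1 : (A.q : ℤ) * (k + 1) = A.q * k + A.q := by ring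
  have hqk0 : (A.q : ℤ) * 1 ≤ A.q * k := ql (by omega)
  have hb1 := bt.b0
  have e2 : A.D - n * A.W1 + y = x := hadd.eq hx
    (by rcases hsg with h | h <;> rw [h] at hWq <;> omega) (by omega)
  have hyn : y ≤ n * A.W1 - A.W1 := by omega
  have hnd : ¬ (A.p : ℤ) ∣ k := ndp (by omega) (by omega) (by omega)
  have hneg := hy.neg hnd
  -- the chain element
  have hWp : 0 < A.W1 := by omega
  set j : ℤ := -((-y) / A.W1) with hj
  have h1 := Int.emod_add_mul_ediv (-y) A.W1
  have h2 := Int.emod_nonneg (-y) hWp.ne'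
  have h3 := Int.emod_lt_of_pos (-y) hWp
  have e3 : A.W1 * ((-y) / A.W1) = -(j * A.W1) := by rw [hj]; ring
  rw [e3] at h1
  have j0 : 0 < j := by
    by_contra hcon
    have : j * A.W1 ≤ 0 * A.W1 := mul_le_mul_of_nonneg_right (by omega) hWp.le
    omega
  have jn : j ≤ n - 1 := by
    by_contra hcon
    have : n * A.W1 ≤ j * A.W1 := mul_le_mul_of_nonneg_right (by omega) hWp.le
    omega
  have ht0 : 0 < T.t := hsz.2.2.2.2.2.2.2.2.2.1
  have hjt : j * T.t ≤ n * T.t := mul_le_mul_of_nonneg_right (by omega) ht0.le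
  have hn := c.hn
  have hjs0 : 1 * T.sig ≤ j * T.sig := mul_le_mul_of_nonneg_right (by omega) (by omega)
  have hjs1 : j * T.sig ≤ (n - 1) * T.sig := mul_le_mul_of_nonneg_right jn (by omega)
  rw [sub_mul, one_mul, ← c.hh] at hjs1
  have hP := (wr.pkt j0 (by omega)).1
  have hqa : (A.q : ℤ) * (j * T.sig + k + 1) ≤ A.q * A.h := ql (by omega)
  have hqb : (A.q : ℤ) * 1 ≤ A.q * (j * T.sig) := ql (by omega)
  have hqc : (A.q : ℤ) * A.w ≤ A.q * (A.h - 1) := ql (by omega)
  have e4 : (A.q : ℤ) * (j * T.sig + k + 1) = A.q * (j * T.sig) + A.q * k + A.q := by ring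
  have e5 : (A.q : ℤ) * (A.h - 1) = A.q * A.h - A.q := by ring
  have e6 : (A.q : ℤ) * -k = -(A.q * k) := by ring
  have hdj := wr.dj hneg hP (by omega) (by omega)
    (by rw [e6]; rcases hsg with h | h <;> rw [h] at hWq <;> omega) (by rw [e6]; omega)
  exact ndp (A := A) (s := -k - j * T.sig) (by omega) (by omega) (by omega) hdj

end HC

end TAp

end Pool.Agent.H78.Tie
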