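import Pool.Agent.H78.Tie.W.HC
import Pool.Agent.H78.Tie.W.B3

/-! # HCu

Position of row h - 1.  u1: B3 (k = 1): lift x in (q, D - W1].  Suppose x >= beta = D - n W1: j with 1 <= j <= n, 0 <= x - (D - j W1) <= W1 - p; against row j sig: heights
 x + q (h-1) - (D - j W1 + q j sig) = delta + q (h - 1 - j sig) in (-q h, q h) (delta < W1, j sig >= sig > w): dj: p | h - 1 - j sig: h = n sig: (n-j) sig - 1: j = n: -1; j < n: in [w, h): no.
u2: k in [1,w), y lift of row k, 0 < y <= D - W1; suppose y - n W1 <= x < y + q (k+1) (x the lift of u1).  n t <= ix k (ixk).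
 (i) x >= y: 0 <= x - y < q (k+1); if x - y < W1: heights x + q (h-1) - (y + q k) = (x-y) + q (h-1-k) in (-q h, q h): dj: p | h-1-k: 0 < h-1-k (k + 1 <= w < h) < p: False.  (x - y >= W1: then q (k+1) > W1, k + 1 >= w, k = w - 1 and
   sg = -1, x - y = W1 = q w - 1: gap: W1 <= W1, heights still in (-qh, qh): (x-y) + q(h-1-k) = q w - 1 + q (h - w) < q h: gap gives ix (h-1) = ix k + t; ix (h-1): rows: then h - 1 = k - sig mod p: kt/ix_inj: row k - sig has class ix k + t (ixM'): p | h - 1 - k + sig: 0 < . < p: no.)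
 (ii) x < y: there is j in [1,n] with y - j W1 <= x, x + p <= y - (j-1) W1 (multiples of p).  Row k + j sig has lift y - j W1: ix k >= n t >= j t; Pt.sub with kt (row -j sig, lift j W1, class j t): row k - (-(j sig)).  Against row h - 1: delta := x - (y - j W1) in [0, W1 - p],
   heights: x + q (h-1) - (y - j W1 + q (k + j sig)) = delta + q (h - 1 - k - j sig): < W1 + q (h - 2 - sig).. < q h; >= - q (k + 1) > - q h: dj: p | h - 1 - k - j sig = (n-j) sig - 1 - k: j = n: -(k+1) no; j < n: >= sig - 1 - k >= 1 (k <= w-1 < sig - 1), < p: no.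
-/

namespace Pool.Agent.H78.Tie

open Finset
open Pool.Agent.H98.Flat
open Pool.Agent.H67.Flat

set_option linter.dupNamespace false
set_option linter.unusedVariables false

namespace TAp

variable {A : TAp}

namespace HC

variable {T : A.Tie} {n : ℤ}

theorem HCu_step {W d m : ℤ} (hW : 0 < W) (d0 : 0 < d) (d1 : d ≤ m * W) :
    ∃ j, 1 ≤ j ∧ j ≤ m ∧ d ≤ j * W ∧ (j * W - W) < d := by
  have e := Int.emod_add_mul_ediv (d - 1) W
  have l := Int.emod_nonneg (d - 1) hW.ne'
  have u := Int.emod_lt_of_pos (d - 1) hW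
  have p := Int.ediv_nonneg (a := d - 1) (b := W) (by omega) hW.le
  have q : (d - 1) / W < m := Int.ediv_lt_of_lt_mul hW (by omega)
  refine ⟨(d - 1) / W + 1, by omega, by omega, ?_, ?_⟩
  · rw [add_mul, one_mul, mul_comm]; omega
  · rw [add_mul, one_mul, mul_comm]; omega

theorem u1 (c : HC A T n) : ∃ x, A.Pt x (A.h - 1) ∧ A.q < x ∧ x < A.D - n * A.W1 := by
  obtain ⟨s1, s2, s3, s4, s5, s6, s7, s8, s9, s10, s11⟩ := c.wr.sz
  have hW1 : A.W1 = A.q * A.w + A.sg := rfl
  have hqw : (A.q : ℤ) * 2 ≤ A.q * A.w := ql s1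
  have hqh : (A.q : ℤ) * A.w + A.q ≤ A.q * A.h := ql1 s2
  have hsg : A.sg = 1 ∨ A.sg = -1 := A.hsg
  have hh := c.hh
  have n1 := c.n1
  obtain ⟨x, px, x0, x1⟩ := c.bt.B3 (k := 1) (by omega) (by omega)
  rw [mul_one] at x0
  refine ⟨x, px, x0, ?_⟩
  by_contra hx
  obtain ⟨j, j1, j2, j3, j4⟩ := HCu_step (W := A.W1) (d := A.D - x) (m := n) (by omega) (by omega)
    (by omega)
  have jt : j * T.t ≤ n * T.t := mul_le_mul_of_nonneg_right j2 (by omega)
  have js : j * T.sig ≤ n * T.sig := mul_le_mul_of_nonneg_right j2 (by omega)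
  have j1s : 1 * T.sig ≤ j * T.sig := mul_le_mul_of_nonneg_right j1 (by omega)
  have hn := c.hn
  obtain ⟨pj, -⟩ := c.wr.pkt (n := j) (by omega) (by omega)
  have a1 : (A.q : ℤ) * (A.h - 1) + A.q * 1 = A.q * A.h := by ring
  have a2 : (A.q : ℤ) * (j * T.sig) ≤ A.q * A.h := ql (by omega)
  have a3 : (A.q : ℤ) * A.w + A.q ≤ A.q * (j * T.sig) := ql1 (by omega)
  have hd := c.wr.dj px pj (by omega) (by omega) (by omega) (by omega)
  have cs : j = n ∨ j * T.sig + T.sig ≤ n * T.sig := by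
    rcases eq_or_lt_of_le j2 with h | h
    · left; exact h
    · right
      have : (j + 1) * T.sig ≤ n * T.sig := mul_le_mul_of_nonneg_right (by omega) (by omega)
      linarith
  refine ndp (A := A) (s := A.h - 1 - j * T.sig) ?_ (by omega) (by omega) hd
  rcases cs with h | h
  · rw [h]; omega
  · omega

theorem u2 (c : HC A T n) {k x y : ℤ} (k0 : 0 < k) (k1 : k < A.w) (hx : A.Pt x (A.h - 1))
    (x0 : A.q < x) (x1 : x < A.D - n * A.W1) (hy : A.Pt y k) (y0 : 0 < y)
    (y1 : y ≤ A.D - A.W1) (h1 : y - n * A.W1 ≤ x) (h2 : x < y + A.q * (k + 1)) : False := by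
  obtain ⟨s1, s2, s3, s4, s5, s6, s7, s8, s9, s10, s11⟩ := c.wr.sz
  have hW1 : A.W1 = A.q * A.w + A.sg := rfl
  have hqw : (A.q : ℤ) * 2 ≤ A.q * A.w := ql s1
  have hqh : (A.q : ℤ) * A.w + A.q ≤ A.q * A.h := ql1 s2
  have hsg : A.sg = 1 ∨ A.sg = -1 := A.hsg
  have hh := c.hh
  have n1 := c.n1
  have hn := c.hn
  have a1 : (A.q : ℤ) * (A.h - 1) + A.q * 1 = A.q * A.h := by ring
  have a4 : (A.q : ℤ) * (k + 1) = A.q * k + A.q := by ring
  have a5 : (A.q : ℤ) * (k + 1) ≤ A.q * A.w := ql (by omega)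
  rcases le_or_gt y x with hxy | hxy
  · by_cases hw : x < y + A.W1
    · have hd := c.wr.dj hx hy (by omega) (by omega) (by omega) (by omega)
      exact ndp (A := A) (s := A.h - 1 - k) (by omega) (by omega) (by omega) hd
    · obtain ⟨g1, g2⟩ := c.wr.gap hx hy (by omega) (by omega) (by omega) (by omega)
      have hl := A.ix_lt (A.h - 1)
      obtain ⟨p1, -⟩ := c.wr.ixM' hy (by omega)
      rw [← g1] at p1
      have hd := hx.row p1
      exact ndp (A := A) (s := A.h - 1 - (k - T.sig)) (by omega) (by omega) (by omega) hd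
  · obtain ⟨j, j1, j2, j3, j4⟩ := HCu_step (W := A.W1) (d := y - x) (m := n) (by omega) (by omega)
      (by omega)
    have jt : j * T.t ≤ n * T.t := mul_le_mul_of_nonneg_right j2 (by omega)
    have js : j * T.sig ≤ n * T.sig := mul_le_mul_of_nonneg_right j2 (by omega)
    have j1s : 1 * T.sig ≤ j * T.sig := mul_le_mul_of_nonneg_right j1 (by omega)
    obtain ⟨pj, ij⟩ := c.wr.kt (n := j) (by omega) (by omega)
    have hk := c.ixk k0 k1
    have ps := hy.sub pj (by omega)
    have e : (A.q : ℤ) * (k - -(j * T.sig)) = A.q * k + A.q * (j * T.sig) := by ring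
    have a2 : (A.q : ℤ) * (j * T.sig) ≤ A.q * A.h := ql (by omega)
    have a3 : (A.q : ℤ) * A.w + A.q ≤ A.q * (j * T.sig) := ql1 (by omega)
    have a6 : (A.q : ℤ) * 0 ≤ A.q * k := ql (by omega)
    have hd := c.wr.dj hx ps (by omega) (by omega) (by omega) (by omega)
    have cs : j = n ∨ j * T.sig + T.sig ≤ n * T.sig := by
      rcases eq_or_lt_of_le j2 with h | h
      · left; exact h
      · right
        have : (j + 1) * T.sig ≤ n * T.sig := mul_le_mul_of_nonneg_right (by omega) (by omega)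
        linarith
    refine ndp (A := A) (s := A.h - 1 - (k - -(j * T.sig))) ?_ (by omega) (by omega) hd
    rcases cs with h | h
    · rw [h]; omega
    · omega

end HC

end TAp

end Pool.Agent.H78.Tie
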