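import Pool.Agent.H78.Tie.W.V1b
import Pool.Agent.H78.Tie.W.Phi

/-! # II5

Case II, top events of rows k in [1,w).  Let x be the lift of row k with 0 <= x + q k < N (Pt.ex), b := x + q k (x + q k <> 0: V k = V 0 impossible (VV / Pt.neq: q not | x), b <> D similarly: x - D + q k = 0 would give q | x - D: a (ix k - p): `q_ne`).
1. b is not in (0,D): suppose 0 < b < D.
  x < 0: x > - q k: nov0 (|x| < q w, 0 < b < q k..: b = x + q k < q k <= q h): p | k + sig: no.   x = 0: no (ne0).
  x >= cp: chain n: delta := x - (D - n W1) in [0, W1 - p], heights delta + q (k - n sig): > - q h (n sig <= S < h), < q h: dj with row n sig: p | k - n sig: no (0 < n sig - k < p).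
  0 < x < cp < W1: nov0: if b < q h then p | k + sig: no.  So b >= q h > tp - q h (tp = cp + q S < W1 + q (h-1).. < 2 q h), against row S (lift cp): |x - cp| < W1; heights b - tp: b < D < tp and b > tp - q h: dj: p | k - S: no.
2. So D < b < N.  HB_T: HB b k k, arc (k-w, k] contains 0 and 1.  wFL at cp (row S), chi 0 = chi 1 = 1 (S - h < 0, 1 <= S).
  The column cp is not in the columns of row k: let y be the lift of k with y < cp (y > cp - N): cp < y + q w impossible: then y in (cp - q w, cp), y + q k: if y < 0: y > - q w, nov0 (heights y + q k in (-qw, q k)): no. y > 0: 0 < y < cp < W1: nov0: y + q k >= q h (else no);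
   y + q k > tp - q h: against row S: |y - cp| < W1, heights y + q k - tp in (-q h, 0) (k < S, y < cp): dj: no.   So lev_arc: r is not in the arc.
  If not Rw S b then chi r = 0: INN01: False.  So Rw S b: RwS': b < tp (b in (D,N), tp < N, tp - q h > 0).
-/

namespace Pool.Agent.H78.Tie

open Finset
open Pool.Agent.H98.Flat
open Pool.Agent.H67.Flat

set_option linter.dupNamespace false
set_option linter.unusedVariables false

namespace TAp

variable {A : TAp}

theorem V1.II5 {T : A.Tie} {L : ℤ} (v : V1 A T L) (hc : A.cp L < A.W1) {k : ℤ} (k0 : 0 < k)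
    (k1 : k < A.w) : ∃ x, A.Pt x k ∧ A.D < x + A.q * k ∧ x + A.q * k < A.tp T L := by
  have hN := v.tpN hc
  have hD := v.tpD
  have h1 := v.II1 hc
  have hw := v.wr.sz
  have hP := v.Pc
  obtain ⟨hi1, hi2, hi3⟩ := v.ixc
  obtain ⟨c0, c1⟩ := v.cp0
  obtain ⟨s1, s2, s3⟩ := v.Sb
  have hW := A.W1_bd
  have hWd : A.W1 = A.q * A.w + A.sg := rfl
  have hsg := A.hsg
  have hH := A.Col_H
  have hD0 := A.D_pos
  have hN0 := A.NN_pos
  have ht : A.tp T L = A.cp L + A.q * (L * T.sig) := rfl
  have q0 : (A.q : ℤ) * (L * T.sig) + A.q ≤ A.q * A.h := ql1 (by omega)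
  have q1 : (A.q : ℤ) * k + A.q ≤ A.q * A.w := ql1 (by omega)
  have q2 : (A.q : ℤ) * 0 + A.q ≤ A.q * k := ql1 (by omega)
  have q3 : (A.q : ℤ) * A.w + A.q ≤ A.q * A.h := ql1 (by omega)
  rw [mul_zero, zero_add] at q2
  have hk : ¬ (A.p : ℤ) ∣ k := ndp (by omega) (by omega) (by omega)
  have hks : ¬ (A.p : ℤ) ∣ k + T.sig := ndp (by omega) (by omega) (by omega)
  have hkS : ¬ (A.p : ℤ) ∣ k - L * T.sig := ndp (by omega) (by omega) (by omega)
  -- no lift of row `k` in a bad position
  have key : ∀ y, A.Pt y k → y < A.cp L → -(A.q * (A.w : ℤ)) < y → 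
      -(A.q * (A.h : ℤ)) < y + A.q * k → False := by
    intro y hy y1 y0 y2
    rcases lt_trichotomy y 0 with hy0 | hy0 | hy0
    · exact hks (v.wr.nov0 hy hk y0 (by omega) y2 (by omega))
    · subst hy0
      exact hy.ne0 hk (by simp)
    · rcases lt_or_ge (y + A.q * k) (A.q * A.h) with hl | hl
      · exact hks (v.wr.nov0 hy hk y0 (by omega) y2 hl)
      · exact hkS (v.wr.dj hy hP (by omega) (by omega) (by omega) (by omega))
  obtain ⟨x, hx, x0, x1⟩ := Pt.ex A k (-(A.q * k))
  have n0 : x + A.q * k ≠ 0 := by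
    intro h
    refine hx.neq (Pt.zero A) (by rwa [sub_zero]) ⟨-k, ?_⟩
    rw [sub_zero, mul_neg]; omega
  have nD : x + A.q * k ≠ A.D := by
    intro h
    refine (hx.neg hk).neq (Pt.zero A) (by rwa [sub_zero, dvd_neg]) ⟨k, ?_⟩
    rw [sub_zero]; omega
  -- 1
  have n1 : A.D < x + A.q * k := by
    by_contra hb
    by_cases hxc : A.cp L ≤ x
    · obtain ⟨n, n0, n1, n2, n3⟩ := v.chain hx.dvd hxc (by omega)
      obtain ⟨m1, m2, m3⟩ := v.chpt n0 n1
      have q4 : (A.q : ℤ) * A.w + A.q ≤ A.q * (n * T.sig) := ql1 (by omega)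
      have q5 : (A.q : ℤ) * (n * T.sig) + A.q ≤ A.q * A.h := ql1 (by omega)
      have hdv := v.wr.dj hx m1 (by omega) (by omega) (by omega) (by omega)
      exact ndp (A := A) (s := k - n * T.sig) (by omega) (by omega) (by omega) hdv
    · exact key x hx (by omega) (by omega) (by omega)
  refine ⟨x, hx, n1, ?_⟩
  -- 2
  have hb : A.HB (x + A.q * k) k k := HB_T hx hk
  have hWal := v.wr.wFL hP hi3 hi2 hkS
  obtain ⟨y, hy, y0, y1⟩ := Pt.ex A k (A.cp L - A.NN)
  have y2 : A.cp L - A.NN < y := by
    rcases lt_or_eq_of_le y0 with h | h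
    · exact h
    · exfalso
      have : A.Pt (A.cp L) k := hy.congr (by rw [← h]; exact ⟨-1, by ring⟩) (by simp)
      exact hkS (this.row hP)
  obtain ⟨r, r1, r2⟩ := lev_ex A (x + A.q * k) (A.cp L)
  have hS : ¬ (A.p : ℤ) ∣ L * T.sig - k := by
    rwa [← dvd_neg, neg_sub]
  have ha := lev_arc hb hy (by omega) (by omega) (hP.neq hy hS) r1 r2
  have ha' : ¬ InA A.p r (k - A.w) A.w := by
    rw [ha]
    intro h
    exact key y hy (by omega) (by omega) (by omega)
  have hL := lev_L hP hb hkS r1 r2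
  by_cases hR : A.Rw (L * T.sig) (x + A.q * k)
  · obtain ⟨z, z0, z1⟩ := v.RwS' hR
    rcases lt_trichotomy z 0 with hz | hz | hz
    · have := mul_le_mul_of_nonneg_left (show z ≤ -1 by omega) (show 0 ≤ A.NN by omega)
      omega
    · subst hz
      omega
    · have := mul_le_mul_of_nonneg_left (show 1 ≤ z by omega) (show 0 ≤ A.NN by omega)
      omega
  · exfalso
    have e0 : A.aL (L * T.sig) r = 0 := by
      unfold aL
      rw [if_neg (by rw [hL]; exact hR)]
    have e1 : A.aL (L * T.sig) 0 = 1 := by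
      unfold aL
      rw [if_pos]
      rw [InA_iff (by omega) (by omega) (by omega)]
      omega
    have e2 : A.aL (L * T.sig) 1 = 1 := by
      unfold aL
      rw [if_pos]
      rw [InA_iff (by omega) (by omega) (by omega)]
      omega
    have i0 : InA A.p 0 (k - A.w) A.w := by
      rw [InA_iff (by omega) (by omega) (by omega)]
      omega
    have i1 : InA A.p 1 (k - A.w) A.w := by
      rw [InA_iff (by omega) (by omega) (by omega)]
      omega
    exact v.wr.INN01 hWal hb c0 (by omega) (by omega) (by omega) r1 r2 (by rw [e0, e1]; omega)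
      (by rw [e0, e2]; omega) (by tauto) (by tauto)

end TAp

end Pool.Agent.H78.Tie
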