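import Pool.Agent.H78.Tie.W.IIa
import Pool.Agent.H78.Tie.W.II5
import Pool.Agent.H78.Tie.W.Fsum
import Pool.Agent.H78.Tie.W.Win

/-! # II7

Case II: fv 0 (tp) = w and then fv 0 (cp - k0) = w.  beta in (N - q h, N - W1] (II4), lambda := N - beta.
(1) Pk k tp = 1 for 0 <= k < w (fv_full).  k = 0: Pk_one with lifts 0 (row 0), beta (row h): 0 <= tp < beta (tp + q h < N).
  k >= 1: x of II5: D < x + q k < tp.  Row h + k: if ix h + ix k < p: lift beta + x (Pt.add); take z := beta + x (z < x + N): Pk_one: x + q k <= tp < beta + x + q k: ok (beta > tp).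
   else (Pt.add'): lift beta + x - D; z := beta + x - D: tp < z + q k since x + q k > D, beta > tp.  (x <= z as beta > D.)
(2) alpha (Win) with y = 0, x := cp (0 < cp <= D), v := tp (D <= tp < N - q h): Rv cp tp - gv 0 cp + w <= 0: gv 0 cp >= w.
  gid' (y = 0, theta = 0, x = cp): gv 0 cp = Rv cp (cp - k0) + fv 0 (cp - k0).  Rv cp (cp-k0) = 0: otherwise (Rv_ex) row j with Cx j cp, Rw j (cp - k0); row S contains cp - k0
  (RwS: tp - q h = cp + q (S - h) <= cp - q < cp - k0 < tp): noleft (ixc: ix S < t): False.  So fv 0 (cp - k0) = gv 0 cp >= w; fv_le.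
-/

namespace Pool.Agent.H78.Tie

open Finset
open Pool.Agent.H98.Flat
open Pool.Agent.H67.Flat

set_option linter.dupNamespace false
set_option linter.unusedVariables false

namespace TAp

variable {A : TAp}

namespace V1

variable {T : A.Tie} {L : ℤ}

theorem II6 (v : V1 A T L) (hc : A.cp L < A.W1) : A.fv 0 (A.tp T L) = A.w := by
  obtain ⟨β, hβ, b0, b1⟩ := Pt.ex A A.h 0
  rw [zero_add] at b1
  have h3 := v.II3 hc hβ b0 b1
  obtain ⟨h4, h4'⟩ := v.II4 hc hβ b0 b1
  have hN := v.tpN hc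
  have hD := v.tpD
  have hD0 := A.D_pos
  apply fv_full
  intro k k0 k1
  rw [zero_add] at k1
  rcases lt_or_eq_of_le k0 with k0 | rfl
  · obtain ⟨x, hx, x0, x1⟩ := v.II5 hc k0 k1
    by_cases hi : A.ix A.h + A.ix k < A.p
    · have hz := (Pt.add hβ hx hi).1
      rw [add_comm (A.h : ℤ) k] at hz
      exact Pk_one hx hz (by omega) (by omega) (by omega)
    · have hz := (Pt.add' hβ hx (not_lt.1 hi)).1
      rw [add_comm (A.h : ℤ) k] at hz
      exact Pk_one hx hz (by omega) (by omega) (by omega)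
  · have hz : A.Pt β (0 + A.h) := by rw [zero_add]; exact hβ
    exact Pk_one (Pt.zero A) hz (by omega) (by rw [mul_zero]; omega) (by rw [mul_zero]; omega)

theorem II7 (v : V1 A T L) (hc : A.cp L < A.W1) : A.fv 0 (A.cp L - A.k0) = A.w := by
  have h6 := v.II6 hc
  have hN := v.tpN hc
  have hD := v.tpD
  have hw := v.wr.sz
  have hP := v.Pc
  obtain ⟨hi1, hi2, hi3⟩ := v.ixc
  obtain ⟨c0, c1⟩ := v.cp0
  obtain ⟨s1, s2, s3⟩ := v.Sb
  have hW := A.W1_bd
  have hH := A.Col_H
  have hk0 := A.k0c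
  have ha := v.wr.alpha (y := 0) (x := A.cp L) (v := A.tp T L) (by omega) le_rfl hP.dvd c0
    (by omega) (by omega) (by omega) (Or.inr (by omega))
  have hg := A.gid' (y := 0) (x := A.cp L) (θ := 0) le_rfl (by omega)
  rw [mul_zero, add_zero, sub_zero] at hg
  have hR := Rv_nonneg A (A.cp L) (A.tp T L)
  have hl := fv_le A 0 (A.cp L - A.k0)
  rcases v.wr.Rv01 hP.dvd (A.cp L - A.k0) with h0 | h0
  · omega
  · exfalso
    obtain ⟨j, a, b⟩ := Rv_ex (A := A) (x := A.cp L) (v := A.cp L - A.k0) (by omega)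
    have hq := ql1 (A := A) (a := L * T.sig) (b := A.h) (by omega)
    have ht : A.tp T L = A.cp L + A.q * (L * T.sig) := rfl
    have hq0 : 0 ≤ (A.q : ℤ) * (L * T.sig) := by
      have := ql (A := A) (a := 0) (b := L * T.sig) (by omega)
      omega
    exact v.wr.noleft hP hi2 a b (v.RwS (by omega) (by omega))


end V1

end TAp

end Pool.Agent.H78.Tie
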