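import Pool.Agent.H78.Tie.W.V1b
import Pool.Agent.H78.Tie.W.Phi

/-! # IIa

Case II: cp < W1 (so tp > q h, h - S < w, tp + q h < N: V1b).  beta := lift of row h in [0,N).
II2 (beta is not in [0,D]): beta <> 0, D (ne0, neD).  If cp <= beta < D: chain element n: 0 <= beta - (D - n W1) <= W1 - p, heights beta + q h - (D - n W1 + q n sig) = delta + q (h - n sig) in (0, q h) since delta < W1 < q sig <= q n sig:
  dj: p | h - n sig, 0 < h - n sig < p: False.   If 0 < beta < cp < W1: against row S (lift cp): |beta - cp| < W1, heights beta - cp + q (h - S) in (-q h, q h) : dj: p | h - S: False.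
II3 (tp <= beta): suppose D < beta < tp.  Free left wall of row S at cp (wFL, chi = aL S), HB_B: HB beta h 0, arc (-w,0].  Y := S - h in (-w, 0): chi Y = 0 (arc (S-h,S]); RwS (tp - q h < D as tp < D + q h): chi r = 1 (lev_L).
  r in [1, S]: not in (-w,0].  PhiZ cp beta Y = -1 (cp in, cp - q w < 0 not in; Y in (-h,0]; beta not in; Y not in (-w-h,-h]); PhiZ cp beta r = 0: r in [1,S]: not in (-h,0], cp - q w not in, beta not in, and r not in (-w-h,-h] mod p (S <= h-1, `WR.pk`).
  Use wFL directly (Wal) : PhiZ Y = PhiZ r: False.   (r <= S: q r < beta - cp + q < tp - cp + q = q S + q.)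
II4: beta >= tp.  First N - q h < beta: otherwise beta + q h < N (<> since p does not divide q h) : INN0 with Y = 0: chi 0 = 1 (S - h < 0 < S); chi r = 0: not Rw S beta (Pt.not_Rw: tp <= beta < tp - q h + N); r not in (-w,0]: r in [1, p - h].  False.
  beta <= N - W1: otherwise beta - N in (-W1, 0), nov0 for row h with lift beta - N: |.| < q w, heights beta - N + q h in (-qh, q h): p | h + sig: 0 < h + sig < p: False.
-/

namespace Pool.Agent.H78.Tie

open Finset
open Pool.Agent.H98.Flat
open Pool.Agent.H67.Flat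

set_option linter.dupNamespace false
set_option linter.unusedVariables false

namespace TAp

variable {A : TAp}

namespace V1

variable {T : A.Tie} {L β : ℤ}

theorem IIa_h (v : V1 A T L) : ¬ (A.p : ℤ) ∣ (A.h : ℤ) := by
  obtain ⟨z1, z2, z3, z4, z5, z6, z7, z8, z9, z10, z11⟩ := v.wr.sz
  exact ndp (by omega) (by omega) (by omega)

theorem IIa_qpos (A : TAp) : 0 < (A.q : ℤ) := by
  have := A.q6
  omega

theorem IIa_cpW (v : V1 A T L) (hc : A.cp L < A.W1) : A.cp L + A.p ≤ A.W1 := by
  have h1 := v.Pc.dvd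
  have h2 := A.p_W1
  by_contra hcon
  have := dvd_gap h2 h1 (by omega)
  omega

theorem IIa_mod {x n : ℤ} (h0 : 0 ≤ x) (h1 : x < n) : x % n = x := Int.emod_eq_of_lt h0 h1

theorem II2 (v : V1 A T L) (hc : A.cp L < A.W1) (hβ : A.Pt β A.h) (b0 : 0 ≤ β) (b1 : β < A.NN) :
    A.D < β := by
  obtain ⟨z1, z2, z3, z4, z5, z6, z7, z8, z9, z10, z11⟩ := v.wr.sz
  obtain ⟨s1, s2, s3⟩ := v.Sb
  obtain ⟨c0, c1⟩ := v.cp0
  have hh := v.IIa_h
  have hq := IIa_qpos A
  have hsg := A.hsg
  have hW : A.W1 = A.q * A.w + A.sg := rfl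
  have hβ0 : β ≠ 0 := fun h => hβ.ne0 hh (by rw [h]; exact dvd_zero _)
  have hβD : β ≠ A.D := fun h => hβ.neD (by rw [h, sub_self]; exact dvd_zero _)
  by_contra hcon
  have hlt : β < A.D := by omega
  have hqw : (A.q : ℤ) * A.w + A.q ≤ A.q * A.h := ql1 z2
  have hS0 : 0 < (A.q : ℤ) * (L * T.sig) := by
    have := ql (A := A) (a := 1) (b := L * T.sig) (by omega)
    omega
  have hS1 : (A.q : ℤ) * (L * T.sig) + A.q ≤ A.q * A.h := ql1 (by omega)
  have hW0 : 0 < A.W1 := by have := A.W1_bd; omega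
  by_cases hcb : A.cp L ≤ β
  · obtain ⟨n, n0, n1, n2, n3⟩ := v.chain hβ.dvd hcb hlt
    obtain ⟨p1, p2, p3⟩ := v.chpt n0 n1
    have e1 : (A.q : ℤ) * A.w + A.q ≤ A.q * (n * T.sig) := ql1 (by omega)
    have e2 : (A.q : ℤ) * (n * T.sig) ≤ A.q * (L * T.sig) := ql p3
    have hd := v.wr.dj hβ p1 (by omega) (by omega)
      (by rcases hsg with h | h <;> omega) (by omega)
    exact ndp (by omega) (by omega) (by omega) hd
  · have hd := v.wr.dj hβ v.Pc (by omega) (by omega) (by omega)
      (by rcases hsg with h | h <;> omega)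
    exact ndp (by omega) (by omega) (by omega) hd

theorem II3 (v : V1 A T L) (hc : A.cp L < A.W1) (hβ : A.Pt β A.h) (b0 : 0 ≤ β) (b1 : β < A.NN) :
    A.tp T L ≤ β := by
  have hb2 := v.II2 hc hβ b0 b1
  obtain ⟨z1, z2, z3, z4, z5, z6, z7, z8, z9, z10, z11⟩ := v.wr.sz
  obtain ⟨s1, s2, s3⟩ := v.Sb
  obtain ⟨c0, c1⟩ := v.cp0
  obtain ⟨i1, i2, i3⟩ := v.ixc
  have hh := v.IIa_h
  have hq := IIa_qpos A
  have hsg := A.hsg
  have hW : A.W1 = A.q * A.w + A.sg := rfl
  have htp : A.tp T L = A.cp L + A.q * (L * T.sig) := rfl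
  have hpk := v.wr.pk
  have hcW := v.IIa_cpW hc
  have hw' := v.hS' hc
  have hDw := A.D_W'
  have hDpos := A.D_pos
  have hWb := A.W1_bd
  by_contra hcon
  have hlt : β < A.tp T L := by omega
  have hi : ¬ (A.p : ℤ) ∣ A.h - L * T.sig := ndp (by omega) (by omega) (by omega)
  have hwal := v.wr.wFL (i := A.h) v.Pc i3 i2 hi
  have hb : A.HB β A.h 0 := by
    have := HB_B hβ hh
    rwa [add_sub_cancel_right, sub_self] at this
  obtain ⟨r, r1, r2⟩ := lev_ex A β (A.cp L)
  have rl : 1 ≤ r := by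
    by_contra hr
    have := ql (A := A) (a := r) (b := 0) (by omega)
    omega
  have ru : r ≤ L * T.sig := by
    by_contra hr
    have := ql1 (A := A) (a := L * T.sig) (b := r) (by omega)
    omega
  have hp0 : (0 : ℤ) < A.p := by omega
  have y1 : A.aL (L * T.sig) (L * T.sig - A.h) = 0 := by
    unfold aL
    rw [if_neg]
    rw [InA_iff (by omega) (by omega) (by omega)]
    omega
  have y2 : A.aL (L * T.sig) r = 1 := by
    unfold aL
    rw [if_pos]
    rw [InA_iff (by omega) (by omega) (by omega)]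
    omega
  have y3 : InA A.p (L * T.sig - A.h) (0 - A.w) A.w ↔ ¬ InA A.p r (0 - A.w) A.w := by
    rw [InA_iff (by omega) (by omega) (by omega), InA_iff (by omega) (by omega) (by omega)]
    omega
  have key := hwal β 0 r (L * T.sig - A.h) hb r1 r2 (by rw [y1, y2]; norm_num) y3
  have k1 : A.cp L % A.NN < A.D := by
    rw [IIa_mod (by omega) (by omega)]; omega
  have k2 : ¬ (A.cp L - A.q * A.w) % A.NN < A.D := by
    have e : (A.cp L - A.q * A.w) % A.NN = A.cp L - A.q * A.w + A.NN := by
      rw [← Int.add_emod_right]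
      exact IIa_mod (by omega) (by rcases hsg with h | h <;> omega)
    rw [e]; omega
  have k3 : ¬ β % A.NN < A.D := by
    rw [IIa_mod b0 b1]; omega
  have j1 : InA A.p (L * T.sig - A.h) (-A.h) A.h := by
    rw [InA_iff (by omega) (by omega) (by omega)]; omega
  have j2 : ¬ InA A.p (L * T.sig - A.h) (-A.w - A.h) A.w := by
    rw [InA_iff (by omega) (by omega) (by omega)]; omega
  have j3 : ¬ InA A.p r (-A.h) A.h := by
    rw [InA_iff (by omega) (by omega) (by omega)]; omega
  have j4 : ¬ InA A.p r (-A.w - A.h) A.w := by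
    rw [InA_iff (by omega) (by omega) (by omega)]; omega
  unfold PhiZ at key
  simp only [k1, k2, k3, j1, j2, j3, j4, and_true, and_false, true_and, false_and, if_true,
    if_false] at key
  omega

theorem II4 (v : V1 A T L) (hc : A.cp L < A.W1) (hβ : A.Pt β A.h) (b0 : 0 ≤ β) (b1 : β < A.NN) :
    A.NN - A.q * A.h < β ∧ β ≤ A.NN - A.W1 := by
  have hb2 := v.II2 hc hβ b0 b1
  have hb3 := v.II3 hc hβ b0 b1
  obtain ⟨z1, z2, z3, z4, z5, z6, z7, z8, z9, z10, z11⟩ := v.wr.sz
  obtain ⟨s1, s2, s3⟩ := v.Sb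
  obtain ⟨c0, c1⟩ := v.cp0
  obtain ⟨i1, i2, i3⟩ := v.ixc
  have hh := v.IIa_h
  have hq := IIa_qpos A
  have hsg := A.hsg
  have hW : A.W1 = A.q * A.w + A.sg := rfl
  have htp : A.tp T L = A.cp L + A.q * (L * T.sig) := rfl
  have hcW := v.IIa_cpW hc
  have hw' := v.hS' hc
  have hDpos := A.D_pos
  have hWb := A.W1_bd
  have hNp : A.NN = A.q * A.p := A.NNqp
  have hi : ¬ (A.p : ℤ) ∣ A.h - L * T.sig := ndp (by omega) (by omega) (by omega)
  have hb : A.HB β A.h 0 := by
    have := HB_B hβ hh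
    rwa [add_sub_cancel_right, sub_self] at this
  constructor
  · by_contra hcon
    have hne : β + A.q * A.h ≠ A.NN := by
      intro h
      have h1 := hβ.neq (Pt.zero A) (by rwa [sub_zero])
      apply h1
      rw [sub_zero]
      have h2 := A.q_NN
      rw [← h] at h2
      exact (dvd_add_left (dvd_mul_right _ _)).mp h2
    have hwal := v.wr.wFL (i := A.h) v.Pc i3 i2 hi
    obtain ⟨r, r1, r2⟩ := lev_ex A β (A.cp L)
    have rl0 : L * T.sig ≤ r := by
      by_contra hr
      have := ql1 (A := A) (a := r) (b := L * T.sig) (by omega)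
      omega
    have rl : L * T.sig < r := by
      rcases lt_or_eq_of_le rl0 with h | h
      · exact h
      · exfalso
        rw [← h] at r2
        have e : β - A.cp L = A.q * (L * T.sig) := by omega
        exact hβ.neq v.Pc hi (by rw [e]; exact dvd_mul_right _ _)
    have ru : r ≤ A.p - A.h := by
      by_contra hr
      have := ql1 (A := A) (a := A.p - A.h) (b := r) (by omega)
      have e : (A.q : ℤ) * (A.p - A.h) = A.NN - A.q * A.h := by rw [hNp]; ring
      omega
    have y1 : A.aL (L * T.sig) 0 = 1 := by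
      unfold aL
      rw [if_pos]
      rw [InA_iff (by omega) (by omega) (by omega)]
      omega
    have y2 : A.aL (L * T.sig) r = 0 := by
      unfold aL
      rw [if_neg]
      rw [InA_iff (by omega) (by omega) (by omega)]
      omega
    refine v.wr.INN0 (Y := 0) hwal hb c0 (by rcases hsg with h | h <;> omega) (by omega)
      (by omega) (by omega) (by omega) le_rfl r1 r2 (by rw [y1, y2]; norm_num) ?_
    rw [InA_iff (by omega) (by omega) (by omega), InA_iff (by omega) (by omega) (by omega)]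
    omega
  · by_contra hcon
    have hd1 : (A.p : ℤ) ∣ A.NN - A.W1 := dvd_sub A.p_NN A.p_W1
    have hlo : A.NN - A.W1 + A.p ≤ β := by
      by_contra hlt
      have := dvd_gap hβ.dvd hd1 (by omega)
      omega
    have hP : A.Pt (β - A.NN) A.h := hβ.congr ⟨1, by ring⟩ (by rw [sub_self]; exact dvd_zero _)
    have hqw : (A.q : ℤ) * A.w + A.q ≤ A.q * A.h := ql1 z2
    have hw0 : 0 < (A.q : ℤ) * A.w := by
      have := ql (A := A) (a := 1) (b := A.w) (by omega)
      omega
    have hd := v.wr.nov0 hP hh (by rcases hsg with h | h <;> omega) (by omega)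
      (by rcases hsg with h | h <;> omega) (by omega)
    exact ndp (by omega) (by omega) (by omega) hd

end V1

end TAp

end Pool.Agent.H78.Tie
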