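import Pool.Agent.H78.Tie.W.EpR
import Pool.Agent.H78.Tie.W.Win

/-! # M2a

Case cp > W1, q h < tp, beta = lift of row h in (D, tp).  S + w <= h by `be`.  Level y0 = 1 - w: T rows [1-w, 0], B rows [h-w+1, h], LA rows [1-w, h-w], RA rows [1, h].  gamma := fv y0 (-1).
m1 (v in [tp - 1, N): f = gamma): f_const on [v, N-1] (fv_cong: fv (N-1) = fv (-1)): no event at v' in [tp, N): T row j in [1-w,-1], v' = V j mod N: HB_T with the lift v' - q j, label j: evE: Rw S v': RwS': v' < tp (tp - q h > 0, so z = 0): no.  T row 0: v' = 0 mod N: no.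
  B row h + j, j in [1-w,-1], v' = V (h+j) - q h: HB_B (lift v' - q j of row h + j), label j: evE again.  B row h: v' = lift of row h in (0,N): = beta < tp: no.
m2 (gv y0 p = gamma + 1): gid' x = p, theta = 0: v := p - k0 + q (1 - w) = p - k0 - q (w-1) in (-W1, 0): row 0 covers (p, v) (Pt.zero): Rv = 1; fv v = gamma: f_const on [v,-1]: no event at v' in (-W1, 0): T row j in [1-w,-1]: lift v' - q j in (-q w, q w) (v' >= 1 - W1, multiple..),
  height v' in (-q h, q h): nov0: p | j + sig: no.  B row j in [h-w+1,h]: lift v' + q (h - j), |.| < q w, height v' + q h in (-q h, q h): nov0: p | j + sig: 0 < . < 2 h < p no.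
m3: Rv cp (-1) = 0 or (Rv cp (-1) = 1 and Rv (cp+p) (-1) = 0)...: Let i cover (cp, -1).  If Cx i (cp + p): bottom b0 := V i - q h with the lift b0 <= -1 < b0 + q h; b := b0 + N in [D,N), HB_B, label k = i - h (representative); k <> 0 mod p: i = h would mean that row h (lift beta or beta - N) covers cp: no.
   -1 is not a row of S... not Rw S b: otherwise (b0 is a row of i: Rw i b) noleft (v.Pc, ixc): False.   Choose Y in (-w,0] outside the arc (k-w,k] mod p (exists as p does not divide k: e.g. Y = 0 or Y = 1 - w: one of them is outside, since both inside forces k = 0 mod p).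
   (Rw S b <-> S - h < Y): Rw S b false, S - h < Y true: rule2: False.   So i does not cover cp + p.
  Then Rv (cp+p) (-1) = 0: a row j covering (cp + p, -1): if it covers cp: uniq: j = i: no.  Otherwise U j = cp (Cx.lift): j = S mod p: but not Rw S (-1) (RwS': tp - q h > 0, tp < N).
m4 (gv y0 (cp + p) = gv y0 cp + 1): g_cases at cp: LA: row S (S <= h - w, lift cp).  No RA: a row j in [1,h] with U j + W1 = cp mod N: gap with row S (lift cp) and j (lift cp - W1): heights cp + q S - (cp - W1 + q j) = W1 + q (S - j): in (-q h, q h) (1 <= j <= h, S <= h - w): ix S = ix j + t >= t: ixc: no.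
m5 (gv y0 cp = gamma): alpha (x = cp, v = N - 1; W1 < cp): Rv cp (N-1) - gv + gamma <= 0.  Fb (cp + p, -1): Rv (cp+p) (-1) - (gv + 1) + gamma >= -1.  If Rv cp (-1) = 1 then Rv (cp+p) (-1) = 0 (m3): gv >= gamma + 1 and gv <= gamma: no.  If Rv cp (-1) = 0: Rv (cp+p) (-1) = 0 as in m3 (a row covering
  (cp+p, -1) covers cp or is S): gv >= gamma, gv <= gamma.
m6: for D <= v < N: alpha (cp, v): Rv - gamma + f <= 0; Fb (cp + p, v): Rv - (gamma + 1) + f >= -1, Rv <= 1.
-/

namespace Pool.Agent.H78.Tie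

open Finset
open Pool.Agent.H98.Flat
open Pool.Agent.H67.Flat

set_option linter.dupNamespace false
set_option linter.unusedVariables false

namespace TAp

variable {A : TAp}

/-- the setting of case M2 -/
structure M2 (A : TAp) (T : A.Tie) (L β : ℤ) : Prop where
  v : V1 A T L
  hc : A.W1 < A.cp L
  ht : A.q * A.h < A.tp T L
  hβ : A.Pt β A.h
  b0 : A.D < β
  b1 : β < A.tp T L
  hh : L * T.sig + A.w ≤ A.h

namespace M2

variable {T : A.Tie} {L β : ℤ}

theorem m0 (m : M2 A T L β) : 0 < A.D ∧ A.D < A.tp T L ∧ A.tp T L < A.D + A.q * A.h ∧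
    A.D + A.q * A.h < A.NN ∧ A.y0 = 1 - A.w ∧ A.tp T L = A.cp L + A.q * (L * T.sig) := by
  have h1 := m.v.tpD
  have h2 := A.D_H'
  have h3 := m.v.cp0
  have h4 := A.Col_H
  have h5 := A.Col_W
  refine ⟨A.D_pos, h1.1, h1.2, h2, rfl, rfl⟩

/-- an event at a height outside `[tp, N)` -/
theorem M2_noev (m : M2 A T L β) {b i k : ℤ} (hb : A.HB b i k) (hi : ¬ (A.p : ℤ) ∣ i - L * T.sig)
    (b0 : A.tp T L ≤ b) (b1 : b < A.NN) (k0 : -(A.w : ℤ) < k) (k1 : k < A.w) (kn : k ≠ 0) :
    False := by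
  obtain ⟨d0, d1, d2, d3, -, -⟩ := m.m0
  have h1 := m.v.evE m.hc m.hh hb hi (by omega) b1 k0 k1 kn
  obtain ⟨z, z0, z1⟩ := m.v.RwS' h1
  have ht := m.ht
  rcases lt_trichotomy z 0 with hz | hz | hz
  · have : A.NN * z ≤ A.NN * (-1) := mul_le_mul_of_nonneg_left (by omega) A.NN_pos.le
    omega
  · subst hz; omega
  · have : A.NN * 1 ≤ A.NN * z := mul_le_mul_of_nonneg_left (by omega) A.NN_pos.le
    omega

theorem m1 (m : M2 A T L β) {v : ℤ} (v0 : A.tp T L - 1 ≤ v) (v1 : v < A.NN) :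
    A.fv A.y0 v = A.fv A.y0 (-1) := by
  obtain ⟨d0, d1, d2, d3, hy, -⟩ := m.m0
  obtain ⟨s1, s2, s3, s4, s5, s6, s7, s8, s9, s10, s11⟩ := m.v.wr.sz
  have hS := m.v.Sb
  have hh := m.hh
  have hN := A.NN_pos
  have e1 : A.fv A.y0 (A.NN - 1) = A.fv A.y0 v := by
    apply A.f_const (by omega)
    rintro v' k a b (⟨c1, c2, c3⟩ | ⟨c1, c2, c3⟩)
    · rw [hy] at c1 c2
      rcases eq_or_ne k 0 with rfl | hk
      · have : A.V 0 = 0 := by rw [A.V_eq, A.U_zero']; ring
        rw [this, sub_zero] at c3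
        have := Int.le_of_dvd (by omega) c3
        omega
      · have hk' : ¬ (A.p : ℤ) ∣ k := ndp hk (by omega) (by omega)
        have hP : A.Pt (v' - A.q * k) k := by
          unfold Pt
          rw [A.V_eq] at c3
          rwa [show v' - A.q * k - A.U k = v' - (A.U k + A.q * k) by ring]
        have hb := A.HB_T hP hk'
        rw [sub_add_cancel] at hb
        exact m.M2_noev hb (ndp (by omega) (by omega) (by omega)) (by omega) (by omega)
          (by omega) (by omega) hk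
    · rw [hy] at c1 c2
      have hk' : ¬ (A.p : ℤ) ∣ k := ndp (by omega) (by omega) (by omega)
      have hP : A.Pt (v' - A.q * k + A.q * A.h) k := by
        unfold Pt
        rw [A.V_eq] at c3
        rwa [show v' - A.q * k + A.q * A.h - A.U k = v' - (A.U k + A.q * k - A.q * A.h) by ring]
      rcases eq_or_ne k A.h with rfl | hk
      · rw [sub_add_cancel] at hP
        have hb1 := m.b1
        have hb0 := m.b0
        have := Pt.eq hP m.hβ (by omega) (by omega)
        omega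
      · have hb := A.HB_B hP hk'
        rw [show v' - A.q * k + A.q * A.h + A.q * k - A.q * A.h = v' by ring] at hb
        exact m.M2_noev hb (ndp (by omega) (by omega) (by omega)) (by omega) (by omega)
          (by omega) (by omega) (by omega)
  rw [← e1]
  apply fv_cong
  exact ⟨1, by ring⟩

theorem m2 (m : M2 A T L β) : A.gv A.y0 A.p = A.fv A.y0 (-1) + 1 := by
  obtain ⟨d0, d1, d2, d3, hy, -⟩ := m.m0
  obtain ⟨s1, s2, s3, s4, s5, s6, s7, s8, s9, s10, s11⟩ := m.v.wr.sz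
  have hN := A.NN_pos
  have hk0 := A.k0c
  have hW1 : A.W1 = A.q * A.w + A.sg := rfl
  have hCW := A.Col_W
  have q2 : (A.q : ℤ) * 2 ≤ A.q * A.w := ql (A := A) (by omega)
  have qwh : (A.q : ℤ) * A.w + A.q ≤ A.q * A.h := ql1 (A := A) (by omega)
  have hqy : (A.q : ℤ) * A.y0 = A.q - A.q * A.w := by rw [hy]; ring
  have g := A.gid' (y := A.y0) (x := A.p) (θ := 0) le_rfl (by omega)
  rw [sub_zero] at g
  set v : ℤ := A.p - A.k0 + A.q * A.y0 with hv
  have v1 : v < 0 := by omega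
  have v0 : -(A.q * (A.w : ℤ)) < v := by omega
  have hpp : (A.p : ℤ) ∣ (A.p : ℤ) := dvd_refl _
  have R1 : A.Rv A.p v = 1 := by
    have c1 : A.Cx 0 A.p := Pt.Cx (Pt.zero A) hpp (by omega) (by omega)
    have c2 : A.Rw 0 v := Pt.Rw (Pt.zero A) (by rw [mul_zero]; omega) (by rw [mul_zero]; omega)
    have c3 := Rv_of c1 c2
    rcases m.v.wr.Rv01 hpp v with h | h <;> omega
  have e1 : A.fv A.y0 (-1) = A.fv A.y0 v := by
    apply A.f_const (by omega)
    rintro v' k a b (⟨c1, c2, c3⟩ | ⟨c1, c2, c3⟩)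
    · rw [hy] at c1 c2
      rcases eq_or_ne k 0 with rfl | hk
      · have : A.V 0 = 0 := by rw [A.V_eq, A.U_zero']; ring
        rw [this, sub_zero] at c3
        have h1 := Int.le_of_dvd (a := A.NN) (b := -v') (by omega) ((dvd_neg).2 c3)
        omega
      · have hk' : ¬ (A.p : ℤ) ∣ k := ndp hk (by omega) (by omega)
        have hP : A.Pt (v' - A.q * k) k := by
          unfold Pt
          rw [A.V_eq] at c3
          rwa [show v' - A.q * k - A.U k = v' - (A.U k + A.q * k) by ring]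
        have t1 : (A.q : ℤ) * (-k) ≤ A.q * (A.w - 1) := ql (A := A) (by omega)
        have t2 : (A.q : ℤ) * 1 ≤ A.q * (-k) := ql (A := A) (by omega)
        have e2 : (A.q : ℤ) * (-k) = - (A.q * k) := by ring
        have e3 : (A.q : ℤ) * (A.w - 1) = A.q * A.w - A.q := by ring
        have := m.v.wr.nov0 hP hk' (by omega) (by omega) (by omega) (by omega)
        exact ndp (A := A) (by omega) (by omega) (by omega) this
    · rw [hy] at c1 c2
      have hk' : ¬ (A.p : ℤ) ∣ k := ndp (by omega) (by omega) (by omega)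
      have hP : A.Pt (v' - A.q * k + A.q * A.h) k := by
        unfold Pt
        rw [A.V_eq] at c3
        rwa [show v' - A.q * k + A.q * A.h - A.U k = v' - (A.U k + A.q * k - A.q * A.h) by ring]
      have t1 : (A.q : ℤ) * (A.h - k) ≤ A.q * (A.w - 1) := ql (A := A) (by omega)
      have t2 : (A.q : ℤ) * 0 ≤ A.q * (A.h - k) := ql (A := A) (by omega)
      have e2 : (A.q : ℤ) * (A.h - k) = A.q * A.h - (A.q * k) := by ring
      have e3 : (A.q : ℤ) * (A.w - 1) = A.q * A.w - A.q := by ring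
      have := m.v.wr.nov0 hP hk' (by omega) (by omega) (by omega) (by omega)
      exact ndp (A := A) (by omega) (by omega) (by omega) this
  rw [g, R1, e1]; ring

theorem M2_m3 (m : M2 A T L β) : A.Rv (A.cp L + A.p) (-1) = 0 := by
  obtain ⟨d0, d1, d2, d3, hy, htp⟩ := m.m0
  obtain ⟨s1, s2, s3, s4, s5, s6, s7, s8, s9, s10, s11⟩ := m.v.wr.sz
  have hS := m.v.Sb
  have hh := m.hh
  have hN := A.NN_pos
  have hPc := m.v.Pc
  have hpc : (A.p : ℤ) ∣ A.cp L := hPc.dvd
  have hpc' : (A.p : ℤ) ∣ A.cp L + A.p := dvd_add hpc (dvd_refl _)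
  have hc := m.hc
  have hc0 := m.v.cp0
  have ht := m.ht
  have hb0 := m.b0
  have hb1 := m.b1
  have hix := m.v.ixc
  have hH := A.Col_H
  have hW1 : A.W1 = A.q * A.w + A.sg := rfl
  have hk0 := A.k0c
  have q2 : (A.q : ℤ) * 2 ≤ A.q * A.w := ql (A := A) (by omega)
  have hWp : 0 < A.W1 := by omega
  rcases m.v.wr.Rv01 hpc' (-1) with h | h
  · exact h
  exfalso
  obtain ⟨j, j1, j2⟩ := Rv_ex (A := A) (x := A.cp L + A.p) (v := -1) (by omega)
  by_cases hj : A.Cx j (A.cp L)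
  · -- case A
    have nd0 : ¬ (A.p : ℤ) ∣ j := by
      intro hd
      have h1 : A.Cx 0 (A.cp L) :=
        Cx_congr (by rwa [sub_zero]) (by rw [sub_self]; exact dvd_zero _) hj
      exact Pt.not_Cx (Pt.zero A) hpc (by omega) (by omega) h1
    have ndS : ¬ (A.p : ℤ) ∣ j - L * T.sig := by
      intro hd
      have h1 : A.Cx (L * T.sig) (A.cp L) :=
        Cx_congr hd (by rw [sub_self]; exact dvd_zero _) hj
      have h2 : A.Pt (A.cp L - A.NN) (L * T.sig) :=
        hPc.congr (by rw [sub_sub_cancel]) (by rw [sub_self]; exact dvd_zero _)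
      exact Pt.not_Cx h2 hpc (by omega) (by omega) h1
    have ndh : ¬ (A.p : ℤ) ∣ j - A.h := by
      intro hd
      have h1 : A.Cx A.h (A.cp L) :=
        Cx_congr hd (by rw [sub_self]; exact dvd_zero _) hj
      have h2 : A.Pt (β - A.NN) A.h :=
        m.hβ.congr (by rw [sub_sub_cancel]) (by rw [sub_self]; exact dvd_zero _)
      exact Pt.not_Cx h2 hpc (by omega) (by omega) h1
    obtain ⟨δ, δ0, δ1, δ2⟩ := j2.off
    set b : ℤ := -1 + δ - A.q * A.h + A.NN with hb
    have hbV : A.NN ∣ b - (A.V j - A.q * A.h) := by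
      have := dvd_add δ2 (dvd_refl A.NN)
      rwa [show -1 - (A.V j - δ) + A.NN = b - (A.V j - A.q * A.h) by rw [hb]; ring] at this
    have hHB : A.HB b j (j - A.h) := ⟨nd0, Or.inr ⟨hbV, by rw [sub_self]; exact dvd_zero _⟩⟩
    have hRb : A.Rw j b := Rw_of (δ := A.q * A.h) (by exact hbV) hH.1 le_rfl
    have hnS : ¬ A.Rw (L * T.sig) b := fun hr => m.v.wr.noleft hPc hix.2.1 hj hRb hr
    have hY : ∃ Y : ℤ, -(A.w : ℤ) < Y ∧ Y ≤ 0 ∧ ¬ InA A.p Y (j - A.h - A.w) A.w := by
      by_contra hcon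
      push Not at hcon
      have a1 := hcon 0 (by omega) le_rfl
      have a2 := hcon (1 - A.w) (by omega) (by omega)
      unfold InA at a1 a2
      have pp : (0 : ℤ) < A.p := by omega
      have f1 := Int.emod_nonneg (1 - (A.w : ℤ) - (j - A.h - A.w) - 1) pp.ne'
      have f2 := Int.emod_add_mul_ediv (1 - (A.w : ℤ) - (j - A.h - A.w) - 1) A.p
      set e := (1 - (A.w : ℤ) - (j - A.h - A.w) - 1) % A.p with he
      set u := (1 - (A.w : ℤ) - (j - A.h - A.w) - 1) / A.p with hu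
      have f3 : (0 - (j - A.h - A.w) - 1) % (A.p : ℤ) = e + A.w - 1 := by
        apply Col_mod
        · exact ⟨u, by linear_combination -f2⟩
        · omega
        · omega
      rw [f3] at a1
      have e0 : e = 0 := by omega
      apply ndh
      refine ⟨-u, ?_⟩
      rw [e0] at f2
      linear_combination f2
    obtain ⟨Y, Y0, Y1, Y2⟩ := hY
    refine m.v.rule2 hc hHB ndS (b := b) (by omega) (by omega) Y0 Y1 ?_ Y2 hj j1
    rintro ⟨-, hr⟩
    exact hnS (hr (by omega))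
  · -- case B
    obtain ⟨x, x1, x2, x3⟩ := Cx.lift j1 hpc'
    have hx : x = A.cp L := by
      by_contra hne
      exact hj (Pt.Cx x1 hpc (by omega) (by omega))
    subst hx
    have hrow := Pt.row x1 hPc
    have hR : A.Rw (L * T.sig) (-1) :=
      Rw_congr hrow (by rw [sub_self]; exact dvd_zero _) j2
    obtain ⟨z, z0, z1⟩ := m.v.RwS' hR
    rcases lt_trichotomy z 0 with hz | hz | hz
    · have : A.NN * z ≤ A.NN * (-1) := mul_le_mul_of_nonneg_left (by omega) A.NN_pos.le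
      omega
    · subst hz; omega
    · have : A.NN * 1 ≤ A.NN * z := mul_le_mul_of_nonneg_left (by omega) A.NN_pos.le
      omega

theorem m4 (m : M2 A T L β) : A.gv A.y0 (A.cp L + A.p) = A.gv A.y0 (A.cp L) + 1 := by
  obtain ⟨d0, d1, d2, d3, hy, htp⟩ := m.m0
  obtain ⟨s1, s2, s3, s4, s5, s6, s7, s8, s9, s10, s11⟩ := m.v.wr.sz
  have hS := m.v.Sb
  have hh := m.hh
  have hPc := m.v.Pc
  have hpc : (A.p : ℤ) ∣ A.cp L := hPc.dvd
  have hix := m.v.ixc
  have hW1 : A.W1 = A.q * A.w + A.sg := rfl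
  have hk0 := A.k0c
  have hCW := A.Col_W
  have hLA : A.LA A.y0 (A.cp L) (L * T.sig) := ⟨by omega, by omega, hPc⟩
  have hRA : ∀ k, ¬ A.RA A.y0 (A.cp L) k := by
    rintro k ⟨a, b, c⟩
    rw [hy] at a b
    have hP : A.Pt (A.cp L - A.W1) k := by
      unfold Pt
      rwa [show A.cp L - A.W1 - A.U k = A.cp L - (A.U k + A.W1) by ring]
    have q1 : (A.q : ℤ) * (L * T.sig + A.w) ≤ A.q * A.h := ql (A := A) hh
    have q2 : (A.q : ℤ) * 1 ≤ A.q * k := ql (A := A) (by omega)
    have q3 : (A.q : ℤ) * k ≤ A.q * A.h := ql (A := A) (by omega)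
    have q4 : (A.q : ℤ) * 0 ≤ A.q * (L * T.sig) := ql (A := A) (by omega)
    have q5 : (A.q : ℤ) * 2 ≤ A.q * A.w := ql (A := A) (by omega)
    rw [mul_add] at q1
    have := m.v.wr.gap hPc hP (by omega) (by omega) (by omega) (by omega)
    have hk := A.ix_nonneg k
    omega
  rcases A.g_cases A.y0 hpc with ⟨_, h⟩ | ⟨h, _, _⟩ | ⟨_, _, h⟩
  · obtain ⟨k, hk⟩ := h.1 ⟨_, hLA⟩
    exact absurd hk (hRA k)
  · exact h
  · exact absurd hLA (h _)

theorem m5 (m : M2 A T L β) : A.gv A.y0 (A.cp L) = A.fv A.y0 (-1) := by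
  obtain ⟨d0, d1, d2, d3, hy, htp⟩ := m.m0
  obtain ⟨s1, s2, s3, s4, s5, s6, s7, s8, s9, s10, s11⟩ := m.v.wr.sz
  have hPc := m.v.Pc
  have hpc : (A.p : ℤ) ∣ A.cp L := hPc.dvd
  have hpc' : (A.p : ℤ) ∣ A.cp L + A.p := dvd_add hpc (dvd_refl _)
  have hc0 := m.v.cp0
  have hH := A.Col_H
  have hN := A.NN_pos
  have hW1 : A.W1 = A.q * A.w + A.sg := rfl
  have hk0 := A.k0c
  have hCW := A.Col_W
  have h6 := s6
  have q2 : (A.q : ℤ) * 2 ≤ A.q * A.w := ql (A := A) (by omega)
  have a1 := m.v.wr.alpha (y := A.y0) (x := A.cp L) (v := A.NN - 1) (by omega) (by omega) hpc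
    hc0.1 (by omega) (by omega) (by omega) (Or.inl m.hc)
  have e1 : A.fv A.y0 (A.NN - 1) = A.fv A.y0 (-1) := fv_cong ⟨1, by ring⟩
  have a2 := A.Rv_nonneg (A.cp L) (A.NN - 1)
  have a3 := m.v.wr.Fb hpc' A.y0 (-1)
  have a4 := m.M2_m3
  have a5 := m.m4
  omega

theorem m6 (m : M2 A T L β) {v : ℤ} (v0 : A.D ≤ v) (v1 : v < A.NN) :
    A.fv A.y0 (-1) - 1 ≤ A.fv A.y0 v ∧ A.fv A.y0 v ≤ A.fv A.y0 (-1) := by
  obtain ⟨d0, d1, d2, d3, hy, htp⟩ := m.m0
  obtain ⟨s1, s2, s3, s4, s5, s6, s7, s8, s9, s10, s11⟩ := m.v.wr.sz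
  have hPc := m.v.Pc
  have hpc : (A.p : ℤ) ∣ A.cp L := hPc.dvd
  have hpc' : (A.p : ℤ) ∣ A.cp L + A.p := dvd_add hpc (dvd_refl _)
  have hc0 := m.v.cp0
  have hW1 : A.W1 = A.q * A.w + A.sg := rfl
  have hk0 := A.k0c
  have q2 : (A.q : ℤ) * 2 ≤ A.q * A.w := ql (A := A) (by omega)
  have a1 := m.v.wr.alpha (y := A.y0) (x := A.cp L) (v := v) (by omega) (by omega) hpc
    hc0.1 (by omega) v0 v1 (Or.inl m.hc)
  have a2 := A.Rv_nonneg (A.cp L) v
  have a3 := m.v.wr.Fb hpc' A.y0 v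
  have a4 := m.m4
  have a5 := m.m5
  rcases m.v.wr.Rv01 hpc' v with h | h <;> omega

end M2

end TAp

end Pool.Agent.H78.Tie
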