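import Pool.Agent.H78.Tie.W.M2a

/-! # M2b -/

namespace Pool.Agent.H78.Tie

open Finset
open Pool.Agent.H98.Flat
open Pool.Agent.H67.Flat

set_option linter.dupNamespace false
set_option linter.unusedVariables false

namespace TAp

variable {A : TAp}

theorem M2.tau {T : A.Tie} {L β : ℤ} (m : M2 A T L β) : ∃ τ, β < τ ∧ τ < A.tp T L ∧
    A.NN + A.D - τ < A.tp T L ∧ ∀ v, β ≤ v → v < τ → A.fv A.y0 v = A.fv A.y0 (-1) - 1 := by
  have wr := m.v.wr
  have hsz := wr.sz
  have hD := A.D_pos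
  have hN := A.NN_pos
  have hb0 := m.b0
  have hb1 := m.b1
  have htpD := m.v.tpD
  have hDH := A.D_H'
  have hht := m.ht
  have hy0 : A.y0 = 1 - A.w := rfl
  have hSb := m.v.Sb
  -- the event at `β`
  have h1 : A.fv A.y0 β = A.fv A.y0 (β - 1) - 1 := by
    apply f_B (k := A.h) (by omega) (by omega)
    have := m.hβ
    unfold Pt at this
    rwa [V_eq, show A.U A.h + A.q * A.h - A.q * (A.h : ℤ) = A.U A.h by ring]
  have h2 := m.m6 (v := β - 1) (by omega) (by omega)
  have h3 := m.m6 (v := β) (by omega) (by omega)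
  have h4 : A.fv A.y0 β = A.fv A.y0 (-1) - 1 := by omega
  have h5 := m.m1 (v := A.tp T L - 1) le_rfl (by omega)
  have h6 : β < A.tp T L - 1 := by
    by_contra hc
    have e : β = A.tp T L - 1 := by omega
    rw [e] at h4
    omega
  -- the first change
  obtain ⟨m0, hm0⟩ := Int.eq_ofNat_of_zero_le (a := A.tp T L - 1 - β) (by omega)
  have hex : ∃ n : ℕ, A.fv A.y0 (β + n) ≠ A.fv A.y0 (-1) - 1 := by
    refine ⟨m0, ?_⟩
    rw [show β + (m0 : ℤ) = A.tp T L - 1 by omega, h5]
    omega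
  classical
  obtain ⟨n0, hn0, hmin⟩ : ∃ n0 : ℕ, A.fv A.y0 (β + n0) ≠ A.fv A.y0 (-1) - 1 ∧
      ∀ n < n0, A.fv A.y0 (β + n) = A.fv A.y0 (-1) - 1 :=
    ⟨Nat.find hex, Nat.find_spec hex, fun n hn => not_not.1 (Nat.find_min hex hn)⟩
  have hn0m : n0 ≤ m0 := by
    by_contra hc
    have := hmin m0 (by omega)
    rw [show β + (m0 : ℤ) = A.tp T L - 1 by omega, h5] at this
    omega
  have hn0p : 0 < n0 := by
    rcases Nat.eq_zero_or_pos n0 with h | h
    · rw [h] at hn0
      simp only [Nat.cast_zero, add_zero] at hn0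
      exact absurd h4 hn0
    · exact h
  set τ : ℤ := β + n0 with hτ
  have hall : ∀ v, β ≤ v → v < τ → A.fv A.y0 v = A.fv A.y0 (-1) - 1 := by
    intro v v0 v1
    obtain ⟨n, hn⟩ := Int.eq_ofNat_of_zero_le (a := v - β) (by omega)
    have := hmin n (by omega)
    rwa [show β + (n : ℤ) = v by omega] at this
  have hτ1 : τ < A.tp T L := by omega
  have hτm := m.m6 (v := τ) (by omega) (by omega)
  have hτ' := hall (τ - 1) (by omega) (by omega)
  refine ⟨τ, by omega, hτ1, ?_, hall⟩
  rcases A.f_cases A.y0 τ with ⟨h, _⟩ | ⟨_, j, j0, j1, hj⟩ | ⟨h, _⟩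
  · exfalso; apply hn0; omega
  · have hj0 : j ≠ 0 := by
      intro hc
      rw [hc, V_eq, A.U_zero', mul_zero, add_zero, sub_zero] at hj
      have := Int.le_of_dvd (by omega) hj
      omega
    have hPj : A.Pt (τ - A.q * j) j := by
      unfold Pt
      rwa [show τ - A.q * j - A.U j = τ - A.V j by rw [V_eq]; ring]
    have hPk := hPj.neg (ndp hj0 (by omega) (by omega))
    have hHB := HB_T hPk (ndp (by omega) (by omega) (by omega))
    have hHB' : A.HB (A.NN + A.D - τ) (-j) (-j) := hHB.cong (by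
      rw [show A.D - (τ - A.q * j) + A.q * -j - (A.NN + A.D - τ) = -A.NN by ring]
      exact dvd_neg.2 dvd_rfl)
    have hR := m.v.evE m.hc m.hh hHB' (ndp (by omega) (by omega) (by omega)) (by omega)
      (by omega) (by omega) (by omega) (by omega)
    obtain ⟨z, z0, z1⟩ := m.v.RwS' hR
    have hz : z = 0 := by
      rcases lt_trichotomy z 0 with h | h | h
      · have : A.NN * z ≤ A.NN * (-1) := mul_le_mul_of_nonneg_left (by omega) hN.le
        omega
      · exact h
      · have : A.NN * 1 ≤ A.NN * z := mul_le_mul_of_nonneg_left (by omega) hN.le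
        omega
    rw [hz, mul_zero, add_zero] at z1
    exact z1
  · exfalso; omega

end TAp

end Pool.Agent.H78.Tie
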