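import Pool.Agent.H78.Tie.W.Pt
import Pool.Agent.H98.Tie.Count3
import Pool.Agent.H98.Tie.PV2

/-! # Nov

No overlaps.  Sources: `Tie.NoOv` (StatAp), `Tie.nov'` (H98.Tie.PV2: NoOv for arbitrary lifts), H67.NP.Nov (same statements for ep = -1:
copy the proofs), `Tie.sc` and its field `dj` (StatAp) or H67.NP.Dis `uniq`, `Tie.gap` (H98.Tie.Count3).
nov0: class 0 against row s: if they overlap then ix s = t, so s = -sig mod p (`T.row`: e t = x - w = -sig, `ix_of`, `ix_inj`).
nov1: the class p - ix s = ix (-s) has lift D - x and row -s: nov0 for it gives p | -s + sig.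
dj: the two rectangles share the visible column z := max x y + p and a row (`uniq`-like: `(T.sc h.nov).dj`, z - k0 is not a multiple of p).
gap: `Tie.gap` with delta = x - y.
kt: a t = W1 mod N (T.tie, ep = 1), e t = -sig mod p (T.row), so a (n t) = n W1, ix (-(n sig)) = n t (`ix_of`).
pkt: from kt by `Pt.neg`, `ix_neg`.
-/

namespace Pool.Agent.H78.Tie

open Finset
open Pool.Agent.H98.Flat
open Pool.Agent.H67.Flat

set_option linter.dupNamespace false
set_option linter.unusedVariables false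

namespace TAp

variable {A : TAp}

namespace WR

variable {T : A.Tie}

theorem sz (h : WR A T) : 2 ≤ (A.w : ℤ) ∧ (A.w : ℤ) + 1 ≤ A.h ∧ 2 * (A.w : ℤ) < A.p ∧
    2 * (A.h : ℤ) < A.p ∧ (A.p : ℤ) < A.q ∧ 6 ≤ (A.q : ℤ) ∧ 5 ≤ (A.p : ℤ) ∧
    (A.w : ℤ) < T.sig ∧ T.sig ≤ A.h ∧ 0 < T.t ∧ T.t < A.p := by
  have := h.x0
  have := h.hs
  have := A.hw
  have := A.w2
  have := A.h2
  have := A.pq'
  have := A.q6
  have := A.p5
  have := T.t0
  have := T.tp
  unfold Tie.sig
  refine ⟨?_, ?_, ?_, ?_, ?_, ?_, ?_, ?_, ?_, ?_, ?_⟩ <;> omega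
theorem Nov_row (h : WR A T) : (A.p : ℤ) ∣ A.e * T.t + T.sig := by
  have := T.row
  rw [h.ep] at this
  unfold Tie.sig
  rwa [show A.e * T.t + (A.w - T.x) = A.e * T.t - 1 * (T.x - A.w) by ring]
theorem Nov_tie (h : WR A T) : A.NN ∣ A.a * T.t - A.W1 := by
  have := T.tie
  rw [h.ep] at this
  unfold NN W1
  rwa [show A.a * T.t - (A.q * A.w + A.sg) = A.a * T.t - 1 * (A.q * A.w + A.sg) by ring]
theorem Nov_ix (h : WR A T) : A.ix (-T.sig) = T.t := by
  apply ix_of T.t0.le T.tp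
  rw [sub_neg_eq_add]
  exact h.Nov_row
/-- no overlap with the rectangle of class `0` -/
theorem nov0 (h : WR A T) {x s : ℤ} (hx : A.Pt x s) (hs : ¬ (A.p : ℤ) ∣ s)
    (x0 : -(A.q * (A.w : ℤ)) < x) (x1 : x < A.q * A.w)
    (v0 : -(A.q * (A.h : ℤ)) < x + A.q * s) (v1 : x + A.q * s < A.q * A.h) :
    (A.p : ℤ) ∣ s + T.sig := by
  by_contra hc
  have hne : A.ix s ≠ T.t := by
    intro hi
    apply hc
    rw [← h.Nov_ix] at hi
    have := ix_inj hi
    rwa [sub_neg_eq_add] at this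
  unfold Pt at hx
  rw [A.Pt_U] at hx
  exact Tie.nov' h.nov (ix_pos hs) (A.ix_lt s) hne hx (A.ix_row s) x0.le x1 ⟨v0.le, v1⟩
/-- no overlap with the place of the rectangle of class `p` -/
theorem nov1 (h : WR A T) {x s : ℤ} (hx : A.Pt x s) (hs : ¬ (A.p : ℤ) ∣ s)
    (x0 : -(A.q * (A.w : ℤ)) < x - A.D) (x1 : x - A.D < A.q * A.w)
    (v0 : -(A.q * (A.h : ℤ)) < x - A.D + A.q * s) (v1 : x - A.D + A.q * s < A.q * A.h) :
    (A.p : ℤ) ∣ s - T.sig := by
  have hs' : ¬ (A.p : ℤ) ∣ -s := by rwa [dvd_neg]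
  have h1 := h.nov0 (hx.neg hs) hs' (by omega) (by omega)
    (by rw [mul_neg]; omega) (by rw [mul_neg]; omega)
  have h2 := (dvd_neg).2 h1
  rwa [show -(-s + T.sig) = s - T.sig by ring] at h2
/-- two rectangles which overlap are equal -/
theorem dj (h : WR A T) {x y s s' : ℤ} (hx : A.Pt x s) (hy : A.Pt y s') (h0 : x < y + A.W1)
    (h1 : y < x + A.W1) (v0 : x + A.q * s < y + A.q * s' + A.q * A.h)
    (v1 : y + A.q * s' < x + A.q * s + A.q * A.h) : (A.p : ℤ) ∣ s - s' := by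
  by_contra hne
  have hpx := hx.dvd
  have hpy := hy.dvd
  have hW := A.W1_bd
  have hpq := A.pq'
  have hp5 := A.p5
  have hH := A.Col_H
  have c1 : x + A.p ≤ y + A.W1 := by
    apply dvd_gap (dvd_add hpx (dvd_refl _)) (dvd_add hpy A.p_W1)
    omega
  have c2 : y + A.p ≤ x + A.W1 := by
    apply dvd_gap (dvd_add hpy (dvd_refl _)) (dvd_add hpx A.p_W1)
    omega
  have key : ∀ z v : ℤ, (A.p : ℤ) ∣ z → A.Cx s z → A.Cx s' z → A.Rw s v → A.Rw s' v → False := by
    intro z v hz a b c d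
    have h1 := ((T.sc h.nov).dj s s' (z - A.k0) v hne ⟨a, c⟩ ⟨b, d⟩).2
    have h2 := dvd_sub hz h1
    rw [sub_sub_cancel] at h2
    have hk := A.k0_cases
    have := Int.le_of_dvd (by omega) h2
    omega
  rcases le_total x y with hxy | hxy
  · have a := hx.Cx (z := y + A.p) (dvd_add hpy (dvd_refl _)) (by omega) (by omega)
    have b := hy.Cx (z := y + A.p) (dvd_add hpy (dvd_refl _)) (by omega) (by omega)
    rcases le_total (x + A.q * s) (y + A.q * s') with hv | hv
    · exact key _ _ (dvd_add hpy (dvd_refl _)) a b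
        (hx.Rw (v := y + A.q * s' - A.q * A.h) (by omega) (by omega))
        (hy.Rw (v := y + A.q * s' - A.q * A.h) (by omega) (by omega))
    · exact key _ _ (dvd_add hpy (dvd_refl _)) a b
        (hx.Rw (v := x + A.q * s - A.q * A.h) (by omega) (by omega))
        (hy.Rw (v := x + A.q * s - A.q * A.h) (by omega) (by omega))
  · have a := hx.Cx (z := x + A.p) (dvd_add hpx (dvd_refl _)) (by omega) (by omega)
    have b := hy.Cx (z := x + A.p) (dvd_add hpx (dvd_refl _)) (by omega) (by omega)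
    rcases le_total (x + A.q * s) (y + A.q * s') with hv | hv
    · exact key _ _ (dvd_add hpx (dvd_refl _)) a b
        (hx.Rw (v := y + A.q * s' - A.q * A.h) (by omega) (by omega))
        (hy.Rw (v := y + A.q * s' - A.q * A.h) (by omega) (by omega))
    · exact key _ _ (dvd_add hpx (dvd_refl _)) a b
        (hx.Rw (v := x + A.q * s - A.q * A.h) (by omega) (by omega))
        (hy.Rw (v := x + A.q * s - A.q * A.h) (by omega) (by omega))
/-- the rectangle `s` is at the right of `s'`, at distance `≤ W1`, and they share a row: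
then they are tied -/
theorem gap (h : WR A T) {x y s s' : ℤ} (hx : A.Pt x s) (hy : A.Pt y s') (h0 : y < x)
    (h1 : x ≤ y + A.W1) (v0 : x + A.q * s < y + A.q * s' + A.q * A.h)
    (v1 : y + A.q * s' < x + A.q * s + A.q * A.h) :
    x = y + A.W1 ∧ A.ix s = A.ix s' + T.t := by
  have hd : (A.cfg 0).N ∣ (A.cfg 0).U s - (A.cfg 0).U s' - (x - y) := by
    have h2 := dvd_sub hy hx
    rwa [show y - A.U s' - (x - A.U s) = A.U s - A.U s' - (x - y) by ring] at h2
  have e : A.q * (s - s') = A.q * s - A.q * s' := mul_sub _ _ _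
  have hW : A.W1 = A.q * A.w + A.sg := rfl
  have hp := A.p_pos'
  rcases T.gap h.sgl h.nov hd (by omega) (fun _ => ⟨by omega, by omega⟩) with ⟨g1, g2⟩ | g
  · rw [h.ep, one_mul] at g2
    exact ⟨by omega, g2⟩
  · exfalso
    omega
/-- the classes `n t` -/
theorem kt (h : WR A T) {n : ℤ} (n0 : 0 ≤ n) (hn : n * T.t < A.p) :
    A.Pt (n * A.W1) (-(n * T.sig)) ∧ A.ix (-(n * T.sig)) = n * T.t := by
  have h1 : A.ix (-(n * T.sig)) = n * T.t := by
    apply ix_of (mul_nonneg n0 T.t0.le) hn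
    have h2 := h.Nov_row.mul_left n
    rwa [show n * (A.e * T.t + T.sig) = A.e * (n * T.t) - -(n * T.sig) by ring] at h2
  refine ⟨?_, h1⟩
  unfold Pt
  rw [A.Pt_U, h1]
  have h2 := h.Nov_tie.mul_left (-n)
  rwa [show -n * (A.a * T.t - A.W1) = n * A.W1 - A.a * (n * T.t) by ring] at h2
/-- the classes `p - n t` -/
theorem pkt (h : WR A T) {n : ℤ} (n0 : 0 < n) (hn : n * T.t < A.p) :
    A.Pt (A.D - n * A.W1) (n * T.sig) ∧ A.ix (n * T.sig) = A.p - n * T.t := by
  obtain ⟨h1, h2⟩ := h.kt n0.le hn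
  have hnt : 0 < n * T.t := mul_pos n0 T.t0
  have hd : ¬ (A.p : ℤ) ∣ -(n * T.sig) := by
    intro hc
    have h3 : A.ix (-(n * T.sig)) = 0 := by
      unfold ix
      exact Int.emod_eq_zero_of_dvd (hc.mul_left _)
    omega
  have h4 := h1.neg hd
  have h5 := ix_neg hd
  rw [neg_neg] at h4 h5
  exact ⟨h4, by omega⟩
theorem Pt1 (h : WR A T) : A.Pt A.W1 (-T.sig) := by
  have h1 := (h.kt (n := 1) (by norm_num) (by rw [one_mul]; exact T.tp)).1
  rwa [one_mul, one_mul] at h1

end WR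

end TAp

end Pool.Agent.H78.Tie
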