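import Pool.Agent.H78.Tie.W.Defs

/-! # Pt

Calculus of lifts.  `U s = a * ix s` (`ix_U`), `V s = U s + q s` (`V_eq`), `NN = p q`, `A.D_cong : NN ∣ a p - D`,
`ix_neg`, `ix_sub_ge`, `ix_sub_lt`, `ix_pos`, `ix_inj`, `q_ne`, `q_NN`, `p_NN`, `p_D`, `p_W1` (VBase, StatAp), `U_cong`, `UU`,
`U_ne_D`, `U_zero'`, `Cx_of`, `not_Cx`, `Cx.off`, `Rw_of`, `not_Rw`, `Rw.off`, `Cx_congr`, `Rw_congr` (H67.NP.Col).
`ql`: multiplication by `q` is monotone (use these before `omega`, which treats `A.q * s` as an atom).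
-/

namespace Pool.Agent.H78.Tie

open Finset
open Pool.Agent.H98.Flat
open Pool.Agent.H67.Flat

set_option linter.dupNamespace false
set_option linter.unusedVariables false

namespace TAp

variable {A : TAp}

theorem ql {a b : ℤ} (h : a ≤ b) : (A.q : ℤ) * a ≤ A.q * b :=
  mul_le_mul_of_nonneg_left h A.q_pos'.le
theorem ql1 {a b : ℤ} (h : a + 1 ≤ b) : (A.q : ℤ) * a + A.q ≤ A.q * b := by
  have := mul_le_mul_of_nonneg_left h A.q_pos'.le
  rwa [mul_add, mul_one] at this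
/-- to bound levels -/
theorem qlt {a b : ℤ} (h : (A.q : ℤ) * a < A.q * b) : a < b :=
  lt_of_mul_lt_mul_left h A.q_pos'.le
theorem qle {a b : ℤ} (h : (A.q : ℤ) * a < A.q * b + A.q) : a ≤ b := by
  have h1 : (A.q : ℤ) * a < A.q * (b + 1) := by rw [mul_add, mul_one]; exact h
  have := lt_of_mul_lt_mul_left h1 A.q_pos'.le
  omega
/-- `2 D < N + q` -/
theorem D2 (A : TAp) : 2 * A.D + 2 ≤ A.NN + A.q := by
  have h1 := A.hmd2
  have h2 := A.hfd2
  have h3 : (A.q : ℤ) * (2 * A.md + 1) ≤ A.q * A.p :=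
    mul_le_mul_of_nonneg_left (by omega) A.q_pos'.le
  have e1 : (A.q : ℤ) * (2 * A.md + 1) = 2 * (A.q * A.md) + A.q := by ring
  have e2 : A.NN = A.q * A.p := mul_comm _ _
  have e3 : A.D = A.q * A.md + A.fd := rfl
  omega
theorem NNqp (A : TAp) : A.NN = A.q * A.p := mul_comm _ _
theorem Pt.self (A : TAp) (s : ℤ) : A.Pt (A.U s) s := by
  unfold Pt
  rw [sub_self]
  exact dvd_zero _
theorem Pt.zero (A : TAp) : A.Pt 0 0 := by
  unfold Pt
  rw [A.U_zero', sub_zero]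
  exact dvd_zero _
theorem Pt.dvd {x s : ℤ} (h : A.Pt x s) : (A.p : ℤ) ∣ x := by
  have h1 := dvd_add (A.p_NN.trans h) (A.pU s)
  rwa [sub_add_cancel] at h1
theorem Pt.congr {x s y s' : ℤ} (h : A.Pt x s) (hx : A.NN ∣ x - y) (hs : (A.p : ℤ) ∣ s - s') :
    A.Pt y s' := by
  unfold Pt at h ⊢
  have h1 := dvd_add (dvd_sub h hx) (U_cong (A := A) hs)
  rwa [show x - A.U s - (x - y) + (A.U s - A.U s') = y - A.U s' by ring] at h1
/-- a lift in any window of length `N` -/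
theorem Pt.ex (A : TAp) (s z : ℤ) : ∃ x, A.Pt x s ∧ z ≤ x ∧ x < z + A.NN := by
  have h0 := Int.emod_nonneg (A.U s - z) A.NN_pos.ne'
  have h1 := Int.emod_lt_of_pos (A.U s - z) A.NN_pos
  have h2 := Int.emod_add_mul_ediv (A.U s - z) A.NN
  refine ⟨z + (A.U s - z) % A.NN, ⟨-((A.U s - z) / A.NN), by linear_combination h2⟩, by omega,
    by omega⟩
theorem Pt.row {x s s' : ℤ} (h : A.Pt x s) (h' : A.Pt x s') : (A.p : ℤ) ∣ s - s' := by
  have h1 := dvd_sub h' h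
  rw [sub_sub_sub_cancel_left] at h1
  exact UU h1
theorem Pt.sep {x y s : ℤ} (h : A.Pt x s) (h' : A.Pt y s) : A.NN ∣ x - y := by
  have h1 := dvd_sub h h'
  rwa [sub_sub_sub_cancel_right] at h1
theorem Pt.eq {x y s : ℤ} (h : A.Pt x s) (h' : A.Pt y s) (h1 : x < y + A.NN)
    (h2 : y < x + A.NN) : x = y :=
  eq_of_dvd (h.sep h') (by omega) (by omega)
theorem Pt.V {x s : ℤ} (h : A.Pt x s) : A.NN ∣ (x + A.q * s) - A.V s := by
  rw [A.V_eq, show x + A.q * s - (A.U s + A.q * s) = x - A.U s by ring]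
  exact h
theorem Pt_U (A : TAp) (s : ℤ) : A.U s = A.a * A.ix s := A.ix_U s
theorem Pt_ix_add (A : TAp) (s s' : ℤ) : A.ix (s + s') = (A.ix s + A.ix s') % A.p := by
  unfold ix
  rw [mul_add, Int.add_emod]
theorem Pt.neg {x s : ℤ} (h : A.Pt x s) (hs : ¬ (A.p : ℤ) ∣ s) : A.Pt (A.D - x) (-s) := by
  unfold Pt at h ⊢
  rw [A.Pt_U, ix_neg hs]
  rw [A.Pt_U] at h
  have h1 := (dvd_neg).2 (dvd_add h A.D_cong)
  rwa [show -(x - A.a * A.ix s + (A.a * A.p - A.D)) = A.D - x - A.a * (A.p - A.ix s) by ring]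
    at h1
theorem Pt.add {x y s s' : ℤ} (h : A.Pt x s) (h' : A.Pt y s') (hi : A.ix s + A.ix s' < A.p) :
    A.Pt (x + y) (s + s') ∧ A.ix (s + s') = A.ix s + A.ix s' := by
  have h1 : A.ix (s + s') = A.ix s + A.ix s' := by
    rw [A.Pt_ix_add, Int.emod_eq_of_lt (add_nonneg (A.ix_nonneg s) (A.ix_nonneg s')) hi]
  refine ⟨?_, h1⟩
  unfold Pt at h h' ⊢
  rw [A.Pt_U, h1]
  rw [A.Pt_U] at h h'
  have h2 := dvd_add h h'
  rwa [show x - A.a * A.ix s + (y - A.a * A.ix s') = x + y - A.a * (A.ix s + A.ix s') by ring]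
    at h2
theorem Pt.add' {x y s s' : ℤ} (h : A.Pt x s) (h' : A.Pt y s') (hi : A.p ≤ A.ix s + A.ix s') :
    A.Pt (x + y - A.D) (s + s') ∧ A.ix (s + s') = A.ix s + A.ix s' - A.p := by
  have h1 : A.ix (s + s') = A.ix s + A.ix s' - A.p := by
    have a0 := A.ix_lt s
    have a1 := A.ix_lt s'
    rw [A.Pt_ix_add]
    exact Col_mod ⟨1, by ring⟩ (by omega) (by omega)
  refine ⟨?_, h1⟩
  unfold Pt at h h' ⊢
  rw [A.Pt_U, h1]
  rw [A.Pt_U] at h h'
  have h2 := dvd_add (dvd_add h h') A.D_cong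
  rwa [show x - A.a * A.ix s + (y - A.a * A.ix s') + (A.a * A.p - A.D)
    = x + y - A.D - A.a * (A.ix s + A.ix s' - A.p) by ring] at h2
theorem Pt.sub {x y s s' : ℤ} (h : A.Pt x s) (h' : A.Pt y s') (hi : A.ix s' ≤ A.ix s) :
    A.Pt (x - y) (s - s') := by
  unfold Pt at h h' ⊢
  rw [A.Pt_U, ix_sub_ge hi]
  rw [A.Pt_U] at h h'
  have h2 := dvd_sub h h'
  rwa [show x - A.a * A.ix s - (y - A.a * A.ix s') = x - y - A.a * (A.ix s - A.ix s') by ring]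
    at h2
theorem Pt.sub' {x y s s' : ℤ} (h : A.Pt x s) (h' : A.Pt y s') (hi : A.ix s < A.ix s') :
    A.Pt (x - y + A.D) (s - s') := by
  unfold Pt at h h' ⊢
  rw [A.Pt_U, ix_sub_lt hi]
  rw [A.Pt_U] at h h'
  have h2 := dvd_sub (dvd_sub h h') A.D_cong
  rwa [show x - A.a * A.ix s - (y - A.a * A.ix s') - (A.a * A.p - A.D)
    = x - y + A.D - A.a * (A.ix s - A.ix s' + A.p) by ring] at h2
/-- no lift of a row `≢ 0` is `0` or `D` modulo `N` -/
theorem Pt.ne0 {x s : ℤ} (h : A.Pt x s) (hs : ¬ (A.p : ℤ) ∣ s) : ¬ A.NN ∣ x := by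
  intro hc
  apply hs
  have h1 : A.Pt 0 s := h.congr (by rwa [sub_zero]) (by rw [sub_self]; exact dvd_zero _)
  have h2 := h1.row (Pt.zero A)
  rwa [sub_zero] at h2
theorem Pt.neD {x s : ℤ} (h : A.Pt x s) : ¬ A.NN ∣ x - A.D := by
  intro hc
  apply U_ne_D (A := A) s
  have h1 := dvd_sub hc h
  rwa [show x - A.D - (x - A.U s) = A.U s - A.D by ring] at h1
/-- genericity modulo `q` -/
theorem Pt.neq {x y s s' : ℤ} (h : A.Pt x s) (h' : A.Pt y s') (hs : ¬ (A.p : ℤ) ∣ s - s') :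
    ¬ (A.q : ℤ) ∣ x - y := by
  intro hc
  have hne := ix_ne (A := A) hs
  have a0 := A.ix_nonneg s
  have a1 := A.ix_lt s
  have b0 := A.ix_nonneg s'
  have b1 := A.ix_lt s'
  apply A.q_ne (i := A.ix s - A.ix s') (c := 0) (by omega) (by omega) (by omega)
  have h1 := A.q_NN.trans h
  have h2 := A.q_NN.trans h'
  rw [A.Pt_U] at h1 h2
  have h3 := dvd_add (dvd_sub hc h1) h2
  rwa [show x - y - (x - A.a * A.ix s) + (y - A.a * A.ix s')
    = A.a * (A.ix s - A.ix s') + A.q * 0 by ring] at h3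
theorem Pt.Cx {x s z : ℤ} (h : A.Pt x s) (hz : (A.p : ℤ) ∣ z) (h0 : x < z)
    (h1 : z ≤ x + A.W1) : A.Cx s z := by
  refine Cx_of hz (δ := z - x) ?_ (by omega) (by omega)
  rw [show z - (A.U s + (z - x)) = x - A.U s by ring]
  exact h
theorem Pt.not_Cx {x s z : ℤ} (h : A.Pt x s) (hz : (A.p : ℤ) ∣ z) (h0 : x + A.W1 < z)
    (h1 : z ≤ x + A.NN) : ¬ A.Cx s z := by
  refine TAp.not_Cx hz (δ := z - x) ?_ (by omega) (by omega)
  rw [show z - (A.U s + (z - x)) = x - A.U s by ring]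
  exact h
theorem Cx.lift {s z : ℤ} (h : A.Cx s z) (hz : (A.p : ℤ) ∣ z) :
    ∃ x, A.Pt x s ∧ x + A.p ≤ z ∧ z ≤ x + A.W1 := by
  obtain ⟨δ, h0, h1, h2, h3⟩ := h.off hz
  have h4 := Int.le_of_dvd h0 h2
  refine ⟨z - δ, ?_, by omega, by omega⟩
  unfold Pt
  rw [show z - δ - A.U s = z - (A.U s + δ) by ring]
  exact h3
theorem Pt.Rw {x s v : ℤ} (h : A.Pt x s) (h0 : x + A.q * s - A.q * A.h ≤ v)
    (h1 : v < x + A.q * s) : A.Rw s v := by
  refine Rw_of (δ := x + A.q * s - v) ?_ (by omega) (by omega)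
  have h2 := h.V
  rwa [show v - (A.V s - (x + A.q * s - v)) = x + A.q * s - A.V s by ring]
theorem Pt.not_Rw {x s v : ℤ} (h : A.Pt x s) (h0 : x + A.q * s ≤ v)
    (h1 : v < x + A.q * s - A.q * A.h + A.NN) : ¬ A.Rw s v := by
  refine TAp.not_Rw (δ := x + A.q * s - v + A.NN) ?_ (by omega) (by omega)
  have h2 := dvd_add h.V (dvd_refl A.NN)
  rwa [show v - (A.V s - (x + A.q * s - v + A.NN)) = x + A.q * s - A.V s + A.NN by ring]
/-- a covered row: choose the representative of the row so that the lifts match -/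
theorem Pt.Rw_row {x s v : ℤ} (h : A.Pt x s) (hr : A.Rw s v) :
    ∃ s', (A.p : ℤ) ∣ s' - s ∧ A.Pt x s' ∧ x + A.q * s' - A.q * A.h ≤ v ∧ v < x + A.q * s' := by
  obtain ⟨δ, h0, h1, k, hk⟩ := hr.off
  obtain ⟨m, hm⟩ := h
  have hN := A.NNqp
  have hV := A.V_eq s
  have e : x + A.q * (s + A.p * (k - m)) = v + δ := by
    linear_combination hm - hk + (m - k) * hN - hV
  refine ⟨s + A.p * (k - m), ⟨k - m, by ring⟩, ?_, by omega, by omega⟩
  exact Pt.congr ⟨m, hm⟩ (by rw [sub_self]; exact dvd_zero _) ⟨m - k, by ring⟩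
/-- small rows are not `0` modulo `p` -/
theorem ndp {s : ℤ} (h : s ≠ 0) (h0 : -(A.p : ℤ) < s) (h1 : s < A.p) : ¬ (A.p : ℤ) ∣ s := by
  intro hd
  exact h (Int.eq_zero_of_abs_lt_dvd hd (by rw [abs_lt]; constructor <;> omega))

end TAp

end Pool.Agent.H78.Tie
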