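import Pool.Agent.H78.Tie.W.Cov
import Pool.Agent.H67.NP.Count

/-! # TL

Total length: `cross_count` (H67.NP.Count) with y = 0, z0 = beta - q (h-w) + 1, L = 2 q h - q w - 1 (L + W1 <= 2 q h).
beta < q (h - w): beta <= D - W1 (ble), D <= q h, multiples of p, p does not divide q (h-w), q h.  So z0 <= 0 and D <= z0 + L.
Crossing: p | x, 0 < x <= N, 1 <= Rv x v, v = x - k0 (+ q * 0): `Rv_ex`: row s with Cx s x and Rw s v; let y be the lift with y + p <= x <= y + W1 (Cx.lift), and s the
 representative with y + q s - q h <= v < y + q s (Pt.Rw_row).  v - y in [p - k0, W1 - k0] so q s > 0 and q s < q h + q w: 1 <= s <= h + w - 1 (s = h + w excluded: W1 - k0 < q w).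
 Position in [z0, z0+L) mod N:
 * s < w: B1 lift in (0, D - W1]; y = it + N z; v = it + (v-y) in [0, D).
 * s = h + k, 0 <= k < w: B2 (k > 0) / beta (k = 0): lift x' in (-q k, D - W1], v' := x' + (v - y) >= x' + q k > 0 (from y + q s - q h <= v), v' < D.
 * w <= s < h: lift x' in [0,N) : x' <> 0, D.  If x' < D: bmin: x' <= D - W1: v' in [0, D).  If x' > D: s <= h - w (otherwise s = h - k, 1 <= k < w: B3 gives a lift inside). cov (i = h, k = 0, b = beta, Y0 = 0): Rw s beta:
   Pt.Rw_row: (shift by N) x' + q s - q h <= beta + N z < x' + q s; so v' := x' - N z + (v - y) satisfies v' > beta - q s >= beta - q (h-w) and v' < beta + q h - q s + q w <= beta + q h (x' - Nz <= beta + q h - q s, v - y <= W1 - k0 < q w).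
 h1: R <= 1 in visible columns: `Rv01`.
-/

namespace Pool.Agent.H78.Tie

open Finset
open Pool.Agent.H98.Flat
open Pool.Agent.H67.Flat

set_option linter.dupNamespace false
set_option linter.unusedVariables false

namespace TAp

variable {A : TAp}

theorem TL_q (A : TAp) {m : ℤ} (h0 : 0 < m) (h1 : m < A.p) : ¬ (A.p : ℤ) ∣ A.q * m := by
  intro h
  have h2 : (A.p : ℤ) ∣ (A.q * A.w + A.sg) * m := A.hpw.mul_right m
  have h3 : (A.p : ℤ) ∣ A.q * m * A.w := h.mul_right _
  have h4 := dvd_sub h2 h3
  rw [show (A.q * A.w + A.sg) * m - A.q * m * A.w = A.sg * m by ring] at h4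
  have h5 : (A.p : ℤ) ∣ m := by
    rcases A.hsg with e | e <;> rw [e] at h4
    · rwa [one_mul] at h4
    · rwa [neg_one_mul, dvd_neg] at h4
  exact ndp (by omega) (by omega) h1 h5

theorem Bt.TL {T : A.Tie} {β : ℤ} (h : Bt A T β) (hD : A.D ≤ A.q * A.h) : False := by
  obtain ⟨z1, z2, z3, z4, z5, z6, z7, z8, z9, z10, z11⟩ := h.wr.sz
  have hDW := A.D_W'
  obtain ⟨hH, hH'⟩ := A.Col_H
  obtain ⟨hW0, hW0'⟩ := A.Col_W
  have hWb := A.W1_bd
  have hW1 : A.W1 = A.q * A.w + A.sg := rfl
  have hsg := A.hsg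
  have hD0 := A.D_pos
  have hk0 := A.k0c
  have hb0 := h.b0
  have hble := h.ble
  have hpb := h.pb.dvd
  have hhw : (A.q : ℤ) * (A.h - A.w) = A.q * A.h - A.q * A.w := by ring
  have hwh : (A.q : ℤ) * A.w + A.q ≤ A.q * A.h := ql1 (by omega)
  -- `β < q (h - w)`
  have hb1 : β < A.q * A.h - A.q * A.w := by
    have n1 : A.D ≠ A.q * A.h := by
      intro e
      exact A.TL_q (m := A.h) (by omega) (by omega) (e ▸ A.p_D)
    have n2 : β ≠ A.q * A.h - A.q * A.w := by
      intro e
      rw [← hhw] at e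
      exact A.TL_q (m := A.h - A.w) (by omega) (by omega) (e ▸ hpb)
    omega
  refine A.cross_count 0 (β - (A.q * A.h - A.q * A.w) + 1) (2 * (A.q * A.h) - A.q * A.w - 1)
    (by omega) (by omega) ?_ ?_
  · intro x v hx
    rcases h.wr.Rv01 hx v with e | e <;> omega
  · intro x hx x0 x1 hR
    rw [mul_zero, add_zero] at hR ⊢
    obtain ⟨s₀, hc, hr⟩ := Rv_ex hR
    obtain ⟨y, hy, y1, y2⟩ := hc.lift hx
    obtain ⟨s, hs, hys, v1, v2⟩ := hy.Rw_row hr
    clear hs hc hr
    -- the bounds of `s`
    have s0 : 0 < s := by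
      have : (A.q : ℤ) * 0 < A.q * s := by rw [mul_zero]; omega
      exact qlt this
    have s1 : s < A.h + A.w := by
      have : (A.q : ℤ) * s < A.q * (A.h + A.w) := by rw [mul_add]; omega
      exact qlt this
    -- it is enough to find a lift
    have fin : ∀ X : ℤ, A.NN ∣ y - X →
        β - (A.q * A.h - A.q * A.w) + 1 ≤ X + (x - A.k0 - y) →
        X + (x - A.k0 - y) < β + A.q * A.h →
        ∃ δ : ℤ, 0 ≤ δ ∧ δ < 2 * (A.q * A.h) - A.q * A.w - 1 ∧
          A.NN ∣ x - A.k0 - (β - (A.q * A.h - A.q * A.w) + 1 + δ) := by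
      intro X hX b0 b1
      refine ⟨X + (x - A.k0 - y) - (β - (A.q * A.h - A.q * A.w) + 1), by omega, by omega, ?_⟩
      rwa [show x - A.k0 - (β - (A.q * A.h - A.q * A.w) + 1 + (X + (x - A.k0 - y)
        - (β - (A.q * A.h - A.q * A.w) + 1))) = y - X by ring]
    by_cases c1 : s < A.w
    · obtain ⟨X, hX, a1, a2⟩ := h.B1 s0 c1
      exact fin X (hys.sep hX) (by omega) (by omega)
    · by_cases c2 : A.h ≤ s
      · have key : ∃ X, A.Pt X s ∧ -(A.q * (s - A.h)) ≤ X ∧ X ≤ A.D - A.W1 := by
          rcases c2.eq_or_lt with e | e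
          · refine ⟨β, e ▸ h.pb, ?_, hble⟩
            rw [← e, sub_self, mul_zero]; omega
          · obtain ⟨X, hX, a1, a2⟩ := h.B2 (k := s - A.h) (by omega) (by omega)
            refine ⟨X, ?_, a1.le, a2⟩
            rwa [show A.h + (s - A.h) = s by ring] at hX
        obtain ⟨X, hX, a1, a2⟩ := key
        rw [mul_sub] at a1
        exact fin X (hys.sep hX) (by omega) (by omega)
      · obtain ⟨X, hX, a1, a2⟩ := Pt.ex A s 0
        rw [zero_add] at a2
        have hsn : ¬ (A.p : ℤ) ∣ s := ndp (by omega) (by omega) (by omega)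
        have e0 : X ≠ 0 := by
          intro e
          apply hX.ne0 hsn
          rw [e]; exact dvd_zero _
        have e1 : X ≠ A.D := by
          intro e
          apply hX.neD
          rw [e, sub_self]; exact dvd_zero _
        by_cases c3 : X < A.D
        · have a3 := h.wr.bmin s0 (by omega) hX (by omega) c3
          exact fin X (hys.sep hX) (by omega) (by omega)
        · have c4 : s ≤ A.h - A.w := by
            by_contra hcc
            obtain ⟨X', hX', b1, b2⟩ := h.B3 (k := A.h - s) (by omega) (by omega)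
            rw [sub_sub_cancel] at hX'
            have b3 : (A.q : ℤ) * 0 ≤ A.q * (A.h - s) := ql (by omega)
            rw [mul_zero] at b3
            have := hX.eq hX' (by omega) (by omega)
            omega
          have hcov : A.Rw s β := h.cov (i := A.h) (k := 0) (b := β) (Y0 := 0)
            (Or.inl ⟨rfl, rfl, rfl⟩) (by rw [mul_zero, sub_zero]; exact h.pb) hb0 h.b1
            (by rw [mul_zero]; omega) (by rw [mul_zero]; have := h.b1; omega)
            (by omega) (by omega) hX (by omega) a2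
          obtain ⟨s', ⟨j, hj⟩, -, b1, b2⟩ := hX.Rw_row hcov
          have e2 : (A.q : ℤ) * s' = A.q * s + A.NN * j := by
            rw [NNqp, show s' = s + A.p * j by omega]; ring
          have e3 : A.NN ∣ y - (X + A.NN * j) := by
            have := dvd_sub (hys.sep hX) (dvd_mul_right A.NN j)
            rwa [show y - X - A.NN * j = y - (X + A.NN * j) by ring] at this
          have e4 : (A.q : ℤ) * A.w ≤ A.q * s := ql (by omega)
          have e5 : (A.q : ℤ) * s ≤ A.q * (A.h - A.w) := ql c4
          exact fin _ e3 (by omega) (by omega)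

end TAp

end Pool.Agent.H78.Tie
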