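import Pool.Agent.H78.Tie.W.Nov

/-! # Wall

Rule (E0) with integer positions (`E0f`, `E0m` of H78.Tie.Rule2) and the levels of the walls.
HB b i k gives `A.HW (ix i) (b / q) (b % q) k'` (k' = k up to multiples of p), b % q <> 0 by genericity.
Classes: `A.Cls (ix s) (c / q) (c % q) s` for `Pt c s`, p not | s.  Phi = PhiZ.  (helper78 does this module.)
lev_arc: b = x + q k mod N, delta = c - x in (0,N), q not | delta: r = k - floor(delta/q) mod p; in (k-w,k] iff delta < q w.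
lev_L: rows of s: `lv_ver'` (Rule2).
-/

namespace Pool.Agent.H78.Tie

open Finset
open Pool.Agent.H98.Flat
open Pool.Agent.H67.Flat

set_option linter.dupNamespace false
set_option linter.unusedVariables false

namespace TAp

variable {A : TAp}

/-! ### classes -/

theorem Wall_ixne {s : ℤ} (hs : ¬ (A.p : ℤ) ∣ s) : A.ix s ≠ 0 := by
  intro hc
  apply hs
  have := ix_inj (A := A) (k := s) (j := 0) (by rw [hc, A.ix_zero])
  rwa [sub_zero] at this

theorem Wall_nq {s x : ℤ} (hs : ¬ (A.p : ℤ) ∣ s) (hx : A.NN ∣ x - A.U s) : ¬ (A.q : ℤ) ∣ x := by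
  intro h
  have n0 := A.ix_nonneg s
  have n1 := A.ix_lt s
  refine A.gen (A.ix s) (Wall_ixne hs) (by rw [abs_of_nonneg n0]; omega) ?_
  have h1 : (A.q : ℤ) ∣ A.NN := ⟨A.p, by unfold NN; ring⟩
  have h2 := dvd_sub h (h1.trans hx)
  rw [sub_sub_cancel] at h2
  have : A.U s = A.a * A.ix s := A.ix_U s
  rwa [this] at h2

theorem Wall_cls {s x k : ℤ} (hs : ¬ (A.p : ℤ) ∣ s) (hx : A.NN ∣ x - A.U s)
    (hk : (A.p : ℤ) ∣ k - s) : A.Cls (A.ix s) (x / A.q) (x % A.q) k := by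
  have hq := A.q_pos'
  have n0 := A.ix_nonneg s
  have n1 := A.ix_lt s
  have i0 := Wall_ixne (A := A) hs
  have f0 := Int.emod_nonneg x hq.ne'
  have f1 := Int.emod_lt_of_pos x hq
  have fe := Int.emod_add_mul_ediv x A.q
  have fne : x % A.q ≠ 0 := fun hf => Wall_nq hs hx (Int.dvd_of_emod_eq_zero hf)
  obtain ⟨c, hc⟩ := hx
  have hU : A.U s = A.a * A.ix s := A.ix_U s
  unfold NN at hc
  rw [hU] at hc
  refine ⟨by omega, n1, by omega, f1, ⟨-c, by linear_combination -fe - hc⟩, ?_⟩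
  have := dvd_sub (A.ix_row s) hk
  rwa [show A.e * A.ix s - s - (k - s) = A.e * A.ix s - k by ring] at this

theorem HB.lift' {b i k : ℤ} (h : A.HB b i k) : A.NN ∣ (b - A.q * k) - A.U i := by
  obtain ⟨-, h⟩ := h
  rcases h with ⟨⟨z, hz⟩, ⟨c, hc⟩⟩ | ⟨⟨z, hz⟩, ⟨c, hc⟩⟩
  · refine ⟨z - c, ?_⟩
    rw [V_eq] at hz
    have e : A.NN = A.p * A.q := rfl
    rw [e] at hz ⊢
    linear_combination hz - A.q * hc
  · refine ⟨z - c, ?_⟩
    rw [V_eq] at hz
    have e : A.NN = A.p * A.q := rfl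
    rw [e] at hz ⊢
    linear_combination hz - A.q * hc

theorem HB.HW {b i k : ℤ} (h : A.HB b i k) : A.HW (A.ix i) (b / A.q) (b % A.q) k := by
  have hq := A.q_pos'
  have h1 := h.lift'
  obtain ⟨hi, h⟩ := h
  have e1 : (b - A.q * k) / A.q = b / A.q - k := by
    rw [show b - A.q * k = b + A.q * (-k) by ring, Int.add_mul_ediv_left _ _ hq.ne']; ring
  have e2 : (b - A.q * k) % A.q = b % A.q := by
    rw [show b - A.q * k = b + A.q * (-k) by ring, Int.add_mul_emod_self_left]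
  rcases h with ⟨-, hc⟩ | ⟨-, hc⟩
  · refine ⟨b / A.q - k, k, ?_, Or.inl ⟨by ring, rfl⟩⟩
    have := Wall_cls hi h1 hc
    rwa [e1, e2] at this
  · refine ⟨b / A.q - k, k + A.h, ?_, Or.inr ⟨by ring, by ring⟩⟩
    have := Wall_cls (k := k + A.h) hi h1 (by
      rwa [show k + A.h - i = k - (i - A.h) by ring])
    rwa [e1, e2] at this

theorem Wall_Phi (A : TAp) (c b Y : ℤ) :
    A.Phi (c / A.q) (c % A.q) (b / A.q) (b % A.q) Y = A.PhiZ c b Y := by
  have hq := A.q_pos'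
  have e1 := Int.emod_add_mul_ediv c A.q
  have e2 := Int.emod_add_mul_ediv b A.q
  have k1 : (A.q * (c / A.q) + c % A.q : ℤ) = c := by omega
  have k2 : (A.q * (c / A.q - A.w) + c % A.q : ℤ) = c - A.q * A.w := by
    rw [mul_sub]; omega
  have k3 : (A.q * (b / A.q) + b % A.q : ℤ) = b := by omega
  have k4 : (A.q * (b / A.q + A.h) + b % A.q : ℤ) = b + A.q * A.h := by
    rw [mul_add]; omega
  have j1 : A.InL (c / A.q) (c % A.q) ↔ c % A.NN < A.D := by
    unfold InL; rw [k1]; rfl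
  have j2 : A.InL (c / A.q - A.w) (c % A.q) ↔ (c - A.q * A.w) % A.NN < A.D := by
    unfold InL; rw [k2]; rfl
  have j3 : A.InL (b / A.q) (b % A.q) ↔ b % A.NN < A.D := by
    unfold InL; rw [k3]; rfl
  have j4 : A.InL (b / A.q + A.h) (b % A.q) ↔ (b + A.q * A.h) % A.NN < A.D := by
    unfold InL; rw [k4]; rfl
  unfold Phi PhiZ
  simp only [j1, j2, j3, j4]

/-- the level in terms of quotients -/
theorem Wall_r {b c r : ℤ} (r1 : A.q * r < b - c + A.q) (r2 : b - c ≤ A.q * r) :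
    r = b / A.q - c / A.q + (if c % A.q < b % A.q then 1 else 0) := by
  have hq := A.q_pos'
  have e1 := Int.emod_add_mul_ediv c A.q
  have e2 := Int.emod_add_mul_ediv b A.q
  have f0 := Int.emod_nonneg c hq.ne'
  have f1 := Int.emod_lt_of_pos c hq
  have g0 := Int.emod_nonneg b hq.ne'
  have g1 := Int.emod_lt_of_pos b hq
  set x := c % (A.q : ℤ)
  set y := b % (A.q : ℤ)
  set m := c / (A.q : ℤ)
  set n := b / (A.q : ℤ)
  have E : b - c = A.q * (n - m) + (y - x) := by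
    rw [mul_sub]; omega
  rw [E] at r1 r2
  split_ifs with h
  · -- r = n - m + 1
    have h1 : (A.q : ℤ) * r < A.q * (n - m + 2) := by rw [mul_add]; omega
    have h2 := lt_of_mul_lt_mul_left h1 hq.le
    have h3 : (A.q : ℤ) * (n - m) < A.q * r := by omega
    have h4 := lt_of_mul_lt_mul_left h3 hq.le
    omega
  · have h1 : (A.q : ℤ) * r < A.q * (n - m + 1) := by rw [mul_add]; omega
    have h2 := lt_of_mul_lt_mul_left h1 hq.le
    have h3 : (A.q : ℤ) * (n - m - 1) < A.q * r := by rw [mul_sub]; omega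
    have h4 := lt_of_mul_lt_mul_left h3 hq.le
    omega

theorem HB_T {x i : ℤ} (h : A.Pt x i) (hi : ¬ (A.p : ℤ) ∣ i) : A.HB (x + A.q * i) i i := by
  refine ⟨hi, Or.inl ⟨?_, by simp⟩⟩
  rw [V_eq, add_sub_add_right_eq_sub]; exact h
theorem HB_B {x i : ℤ} (h : A.Pt x i) (hi : ¬ (A.p : ℤ) ∣ i) :
    A.HB (x + A.q * i - A.q * A.h) i (i - A.h) := by
  refine ⟨hi, Or.inr ⟨?_, by simp⟩⟩
  rw [V_eq, show x + A.q * i - A.q * A.h - (A.U i + A.q * i - A.q * A.h) = x - A.U i by ring]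
  exact h
theorem HB.cong {b b' i k : ℤ} (h : A.HB b i k) (hb : A.NN ∣ b - b') : A.HB b' i k := by
  obtain ⟨hi, h⟩ := h
  refine ⟨hi, ?_⟩
  rcases h with ⟨h1, h2⟩ | ⟨h1, h2⟩
  · refine Or.inl ⟨?_, h2⟩
    have := dvd_sub h1 hb
    rwa [show b - A.V i - (b - b') = b' - A.V i by ring] at this
  · refine Or.inr ⟨?_, h2⟩
    have := dvd_sub h1 hb
    rwa [show b - (A.V i - A.q * A.h) - (b - b') = b' - (A.V i - A.q * A.h) by ring] at this
/-- `b = x + q k` modulo `N` -/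
theorem HB.lift {b i k x : ℤ} (h : A.HB b i k) (hx : A.Pt x i) : A.NN ∣ b - (x + A.q * k) := by
  have := dvd_sub h.lift' hx
  rwa [show b - A.q * k - A.U i - (x - A.U i) = b - (x + A.q * k) by ring] at this
/-- the arc of a horizontal wall: its columns -/
theorem lev_arc {c b i k r x : ℤ} (hb : A.HB b i k) (hx : A.Pt x i) (h0 : x < c)
    (h1 : c < x + A.NN) (hq : ¬ (A.q : ℤ) ∣ c - x) (r1 : A.q * r < b - c + A.q)
    (r2 : b - c ≤ A.q * r) : InA A.p r (k - A.w) A.w ↔ c < x + A.q * A.w := by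
  have hq0 := A.q_pos'
  have hp0 := A.p_pos'
  have hw := A.hw
  have w2 := A.w2
  obtain ⟨z, hz⟩ := hb.lift hx
  have e := Int.emod_add_mul_ediv (c - x) A.q
  have f0 := Int.emod_nonneg (c - x) hq0.ne'
  have f1 := Int.emod_lt_of_pos (c - x) hq0
  have fne : (c - x) % A.q ≠ 0 := fun h => hq (Int.dvd_of_emod_eq_zero h)
  set n := (c - x) / (A.q : ℤ) with hn
  set f := (c - x) % (A.q : ℤ)
  have hNN : A.NN = A.q * A.p := NNqp A
  have E : b - c = A.q * (k + A.p * z - n) - f := by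
    rw [hNN] at hz
    linear_combination hz + e
  rw [E] at r1 r2
  have hr : r = k + A.p * z - n := by
    have h2 : (A.q : ℤ) * r < A.q * (k + A.p * z - n + 1) := by rw [mul_add]; omega
    have h3 := lt_of_mul_lt_mul_left h2 hq0.le
    have h4 : (A.q : ℤ) * (k + A.p * z - n - 1) < A.q * r := by rw [mul_sub]; omega
    have h5 := lt_of_mul_lt_mul_left h4 hq0.le
    omega
  have n0 : 0 ≤ n := by
    by_contra hc
    have : n + 1 ≤ 0 := by omega
    have h2 : (A.q : ℤ) * (n + 1) ≤ A.q * 0 := mul_le_mul_of_nonneg_left this hq0.le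
    rw [mul_add, mul_zero, mul_one] at h2
    omega
  have n1 : n < A.p := by
    have h2 : (A.q : ℤ) * n < A.q * A.p := by omega
    exact lt_of_mul_lt_mul_left h2 hq0.le
  unfold InA
  rw [hr, show k + A.p * z - n - (k - A.w) - 1 = (A.w - 1 - n) + A.p * z by ring,
    Int.add_mul_emod_self_left]
  by_cases c1 : n < A.w
  · rw [Int.emod_eq_of_lt (by omega) (by omega)]
    constructor
    · intro _
      have : n + 1 ≤ A.w := c1
      have h2 : (A.q : ℤ) * (n + 1) ≤ A.q * A.w := mul_le_mul_of_nonneg_left this hq0.le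
      rw [mul_add, mul_one] at h2
      omega
    · intro _; omega
  · have : ((A.w : ℤ) - 1 - n) % A.p = A.w - 1 - n + A.p := by
      refine ((Int.ediv_emod_unique (q := -1) hp0).2 ⟨?_, by omega, by omega⟩).2
      rw [mul_neg]; omega
    rw [this]
    constructor
    · intro _; omega
    · intro h2
      exfalso
      have : (A.w : ℤ) ≤ n := by omega
      have h3 : (A.q : ℤ) * A.w ≤ A.q * n := mul_le_mul_of_nonneg_left this hq0.le
      omega

theorem Wall_NNq (A : TAp) : (A.q : ℤ) ∣ A.NN := ⟨A.p, NNqp A⟩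

/-- genericity of a height and a column -/
theorem Wall_gen {c b i k s : ℤ} (hb : A.HB b i k) (hc : A.Pt c s) (hi : ¬ (A.p : ℤ) ∣ i - s) :
    ¬ (A.q : ℤ) ∣ b - c := by
  intro h
  obtain ⟨x, hx, -, -⟩ := Pt.ex A i 0
  have h1 := hb.lift hx
  refine Pt.neq hx hc hi ?_
  have h2 := dvd_sub h ((Wall_NNq A).trans h1)
  have h3 := dvd_sub h2 (dvd_mul_right (A.q : ℤ) k)
  rwa [show b - c - (b - (x + A.q * k)) - A.q * k = x - c by ring] at h3

/-- the arc of a left wall: its rows -/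
theorem lev_L {c s b i k r : ℤ} (hc : A.Pt c s) (hb : A.HB b i k) (hi : ¬ (A.p : ℤ) ∣ i - s)
    (r1 : A.q * r < b - c + A.q) (r2 : b - c ≤ A.q * r) :
    InA A.p r (s - A.h) A.h ↔ A.Rw s b := by
  have hh := A.hh
  have h2 := A.h2
  have g := Wall_gen hb hc hi
  have hV : Pool.Agent.H67.Flat.VW (A.cfg 0) s c s 1 := Or.inl ⟨rfl, hc, rfl⟩
  have k1 : ((A.cfg 0).q : ℤ) * (r - 1) < b - c := by
    change (A.q : ℤ) * (r - 1) < b - c
    rw [mul_sub]; omega
  have k2 : b - c < ((A.cfg 0).q : ℤ) * r := by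
    change b - c < (A.q : ℤ) * r
    refine lt_of_le_of_ne r2 ?_
    intro h
    exact g ⟨r, h⟩
  have := lv_ver' hV k1 k2
  change lv A.p s A.h r = _ at this
  rw [Ap.InA_lv (by omega) (by omega), this]
  rfl

theorem Wall_lvR {c s' b r : ℤ} (hc : A.NN ∣ c - A.q * A.w - A.U s')
    (k1 : A.q * (r - 1) < b - c) (k2 : b - c < A.q * r) :
    InA A.p r (s' - A.w - A.h) A.h ↔ A.Rw s' b := by
  have hh := A.hh
  have h2 := A.h2
  have hV : Pool.Agent.H67.Flat.VW (A.cfg 0) s' c (s' - A.w) (-1) := by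
    refine Or.inr ⟨rfl, ?_, rfl⟩
    change A.NN ∣ c - (A.U s' + A.q * A.w)
    rwa [show c - (A.U s' + A.q * A.w) = c - A.q * A.w - A.U s' by ring]
  have := lv_ver' hV k1 k2
  change lv A.p (s' - A.w) A.h r = _ at this
  rw [Ap.InA_lv (by omega) (by omega), this]
  rfl

/-- the arc of the right wall of `s'` on a line which is also a left wall -/
theorem lev_R {c s s' b i k r : ℤ} (hc : A.Pt c s) (hc' : A.Pt (c - A.W1) s') (hb : A.HB b i k)
    (hi : ¬ (A.p : ℤ) ∣ i - s) (hi' : ¬ (A.p : ℤ) ∣ i - s')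
    (r1 : A.q * r < b - c + A.q) (r2 : b - c ≤ A.q * r) :
    InA A.p r (s' - A.w - A.h) A.h ↔ A.Rw s' b := by
  have g := Wall_gen hb hc hi
  have g' := Wall_gen hb hc' hi'
  have hW : A.W1 = A.q * A.w + A.sg := rfl
  have k2 : b - c < A.q * r := by
    refine lt_of_le_of_ne r2 ?_
    intro h
    exact g ⟨r, h⟩
  have n1 : b - (c - A.sg) ≠ A.q * r := by
    intro h
    apply g'
    refine ⟨r + A.w, ?_⟩
    rw [hW]
    linear_combination h
  have n2 : b - (c - A.sg) ≠ A.q * (r - 1) := by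
    intro h
    apply g'
    refine ⟨r - 1 + A.w, ?_⟩
    rw [hW]
    linear_combination h
  have e : (A.q : ℤ) * (r - 1) = A.q * r - A.q := by ring
  have hsg := A.hsg
  refine Wall_lvR (c := c - A.sg) ?_ ?_ ?_
  · rw [show c - A.sg - A.q * A.w = c - A.W1 by rw [hW]; ring]
    exact hc'
  · rcases hsg with h | h <;> rw [h] at n1 n2 ⊢ <;> omega
  · rcases hsg with h | h <;> rw [h] at n1 n2 ⊢ <;> omega

/-- the arc of a free right wall of `s'` at `c` -/
theorem lev_FR {c s' b i k r : ℤ} (hc : A.Pt (c - A.q * A.w) s') (hb : A.HB b i k)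
    (hi' : ¬ (A.p : ℤ) ∣ i - s') (r1 : A.q * r < b - c + A.q) (r2 : b - c ≤ A.q * r) :
    InA A.p r (s' - A.w - A.h) A.h ↔ A.Rw s' b := by
  have g := Wall_gen hb hc hi'
  have k2 : b - c < A.q * r := by
    refine lt_of_le_of_ne r2 ?_
    intro h
    apply g
    refine ⟨r + A.w, ?_⟩
    linear_combination h
  refine Wall_lvR hc ?_ k2
  rw [mul_sub]; omega

/-- the level exists -/
theorem lev_ex (A : TAp) (b c : ℤ) : ∃ r, A.q * r < b - c + A.q ∧ b - c ≤ A.q * r := by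
  have hq0 := A.q_pos'
  have e := Int.emod_add_mul_ediv (c - b) A.q
  have f0 := Int.emod_nonneg (c - b) hq0.ne'
  have f1 := Int.emod_lt_of_pos (c - b) hq0
  refine ⟨-((c - b) / A.q), ?_, ?_⟩ <;> rw [mul_neg] <;> omega

namespace WR

variable {T : A.Tie}

theorem wall_ar {g : ℤ} {r Y : ℤ}
    (h : (if InA A.p r (g - A.h) A.h then (1 : ℤ) else 0) ≠
      (if InA A.p Y (g - A.h) A.h then (1 : ℤ) else 0)) :
    InA A.p Y (g - A.h) A.h ↔ ¬ InA A.p r (g - A.h) A.h := by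
  split_ifs at h with h1 h2 h2
  · exact absurd rfl h
  · exact ⟨fun h3 => absurd h3 h2, fun h3 => absurd h1 h3⟩
  · exact ⟨fun _ => h1, fun _ => h2⟩
  · exact absurd rfl h

theorem wall_ine {i s : ℤ} (hi : ¬ (A.p : ℤ) ∣ i - s) : A.ix i ≠ A.ix s := fun h => hi (ix_inj h)

/-- free left wall -/
theorem wFL (h : WR A T) {c s i : ℤ} (hc : A.Pt c s) (hs : ¬ (A.p : ℤ) ∣ s)
    (hf : A.ix s < T.t) (hi : ¬ (A.p : ℤ) ∣ i - s) : A.Wal c (A.aL s) i := by
  intro b k r Y hb r1 r2 hχ hk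
  have h1 := E0f h.fl T h.sgl (j := A.ix s) (i := A.ix i) (mc := c / A.q) (fc := c % A.q) (g := s)
    (Or.inl ⟨Wall_cls hs hc (by simp), Or.inl ⟨h.ep, hf⟩⟩) hb.HW (wall_ine hi) (Wall_r r1 r2) Y
    (wall_ar hχ) hk
  rwa [Wall_Phi, Wall_Phi] at h1

/-- free right wall -/
theorem wFR (h : WR A T) {c s i : ℤ} (hc : A.Pt (c - A.q * A.w) s) (hs : ¬ (A.p : ℤ) ∣ s)
    (hf : A.p < A.ix s + T.t) (hi : ¬ (A.p : ℤ) ∣ i - s) : A.Wal c (A.aR s) i := by
  intro b k r Y hb r1 r2 hχ hk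
  have hq := A.q_pos'
  have e1 : (c - A.q * A.w) / A.q = c / A.q - A.w := by
    rw [show c - A.q * A.w = c + A.q * (-A.w) by ring, Int.add_mul_ediv_left _ _ hq.ne']; ring
  have e2 : (c - A.q * A.w) % A.q = c % A.q := by
    rw [show c - A.q * A.w = c + A.q * (-A.w) by ring, Int.add_mul_emod_self_left]
  have hC := Wall_cls (k := s) hs hc (by simp)
  rw [e1, e2] at hC
  have h1 := E0f h.fl T h.sgl (j := A.ix s) (i := A.ix i) (mc := c / A.q) (fc := c % A.q)
    (g := s - A.w)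
    (Or.inr ⟨by rwa [sub_add_cancel], Or.inl ⟨h.ep, hf⟩⟩) hb.HW (wall_ine hi) (Wall_r r1 r2) Y
    (wall_ar hχ) hk
  rwa [Wall_Phi, Wall_Phi] at h1

/-- the class of `s + sig` -/
theorem ixM (h : WR A T) {c s : ℤ} (hc : A.Pt c s) (hf : T.t < A.ix s) :
    A.Pt (c - A.W1) (s + T.sig) ∧ A.ix (s + T.sig) = A.ix s - T.t := by
  have hrow := T.row
  have htie := T.tie
  have t0 := T.t0
  rw [h.ep] at hrow htie
  have n1 := A.ix_lt s
  have hix : A.ix (s + T.sig) = A.ix s - T.t := by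
    apply ix_of (by omega) (by omega)
    unfold Tie.sig
    have := dvd_sub (A.ix_row s) hrow
    rwa [show A.e * A.ix s - s - (A.e * T.t - 1 * (T.x - A.w))
      = A.e * (A.ix s - T.t) - (s + (A.w - T.x)) by ring] at this
  refine ⟨?_, hix⟩
  unfold Pt at hc ⊢
  have e1 : A.U (s + T.sig) = A.a * A.ix (s + T.sig) := A.ix_U _
  have e2 : A.U s = A.a * A.ix s := A.ix_U _
  rw [e1, hix]
  rw [e2] at hc
  have hN : A.NN = (A.p : ℤ) * A.q := rfl
  have hW : A.W1 = A.q * A.w + A.sg := rfl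
  rw [← hN] at htie
  have := dvd_add hc htie
  rwa [show c - A.a * A.ix s + (A.a * T.t - 1 * (A.q * A.w + A.sg))
    = c - A.W1 - A.a * (A.ix s - T.t) by rw [hW]; ring] at this

/-- the class of `s - sig` -/
theorem ixM' (h : WR A T) {c s : ℤ} (hc : A.Pt c s) (hf : A.ix s + T.t < A.p) :
    A.Pt (c + A.W1) (s - T.sig) ∧ A.ix (s - T.sig) = A.ix s + T.t := by
  have hrow := T.row
  have htie := T.tie
  have t0 := T.t0
  rw [h.ep] at hrow htie
  have n0 := A.ix_nonneg s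
  have hix : A.ix (s - T.sig) = A.ix s + T.t := by
    apply ix_of (by omega) (by omega)
    unfold Tie.sig
    have := dvd_add (A.ix_row s) hrow
    rwa [show A.e * A.ix s - s + (A.e * T.t - 1 * (T.x - A.w))
      = A.e * (A.ix s + T.t) - (s - (A.w - T.x)) by ring] at this
  refine ⟨?_, hix⟩
  unfold Pt at hc ⊢
  have e1 : A.U (s - T.sig) = A.a * A.ix (s - T.sig) := A.ix_U _
  have e2 : A.U s = A.a * A.ix s := A.ix_U _
  rw [e1, hix]
  rw [e2] at hc
  have hN : A.NN = (A.p : ℤ) * A.q := rfl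
  have hW : A.W1 = A.q * A.w + A.sg := rfl
  rw [← hN] at htie
  have := dvd_sub hc htie
  rwa [show c - A.a * A.ix s - (A.a * T.t - 1 * (A.q * A.w + A.sg))
    = c + A.W1 - A.a * (A.ix s + T.t) by rw [hW]; ring] at this

/-- merged line: left wall of `s`, right wall of `s + sig` (class `ix s - t`) -/
theorem wM (h : WR A T) {c s i : ℤ} (hc : A.Pt c s) (hf : T.t < A.ix s)
    (hi : ¬ (A.p : ℤ) ∣ i - s) (hi' : ¬ (A.p : ℤ) ∣ i - (s + T.sig)) :
    A.Wal c (fun y => A.aL s y - A.aR (s + T.sig) y) i := by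
  intro b k r Y hb r1 r2 hχ hk
  have hq := A.q_pos'
  have t0 := T.t0
  obtain ⟨hP, hix⟩ := h.ixM hc hf
  have hs : ¬ (A.p : ℤ) ∣ s := by
    intro hd
    have : A.ix s = 0 := by
      apply ix_of le_rfl A.p_pos'
      simpa using hd
    omega
  have hs' : ¬ (A.p : ℤ) ∣ s + T.sig := by
    intro hd
    have : A.ix (s + T.sig) = 0 := by
      apply ix_of le_rfl A.p_pos'
      rw [mul_zero, zero_sub, dvd_neg]; exact hd
    omega
  have hC := Wall_cls (k := s) hs hc (by simp)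
  have hC' := Wall_cls (k := s + T.sig) hs' hP (by simp)
  have hsg := A.hsg
  have hW : A.W1 = A.q * A.w + A.sg := rfl
  have f0 := hC.2.2.1
  have f1 := hC.2.2.2.1
  have g0 := hC'.2.2.1
  have g1 := hC'.2.2.2.1
  have ec := Int.emod_add_mul_ediv c A.q
  have ec' := Int.emod_add_mul_ediv (c - A.W1) A.q
  have key : (c - A.W1) / A.q = c / A.q - A.w ∧ (c - A.W1) % A.q = c % A.q - A.sg := by
    set m := c / (A.q : ℤ)
    set f := c % (A.q : ℤ)
    set m' := (c - A.W1) / (A.q : ℤ)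
    set f' := (c - A.W1) % (A.q : ℤ)
    have h1 : A.q * (m - A.w - m') = f' - (f - A.sg) := by
      rw [hW] at ec'
      linear_combination ec - ec'
    have h2 : m - A.w - m' = 0 := by
      have a1 : A.q * (m - A.w - m') < A.q * 1 := by rcases hsg with h | h <;> omega
      have a2 : A.q * (-1) < A.q * (m - A.w - m') := by
        rw [mul_neg]; rcases hsg with h | h <;> omega
      have a3 := lt_of_mul_lt_mul_left a1 hq.le
      have a4 := lt_of_mul_lt_mul_left a2 hq.le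
      omega
    rw [h2, mul_zero] at h1
    constructor <;> omega
  rw [key.1, key.2] at hC'
  have hr := Wall_r r1 r2
  have main := E0m h.fl hC hC' hb.HW (wall_ine hi) (wall_ine hi') hr Y
  rw [Wall_Phi, Wall_Phi] at main
  have c1 : A.chi s (s + T.sig) r = A.aL s r - A.aR (s + T.sig) r := rfl
  have c2 : A.chi s (s + T.sig) Y = A.aL s Y - A.aR (s + T.sig) Y := rfl
  rw [c1, c2] at main
  have b1 : A.aL s r = 0 ∨ A.aL s r = 1 := by unfold aL; split_ifs <;> simp
  have b2 : A.aL s Y = 0 ∨ A.aL s Y = 1 := by unfold aL; split_ifs <;> simp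
  have b3 : A.aR (s + T.sig) r = 0 ∨ A.aR (s + T.sig) r = 1 := by unfold aR; split_ifs <;> simp
  have b4 : A.aR (s + T.sig) Y = 0 ∨ A.aR (s + T.sig) Y = 1 := by unfold aR; split_ifs <;> simp
  have hne : A.aL s r - A.aR (s + T.sig) r ≠ A.aL s Y - A.aR (s + T.sig) Y := hχ
  by_cases e : A.aL s r - A.aR (s + T.sig) r - (A.aL s Y - A.aR (s + T.sig) Y) = 2 ∨
      A.aL s r - A.aR (s + T.sig) r - (A.aL s Y - A.aR (s + T.sig) Y) = -2
  · have := main.2 e
    exact absurd (this.1.symm.trans hk) iff_not_self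
  · refine main.1 ?_ hk
    omega

end WR

end TAp

end Pool.Agent.H78.Tie
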